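import Pool.Agent.EF39.Core

/-!
# EF39: back and forth with indexed tuples
-/

set_option autoImplicit false

open FirstOrder Language

namespace EF39

variable {k : ℕ} {br : Fin k → ℕ} {M : Type} {T : ∀ j, (Fin (br j) → M) → Prop}

/-- A back and forth system on indexed tuples `v 0, …, v (N - 1)` and `w 0, …, w (N - 1)`. -/
structure BFS {k : ℕ} (br : Fin k → ℕ) {M : Type} (T : ∀ j, (Fin (br j) → M) → Prop)
    (I : ℕ → (ℕ → M) → (ℕ → M) → Prop) : Prop where
  injv : ∀ {N v w}, I N v w → Set.InjOn v (Finset.range N)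
  injw : ∀ {N v w}, I N v w → Set.InjOn w (Finset.range N)
  rel : ∀ {N v w}, I N v w → ∀ j (x : Fin (br j) → ℕ), (∀ t, x t < N) →
    (T j (fun t => v (x t)) ↔ T j (fun t => w (x t)))
  forth : ∀ {N v w}, I N v w → ∀ a, (∀ i < N, v i ≠ a) → ∃ v' w', (∀ i < N, v' i = v i) ∧ (∀ i < N, w' i = w i) ∧
    v' N = a ∧ I (N + 1) v' w'
  back : ∀ {N v w}, I N v w → ∀ b, (∀ i < N, w i ≠ b) → ∃ v' w', (∀ i < N, v' i = v i) ∧ (∀ i < N, w' i = w i) ∧
    w' N = b ∧ I (N + 1) v' w'

theorem snoc_comp {m : ℕ} (p : Fin m → ℕ) (N : ℕ) (v' v : ℕ → M) (hp : ∀ i, p i < N) (h : ∀ i < N, v' i = v i) :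
    (Fin.snoc (fun i => v (p i)) (v' N) : Fin (m + 1) → M) =
      fun i => v' ((Fin.snoc p N : Fin (m + 1) → ℕ) i) := by
  funext i
  refine Fin.lastCases ?_ (fun i => ?_) i
  · simp
  · simp [h _ (hp i)]

theorem bf_idx {I : ℕ → (ℕ → M) → (ℕ → M) → Prop} (hI : BFS br T I) {α : Type} {m : ℕ}
    (φ : (lang br).BoundedFormula α m) {N : ℕ} {v w : ℕ → M} (h : I N v w) (q : α → ℕ) (p : Fin m → ℕ)
    (hq : ∀ x, q x < N) (hp : ∀ x, p x < N) :
    @BoundedFormula.Realize (lang br) M (str br T) α m φ (fun x => v (q x)) (fun x => v (p x)) ↔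
      @BoundedFormula.Realize (lang br) M (str br T) α m φ (fun x => w (q x)) (fun x => w (p x)) := by
  let _ := str br T
  have hterm : ∀ {m : ℕ} (t : (lang br).Term (α ⊕ Fin m)) (q : α → ℕ) (p : Fin m → ℕ) (N : ℕ),
      (∀ x, q x < N) → (∀ x, p x < N) → ∃ z < N, ∀ v : ℕ → M,
        t.realize (Sum.elim (fun x => v (q x)) (fun x => v (p x))) = v z := by
    intro m t q p N hq hp
    cases t with
    | var x =>
      cases x with
      | inl x => exact ⟨q x, hq x, fun v => rfl⟩
      | inr x => exact ⟨p x, hp x, fun v => rfl⟩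
    | func f _ => exact f.elim
  induction φ generalizing N v w with
  | falsum => exact Iff.rfl
  | equal t1 t2 =>
    obtain ⟨z1, hz1, h1⟩ := hterm t1 q p N hq hp
    obtain ⟨z2, hz2, h2⟩ := hterm t2 q p N hq hp
    simp only [BoundedFormula.Realize, h1, h2]
    constructor
    · intro hv
      rw [hI.injv h (by simpa using hz1) (by simpa using hz2) hv]
    · intro hw
      rw [hI.injw h (by simpa using hz1) (by simpa using hz2) hw]
  | rel R ts =>
    have hts : ∀ i, ∃ z < N, ∀ v : ℕ → M,
        (ts i).realize (Sum.elim (fun x => v (q x)) (fun x => v (p x))) = v z := fun i => hterm (ts i) q p N hq hp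
    choose z hz1 hz2 using hts
    simp only [BoundedFormula.Realize, hz2]
    exact hI.rel h R.1 (fun t => z (t.cast R.2)) (fun t => hz1 _)
  | imp _ _ ih1 ih2 =>
    simp only [BoundedFormula.Realize]
    exact imp_congr (ih1 h p hq hp) (ih2 h p hq hp)
  | all _ ih =>
    simp only [BoundedFormula.Realize]
    have hbound : ∀ x, q x < N + 1 := fun x => (hq x).trans (Nat.lt_succ_self N)
    have hpb : ∀ x, (Fin.snoc p N : Fin (_ + 1) → ℕ) x < N + 1 := by
      intro x
      refine Fin.lastCases ?_ (fun i => ?_) x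
      · simp
      · simp only [Fin.snoc_castSucc]
        exact (hp i).trans (Nat.lt_succ_self N)
    have hpb' : ∀ z < N, ∀ x, (Fin.snoc p z : Fin (_ + 1) → ℕ) x < N := by
      intro z hz x
      refine Fin.lastCases ?_ (fun i => ?_) x
      · simpa using hz
      · simp only [Fin.snoc_castSucc]
        exact hp i
    have hsn : ∀ (v : ℕ → M) (z : ℕ), (Fin.snoc (fun i => v (p i)) (v z) : Fin (_ + 1) → M) =
        fun i => v ((Fin.snoc p z : Fin (_ + 1) → ℕ) i) := by
      intro v z
      funext i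
      refine Fin.lastCases ?_ (fun i => ?_) i
      · simp
      · simp
    constructor
    · intro hv b
      by_cases hb : ∀ i < N, w i ≠ b
      · obtain ⟨v', w', h1, h2, h3, h4⟩ := hI.back h b hb
        have h5 := (ih h4 (Fin.snoc p N) hbound hpb).1
        rw [← snoc_comp p N v' v hp h1, ← snoc_comp p N w' w hp h2, h3] at h5
        have e1 : (fun x => v' (q x)) = fun x => v (q x) := funext fun x => h1 _ (hq x)
        have e2 : (fun x => w' (q x)) = fun x => w (q x) := funext fun x => h2 _ (hq x)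
        rw [e1, e2] at h5
        exact h5 (hv _)
      · push Not at hb
        obtain ⟨i, hi, rfl⟩ := hb
        have h5 := (ih h (Fin.snoc p i) hq (hpb' i hi)).1
        rw [← hsn, ← hsn] at h5
        exact h5 (hv _)
    · intro hw a
      by_cases ha : ∀ i < N, v i ≠ a
      · obtain ⟨v', w', h1, h2, h3, h4⟩ := hI.forth h a ha
        have h5 := (ih h4 (Fin.snoc p N) hbound hpb).2
        rw [← snoc_comp p N v' v hp h1, ← snoc_comp p N w' w hp h2, h3] at h5
        have e1 : (fun x => v' (q x)) = fun x => v (q x) := funext fun x => h1 _ (hq x)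
        have e2 : (fun x => w' (q x)) = fun x => w (q x) := funext fun x => h2 _ (hq x)
        rw [e1, e2] at h5
        exact h5 (hw _)
      · push Not at ha
        obtain ⟨i, hi, rfl⟩ := ha
        have h5 := (ih h (Fin.snoc p i) hq (hpb' i hi)).2
        rw [← hsn, ← hsn] at h5
        exact h5 (hw _)

end EF39
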