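import Pool.Agent.EF39.Zero

/-!
# [EF39-BLK] Homogenising the prefix before the first parameter
-/

set_option autoImplicit false

namespace EF39

theorem takeWhile_append_of_all {i : ℕ} {u v : List ℕ} (h : ∀ x ∈ u, x < i) :
    (u ++ v).takeWhile (fun x => decide (x < i)) = u ++ v.takeWhile (fun x => decide (x < i)) := by
  induction u with
  | nil => rfl
  | cons a u ih =>
    have ha : a < i := h a (by simp)
    simp only [List.cons_append, List.takeWhile_cons, ha, decide_true, if_true]
    rw [ih fun x hx => h x (by simp [hx])]

/-- For `i ≥ 1`, `q` and `κ` there is `n` such that for every colouring `χ` there is a `q`-parameter word `f` of length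
`n` such that for every instance `g = u ++ i :: v` (`u` a word over `{0,...,i-1}`) the colour of the part of
`f(g)` before the first letter `≥ i` depends only on the length of `u`. -/
theorem blk (i : ℕ) (hi : 1 ≤ i) (q : ℕ) (κ : Type) [Finite κ] :
    ∃ n, ∀ χ : List ℕ → κ, ∃ f : List ℕ, f.length = n ∧ Ok i f (i + q) ∧ ∃ γ : ℕ → κ,
      ∀ u v : List ℕ, (∀ x ∈ u, x < i) → (u ++ i :: v).length = q →
        χ ((f.map (sub i (u ++ i :: v))).takeWhile (fun x => decide (x < i))) = γ u.length := by
  induction q generalizing κ with
  | zero =>
    refine ⟨0, fun χ => ⟨[], rfl, rfl, fun _ => χ [], ?_⟩⟩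
    intro u v _ h
    simp at h
  | succ q ih =>
    obtain ⟨n, hn⟩ := ih κ
    let Z := {z : List ℕ | z.length ≤ n ∧ ∀ x ∈ z, x < i}
    have : Finite Z := (finite_words i n).to_subtype
    obtain ⟨n', hn'⟩ := hj i hi (Z → κ)
    refine ⟨n' + n, fun χ => ?_⟩
    obtain ⟨l, hl1, hl2, hl3⟩ := hn' (fun u z => χ (u ++ z.1))
    have hle : ∀ x ∈ l, x ≤ i := fun x hx => Nat.lt_succ_iff.1 (Ok_lt hl2 x hx)
    obtain ⟨f, hf1, hf2, γ, hf3⟩ := hn (fun z => χ (l.map (sub i [0]) ++ z))
    refine ⟨l ++ f.map (shf i), by simp [hl1, hf1], ?_, ?_⟩
    · rw [Ok_append]
      refine ⟨i + 1, hl2, ?_⟩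
      rw [show i + (q + 1) = i + q + 1 by ring]
      exact Ok_shf le_rfl hf2
    · refine ⟨fun t => match t with
        | 0 => χ (l.takeWhile (fun x => decide (x < i)))
        | t + 1 => γ t, ?_⟩
      intro u v hu huv
      cases u with
      | nil =>
        -- the prefix is the constant part of `l` before the variable
        simp only [List.nil_append, List.length_nil]
        congr 1
        obtain ⟨u', v', hl', hu', -⟩ := Ok_split (k := 0) hl2
        rw [hl']
        simp only [List.map_append, List.map_cons, List.append_assoc, List.cons_append]
        have h1 : u'.map (sub i (i :: v)) = u' := by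
          conv_rhs => rw [← List.map_id u']
          apply List.map_congr_left
          intro x hx
          simp [sub, hu' x hx]
        have h2 : sub i (i :: v) i = i := by simp [sub]
        rw [h1, h2, takeWhile_append_of_all hu', takeWhile_append_of_all hu']
        simp
      | cons a u =>
        have ha : a < i := hu a (by simp)
        simp only [List.cons_append, List.length_cons]
        rw [List.map_append, map_shf_sub, map_sub_cons hle]
        have hla : ∀ x ∈ l.map (sub i [a]), x < i := by
          intro x hx
          rw [List.mem_map] at hx
          obtain ⟨y, hy, rfl⟩ := hx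
          have := hle y hy
          simp only [sub]
          split_ifs with h
          · exact h
          · have : y = i := by omega
            subst this
            simpa using ha
        rw [takeWhile_append_of_all hla]
        rw [← hf3 u v (fun x hx => hu x (by simp [hx])) (by simpa using huv)]
        have hz : ((f.map (sub i (u ++ i :: v))).takeWhile (fun x => decide (x < i))) ∈ Z := by
          refine ⟨?_, ?_⟩
          · refine (List.takeWhile_prefix _).length_le.trans ?_
            simp [hf1]
          · intro x hx
            simpa using List.mem_takeWhile_imp hx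
        exact congrFun (hl3 a ha 0 hi) ⟨_, hz⟩

end EF39
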