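import Pool.Agent.EF39.Core

/-!
# EF39: legality and decoding of a move
-/

set_option autoImplicit false

namespace EF39

variable {l : ℕ} {ar : Fin l → ℕ} {M : Type} {S : ∀ i, (Fin (ar i) → M) → Prop}

theorem card_supp_le {a : Atom} (ha : WF ar a) {c : ℕ} (hc : ∀ i, ar i < c) : (supp a).card < c := by
  obtain ⟨h1, h2⟩ := ha
  rw [arN_of_lt ar h1] at h2
  have h3 : (supp a).card ≤ a.2.length := List.toFinset_card_le _
  have := hc ⟨a.1, h1⟩
  omega

/-- legality is a local property -/
theorem leg_all (hN : Nice ar S) {c : ℕ} (hc : ∀ i, ar i < c) {X : Atom → Prop} {T : Finset ℕ}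
    (h : ∀ T' ⊆ T, T'.card < c → Leg ar S X T') : Leg ar S X T := by
  induction T using Finset.strongInduction with
  | H T ih =>
    rcases Nat.lt_or_ge T.card c with h1 | h1
    · exact h T (Finset.Subset.refl _) h1
    · obtain ⟨X', hX1, hX2⟩ := hN.dap T X (fun j hj => ih (T.erase j) (Finset.erase_ssubset hj)
        (fun T' hT' => h T' (hT'.trans (Finset.erase_subset _ _))))
      rw [Leg_congr (Y := X')]
      · exact hX1
      · intro a ha hs
        rcases hs.eq_or_ssubset with h2 | h2
        · exfalso
          have := card_supp_le ha hc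
          rw [h2] at this
          omega
        · exact (hX2 a ha h2).symm

theorem mixF_congr {X Y P : Atom → Prop} {T : Finset ℕ} (h : ∀ a, WF ar a → supp a ⊂ T → (X a ↔ Y a)) :
    ∀ a, WF ar a → supp a ⊆ T → (mixF X P T a ↔ mixF Y P T a) := by
  intro a ha hs
  unfold mixF
  rcases hs.eq_or_ssubset with h2 | h2
  · simp [h2]
  · simp [h2.ne, h a ha h2]

/-- the structure obtained from the structure of `v` on `[0,m)` by adding the point `m` with instructions `U` -/
theorem decode_aux (hN : Nice ar S) {m : ℕ} {v : ℕ → M} (hv : Set.InjOn v (Finset.range m)) (U : Atom → Prop)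
    (s : ℕ) : ∃ X : Atom → Prop, (∀ a, supp a ⊆ Finset.range m → (X a ↔ Hold ar S v a)) ∧
      ∀ T ⊆ Finset.range (m + 1), T.card ≤ s → (T.Nonempty → Leg ar S X T) ∧ (m ∈ T → Leg ar S (mixF X U T) T →
        ∀ a, WF ar a → supp a = T → (X a ↔ U a)) := by
  classical
  induction s with
  | zero =>
    refine ⟨Hold ar S v, fun a _ => Iff.rfl, ?_⟩
    intro T hT hc
    have hT0 : T = ∅ := by
      rw [← Finset.card_eq_zero]
      omega
    subst hT0
    exact ⟨fun h => absurd h (by simp), fun h => absurd h (by simp)⟩
  | succ s ih =>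
    obtain ⟨X, hX1, hX2⟩ := ih
    have hold : ∀ T ⊆ Finset.range (m + 1), m ∉ T → Leg ar S X T := by
      intro T hT hmT
      have hT' : T ⊆ Finset.range m := by
        intro z hz
        have h1 := Finset.mem_range.1 (hT hz)
        have h2 : z ≠ m := fun hc => hmT (hc ▸ hz)
        exact Finset.mem_range.2 (by omega)
      rw [Leg_congr (Y := Hold ar S v) (fun a _ hs => hX1 a (hs.trans hT'))]
      exact Leg_mono hT' (Leg_Hold hv)
    have hamal : ∀ T : Finset ℕ, ∃ X' : Atom → Prop, T ⊆ Finset.range (m + 1) → m ∈ T → T.card = s + 1 →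
        Leg ar S X' T ∧ ∀ a, WF ar a → supp a ⊂ T → (X' a ↔ X a) := by
      intro T
      by_cases hc : T ⊆ Finset.range (m + 1) ∧ m ∈ T ∧ T.card = s + 1
      · obtain ⟨hT, hmT, hTc⟩ := hc
        obtain ⟨X', h1, h2⟩ := hN.dap T X (by
          intro j hj
          by_cases hjm : m ∈ T.erase j
          · exact (hX2 (T.erase j) ((Finset.erase_subset _ _).trans hT) (by
              rw [Finset.card_erase_of_mem hj, hTc]
              omega)).1 ⟨m, hjm⟩
          · exact hold _ ((Finset.erase_subset _ _).trans hT) hjm)
        exact ⟨X', fun _ _ _ => ⟨h1, h2⟩⟩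
      · exact ⟨X, fun h1 h2 h3 => absurd ⟨h1, h2, h3⟩ hc⟩
    choose A hA using hamal
    let Y : Atom → Prop := fun a =>
      if supp a ⊆ Finset.range (m + 1) ∧ m ∈ supp a ∧ (supp a).card = s + 1 then
        (if Leg ar S (mixF X U (supp a)) (supp a) then U a else A (supp a) a) else X a
    have hYX : ∀ a, (supp a).card ≤ s → (Y a ↔ X a) := by
      intro a ha
      have : ¬ (supp a ⊆ Finset.range (m + 1) ∧ m ∈ supp a ∧ (supp a).card = s + 1) := fun h => by omega
      simp only [Y, if_neg this]
    have hYX' : ∀ a, m ∉ supp a → (Y a ↔ X a) := by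
      intro a ha
      have : ¬ (supp a ⊆ Finset.range (m + 1) ∧ m ∈ supp a ∧ (supp a).card = s + 1) := fun h => ha h.2.1
      simp only [Y, if_neg this]
    have hYX'' : ∀ T ⊆ Finset.range (m + 1), T.card = s + 1 → ∀ a, WF ar a → supp a ⊂ T → (Y a ↔ X a) := by
      intro T hT hTc a ha hs
      apply hYX
      have := Finset.card_lt_card hs
      omega
    refine ⟨Y, ?_, ?_⟩
    · intro a ha
      rw [← hX1 a ha]
      apply hYX'
      intro hm
      have := Finset.mem_range.1 (ha hm)
      omega
    · intro T hT hTc
      by_cases hmT : m ∈ T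
      · rcases Nat.lt_or_ge s T.card with h1 | h1
        · have hTc' : T.card = s + 1 := by omega
          have hmix : Leg ar S (mixF Y U T) T ↔ Leg ar S (mixF X U T) T :=
            Leg_congr (mixF_congr (hYX'' T hT hTc'))
          by_cases hL : Leg ar S (mixF X U T) T
          · have hYU : ∀ a, WF ar a → supp a = T → (Y a ↔ U a) := by
              intro a _ hs
              subst hs
              simp only [Y, if_pos (And.intro hT (And.intro hmT hTc')), if_pos hL]
            refine ⟨fun _ => ?_, fun _ _ => hYU⟩
            rw [Leg_congr (Y := mixF X U T)]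
            · exact hL
            · intro a ha hs
              unfold mixF
              rcases hs.eq_or_ssubset with h2 | h2
              · simp [h2, hYU a ha h2]
              · simp [h2.ne, hYX'' T hT hTc' a ha h2]
          · refine ⟨fun _ => ?_, fun _ h => absurd (hmix.1 h) hL⟩
            have hA' := hA T hT hmT hTc'
            rw [Leg_congr (Y := A T)]
            · exact hA'.1
            · intro a ha hs
              rcases hs.eq_or_ssubset with h2 | h2
              · subst h2
                simp only [Y, if_pos (And.intro hT (And.intro hmT hTc')), if_neg hL]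
              · rw [hYX'' T hT hTc' a ha h2, hA'.2 a ha h2]
        · have h2 := hX2 T hT h1
          have hsub : ∀ a, supp a ⊆ T → (Y a ↔ X a) := by
            intro a hs
            apply hYX
            have := Finset.card_le_card hs
            omega
          constructor
          · intro hne
            rw [Leg_congr (Y := X) (fun a _ hs => hsub a hs)]
            exact h2.1 hne
          · intro hm hL a ha hs
            rw [hsub a hs.subset]
            apply h2.2 hm _ a ha hs
            rw [← Leg_congr (mixF_congr (ar := ar) (X := Y) (fun a _ hs => hsub a hs.1))]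
            exact hL
      · refine ⟨fun _ => ?_, fun h => absurd h hmT⟩
        rw [Leg_congr (Y := X)]
        · exact hold T hT hmT
        · intro a _ hs
          exact hYX' a (fun h => hmT (hs h))

/-- decoding of a move: the new point follows the instructions `U` wherever this is possible -/
theorem decode (hN : Nice ar S) {m : ℕ} {v : ℕ → M} (hv : Set.InjOn v (Finset.range m)) (U : Atom → Prop) :
    ∃ v' : ℕ → M, (∀ i < m, v' i = v i) ∧ Set.InjOn v' (Finset.range (m + 1)) ∧
      ∀ T ⊆ Finset.range (m + 1), m ∈ T → Leg ar S (mixF (Hold ar S v') U T) T →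
        ∀ a, WF ar a → supp a = T → (Hold ar S v' a ↔ U a) := by
  obtain ⟨X, hX1, hX2⟩ := decode_aux hN hv U (m + 1)
  obtain ⟨v', h1, h2, h3⟩ := hN.ext m (m + 1) v X (by omega) hv
    ((hX2 _ (Finset.Subset.refl _) (by simp)).1 (by simp)) (fun a _ hs => (hX1 a hs).symm)
  refine ⟨v', h1, h2, ?_⟩
  intro T hT hm hL a ha hs
  rw [h3 a ha (hs ▸ hT)]
  have hTc : T.card ≤ m + 1 := by
    have := Finset.card_le_card hT
    simpa using this
  apply (hX2 T hT hTc).2 hm _ a ha hs
  have hmix : Leg ar S (mixF X U T) T ↔ Leg ar S (mixF (Hold ar S v') U T) T :=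
    Leg_congr (mixF_congr (fun b hb hbs => (h3 b hb (hbs.1.trans hT)).symm))
  exact hmix.2 hL

end EF39
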