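import Pool.Agent.EF39.QFDef
import Pool.Agent.EF39.Deco

/-!
# EF39: certificates
-/

set_option autoImplicit false

namespace EF39

section
variable {l : ℕ} (ar : Fin l → ℕ)

/-- responses depend only on the sub-play -/
def CompR (n r : ℕ) (R : List Atom → Atom → Prop) : Prop :=
  ∀ P ∈ subs (atomsS ar (n + r)), ∀ P' ∈ subs (atomsS ar (n + r)), ∀ e ∈ subs (List.range r),
    ∀ e' ∈ subs (List.range r), e.length = e'.length →
    (∀ a ∈ atomsS ar (n + e.length), (mapA (iot n e) a ∈ P ↔ mapA (iot n e') a ∈ P')) →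
    ∀ a ∈ atomsL ar (n + e.length), (R P (mapA (iot n e) a) ↔ R P' (mapA (iot n e') a))

/-- responses are legal -/
def LegR (n r : ℕ) (la : List QF) (R : List Atom → Atom → Prop) : Prop :=
  ∀ P ∈ subs (atomsS ar (n + r)), ∀ Tl ∈ subs (List.range (n + r)), Tl.length < la.length →
    EvQ ar Tl.length Tl [] (R P) (la.getD Tl.length [])

/-- legal instructions are followed -/
def FaiR (n r : ℕ) (la : List QF) (R : List Atom → Atom → Prop) (sg : Bool) : Prop :=
  ∀ P ∈ subs (atomsS ar (n + r)), ∀ Tl ∈ subs (List.range (n + r)), Tl.length < la.length →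
    ∀ x ∈ Tl, n ≤ x → (∀ y ∈ Tl, y ≤ x) → ((l, [x]) ∈ P ↔ sg = true) →
    EvQ ar Tl.length Tl [] (mixL (R P) (fun a => a ∈ P) Tl) (la.getD Tl.length []) →
    ∀ a ∈ atomsL ar (n + r), SuppEq a Tl → (R P a ↔ a ∈ P)

/-- the relations of the reduct agree -/
def GamR (n r : ℕ) (th : List (ℕ × QF)) (RA RB : List Atom → Atom → Prop) : Prop :=
  ∀ P ∈ subs (atomsS ar (n + r)), ∀ p ∈ th, ∀ h ∈ listsOf p.1 (n + r),
    (EvQ ar p.1 h [] (RA P) p.2 ↔ EvQ ar p.1 h [] (RB P) p.2)

/-- the starting position -/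
def BasR (n r : ℕ) (R : List Atom → Atom → Prop) (s : Atom → Prop) : Prop :=
  ∀ P ∈ subs (atomsS ar (n + r)), ∀ a ∈ atomsL ar n, (R P a ↔ s a)

open Classical in
/-- the sub-play along `e` -/
noncomputable def cd (n r : ℕ) (P : Atom → Prop) (e : List ℕ) : List Atom :=
  (atomsS ar (n + r)).filter (fun a => decide (P (mapA (iot n e) a)))

theorem cd_mem_subs {n r : ℕ} {P : Atom → Prop} {e : List ℕ} : cd ar n r P e ∈ subs (atomsS ar (n + r)) := by
  rw [mem_subs]
  exact List.filter_sublist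

theorem mem_cd {n r : ℕ} {P : Atom → Prop} {e : List ℕ} {a : Atom} :
    a ∈ cd ar n r P e ↔ a ∈ atomsS ar (n + r) ∧ P (mapA (iot n e) a) := by
  simp [cd]

theorem mem_atomsS {N : ℕ} {a : Atom} : a ∈ atomsS ar N ↔ (WF ar a ∧ ∀ x ∈ a.2, x < N) ∨
    ∃ x < N, a = (l, [x]) := by
  simp only [atomsS, List.mem_append, mem_atomsL, List.mem_map, List.mem_range]
  apply or_congr Iff.rfl
  constructor
  · rintro ⟨x, hx, rfl⟩
    exact ⟨x, hx, rfl⟩
  · rintro ⟨x, hx, rfl⟩
    exact ⟨x, hx, rfl⟩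

end

section
variable {l : ℕ} {ar : Fin l → ℕ} {M : Type} {S : ∀ i, (Fin (ar i) → M) → Prop}

theorem atomsS_lt {N : ℕ} {a : Atom} (h : a ∈ atomsS ar N) : ∀ x ∈ a.2, x < N := by
  rw [mem_atomsS] at h
  rcases h with ⟨-, h⟩ | ⟨x, hx, rfl⟩
  · exact h
  · simpa using hx

theorem mapA_mem_atomsL {N N' : ℕ} {f : ℕ → ℕ} {a : Atom} (ha : a ∈ atomsL ar N) (hf : ∀ x < N, f x < N') :
    mapA f a ∈ atomsL ar N' := by
  rw [mem_atomsL] at ha ⊢
  refine ⟨WF_mapA.2 ha.1, ?_⟩
  intro x hx
  simp only [mapA, List.mem_map] at hx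
  obtain ⟨y, hy, rfl⟩ := hx
  exact hf y (ha.2 y hy)

theorem mapA_mem_atomsS {N N' : ℕ} {f : ℕ → ℕ} {a : Atom} (ha : a ∈ atomsS ar N) (hf : ∀ x < N, f x < N') :
    mapA f a ∈ atomsS ar N' := by
  rw [mem_atomsS] at ha ⊢
  rcases ha with ha | ⟨x, hx, rfl⟩
  · left
    have := mapA_mem_atomsL ((mem_atomsL ar).2 ha) hf
    exact (mem_atomsL ar).1 this
  · right
    exact ⟨f x, hf x hx, rfl⟩

theorem mem_mapA {f : ℕ → ℕ} {a : Atom} {z : ℕ} : z ∈ (mapA f a).2 ↔ ∃ y ∈ a.2, f y = z := by
  simp [mapA]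

/-- transport of legality -/
theorem Leg_image {f : ℕ → ℕ} {T : Finset ℕ} (hf : Set.InjOn f T) {X : Atom → Prop} :
    Leg ar S X (T.image f) ↔ Leg ar S (fun a => X (mapA f a)) T := by
  constructor
  · rintro ⟨w, h1, h2⟩
    refine ⟨fun z => w (f z), ?_, ?_⟩
    · intro z hz z' hz' hzz
      apply hf hz hz'
      apply h1 _ _ hzz
      · simpa using ⟨z, by simpa using hz, rfl⟩
      · simpa using ⟨z', by simpa using hz', rfl⟩
    · intro a ha hs
      rw [← Hold_mapA (v := w) (f := f)]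
      apply h2 _ (WF_mapA.2 ha)
      rw [supp_mapA]
      exact Finset.image_subset_image hs
  · rintro ⟨w, h1, h2⟩
    have hinv : ∀ z ∈ T, Function.invFunOn f T (f z) = z := fun z hz => hf.leftInvOn_invFunOn (by simpa using hz)
    refine ⟨fun z => w (Function.invFunOn f T z), ?_, ?_⟩
    · intro z hz z' hz' hzz
      simp only [Finset.coe_image, Set.mem_image, Finset.mem_coe] at hz hz'
      obtain ⟨y, hy, rfl⟩ := hz
      obtain ⟨y', hy', rfl⟩ := hz'
      simp only [hinv y hy, hinv y' hy'] at hzz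
      rw [h1 hy hy' hzz]
    · intro a ha hs
      have hz : ∀ z ∈ a.2, ∃ y ∈ T, f y = z := by
        intro z hz
        have := hs (mem_supp.2 hz)
        simpa using this
      have h3 : mapA f (mapA (Function.invFunOn f T) a) = a := by
        rw [mapA_mapA]
        apply mapA_id'
        intro z hz1
        obtain ⟨y, hy, rfl⟩ := hz z hz1
        simp [hinv y hy]
      have h4 := h2 (mapA (Function.invFunOn f T) a) (WF_mapA.2 ha) (by
        intro x hx
        rw [mem_supp, mem_mapA] at hx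
        obtain ⟨z, hz1, rfl⟩ := hx
        obtain ⟨y, hy, rfl⟩ := hz z hz1
        rw [hinv y hy]
        exact hy)
      rw [Hold_mapA] at h4
      simp only [h3] at h4
      exact h4

/-- covering a small set by `r` moves -/
theorem exists_cover {n N r : ℕ} (hr : r ≤ N) (A : Finset ℕ) (hA : ∀ z ∈ A, z < n + N) (hc : A.card ≤ r) :
    ∃ e ∈ subs (List.range N), e.length = r ∧ ∀ z ∈ A, ∃ y < n + r, iot n e y = z := by
  classical
  let B := (A.filter (fun z => n ≤ z)).image (fun z => z - n)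
  have hB1 : B ⊆ Finset.range N := by
    intro y hy
    simp only [B, Finset.mem_image, Finset.mem_filter] at hy
    obtain ⟨z, ⟨hz, hnz⟩, rfl⟩ := hy
    have := hA z hz
    rw [Finset.mem_range]
    omega
  have hB2 : B.card ≤ r := (Finset.card_image_le.trans (Finset.card_filter_le _ _)).trans hc
  obtain ⟨C, hC1, hC2, hC3⟩ := Finset.exists_subsuperset_card_eq hB1 hB2 (by simpa using hr)
  have hlen : (C.sort (· ≤ ·)).length = r := by rw [Finset.length_sort, hC3]
  refine ⟨C.sort (· ≤ ·), ?_, hlen, ?_⟩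
  · rw [mem_subs_range]
    constructor
    · exact (Finset.sortedLT_sort C).pairwise
    · intro x hx
      rw [Finset.mem_sort] at hx
      exact Finset.mem_range.1 (hC2 hx)
  · intro z hz
    rcases Nat.lt_or_ge z n with c | c
    · exact ⟨z, by omega, iot_lt c⟩
    · have h1 : z - n ∈ C.sort (· ≤ ·) := by
        rw [Finset.mem_sort]
        apply hC1
        simp only [B, Finset.mem_image, Finset.mem_filter]
        exact ⟨z, ⟨hz, c⟩, rfl⟩
      obtain ⟨i, hi, hiz⟩ := List.getElem_of_mem h1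
      refine ⟨n + i, by omega, ?_⟩
      rw [iot_ge (by omega), show n + i - n = i by omega, List.getD_eq_getElem _ _ hi, hiz]
      omega

theorem pull_atom {n r : ℕ} {e : List ℕ} {A : Atom} (h : ∀ z ∈ A.2, ∃ y < n + r, iot n e y = z) :
    ∃ a, mapA (iot n e) a = A ∧ ∀ x ∈ a.2, x < n + r := by
  have h' : ∀ z, ∃ y, z ∈ A.2 → y < n + r ∧ iot n e y = z := by
    intro z
    by_cases hz : z ∈ A.2
    · obtain ⟨y, h1, h2⟩ := h z hz
      exact ⟨y, fun _ => ⟨h1, h2⟩⟩
    · exact ⟨0, fun h => absurd h hz⟩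
  choose g hg using h'
  refine ⟨mapA g A, ?_, ?_⟩
  · rw [mapA_mapA]
    exact mapA_id' fun z hz => (hg z hz).2
  · intro x hx
    rw [mem_mapA] at hx
    obtain ⟨z, hz, rfl⟩ := hx
    exact (hg z hz).1

theorem mapA_inj {f : ℕ → ℕ} {N : ℕ} (hf : ∀ x < N, ∀ y < N, f x = f y → x = y) {a a' : Atom}
    (ha : ∀ x ∈ a.2, x < N) (ha' : ∀ x ∈ a'.2, x < N) (h : mapA f a = mapA f a') : a = a' := by
  have h1 : a.1 = a'.1 := by
    have h1' : (mapA f a).1 = (mapA f a').1 := by rw [h]
    exact h1'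
  have h2 : a.2.map f = a'.2.map f := by
    have h2' : (mapA f a).2 = (mapA f a').2 := by rw [h]
    exact h2'
  refine Prod.ext h1 ?_
  have hlen : a.2.length = a'.2.length := by
    have := congrArg List.length h2
    simpa using this
  apply List.ext_getElem hlen
  intro i hi hi'
  apply hf _ (ha _ (List.getElem_mem hi)) _ (ha' _ (List.getElem_mem hi'))
  have h3 : (a.2.map f)[i]'(by simpa using hi) = (a'.2.map f)[i]'(by simpa using hi') := by
    congr 1
  simpa using h3

theorem eq_of_pairwise_lt {f f' : List ℕ} (h : f.Pairwise (· < ·)) (h' : f'.Pairwise (· < ·))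
    (hm : ∀ x, x ∈ f ↔ x ∈ f') : f = f' := by
  have h1 : f.Perm f' := (List.perm_ext_iff_of_nodup (h.imp (fun h => h.ne)) (h'.imp (fun h => h.ne))).2 hm
  exact h1.eq_of_pairwise (fun a b _ _ h1 h2 => absurd (h1.trans h2) (lt_irrefl _)) h h'

/-- the moves used by an atom -/
theorem exists_used {n r N : ℕ} {e : List ℕ} (he : e ∈ subs (List.range N)) (hl : e.length = r) {a : Atom}
    (ha : ∀ x ∈ a.2, x < n + r) : ∃ (g : List ℕ) (a0 : Atom), g ∈ subs (List.range r) ∧
      (∀ x ∈ a0.2, x < n + g.length) ∧ mapA (iot n g) a0 = a ∧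
      (g.map (fun y => e.getD y 0)).Pairwise (· < ·) ∧
      ∀ z, z ∈ g.map (fun y => e.getD y 0) ↔ n + z ∈ (mapA (iot n e) a).2 := by
  classical
  rw [mem_subs_range] at he
  let g := (List.range r).filter (fun y => decide (n + y ∈ a.2))
  have hg : g ∈ subs (List.range r) := by
    rw [mem_subs]
    exact List.filter_sublist
  have hg' := mem_subs_range.1 hg
  have hmem : ∀ y, y ∈ g ↔ n + y ∈ a.2 := by
    intro y
    simp only [g, List.mem_filter, List.mem_range, decide_eq_true_eq]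
    constructor
    · exact fun h => h.2
    · intro h
      have := ha _ h
      exact ⟨by omega, h⟩
  obtain ⟨a0, h1, h2⟩ := pull_atom (n := n) (r := g.length) (e := g) (A := a) (by
    intro z hz
    rcases Nat.lt_or_ge z n with c | c
    · exact ⟨z, by omega, iot_lt c⟩
    · have h1 : z - n ∈ g := by
        rw [hmem, show n + (z - n) = z by omega]
        exact hz
      obtain ⟨i, hi, hiz⟩ := List.getElem_of_mem h1
      refine ⟨n + i, by omega, ?_⟩
      rw [iot_ge (by omega), show n + i - n = i by omega, List.getD_eq_getElem _ _ hi, hiz]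
      omega)
  refine ⟨g, a0, hg, h2, h1, map_getD_pairwise he.1 hg'.1 (by rw [hl]; exact hg'.2), ?_⟩
  intro z
  simp only [List.mem_map]
  rw [mem_mapA]
  constructor
  · rintro ⟨y, hy, rfl⟩
    refine ⟨n + y, (hmem y).1 hy, ?_⟩
    rw [iot_ge (by omega), show n + y - n = y by omega]
  · rintro ⟨x, hx, hxz⟩
    have hnx : n ≤ x := le_iot.1 (by rw [hxz]; omega)
    refine ⟨x - n, ?_, ?_⟩
    · rw [hmem, show n + (x - n) = x by omega]
      exact hx
    · rw [iot_ge hnx] at hxz
      omega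

/-- the response on an atom only depends on the instructions below it -/
theorem wd {n r : ℕ} {R : List Atom → Atom → Prop} (hR : CompR ar n r R) {P P' : Atom → Prop} {N : ℕ}
    {e e' : List ℕ} (he : e ∈ subs (List.range N)) (he' : e' ∈ subs (List.range N)) (hl : e.length = r)
    (hl' : e'.length = r) {a a' : Atom} (ha : a ∈ atomsL ar (n + r)) (ha' : a' ∈ atomsL ar (n + r))
    (haa : mapA (iot n e) a = mapA (iot n e') a')
    (hP : ∀ b, (∀ z ∈ b.2, z < n ∨ z ∈ (mapA (iot n e) a).2) → (P b ↔ P' b)) :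
    R (cd ar n r P e) a ↔ R (cd ar n r P' e') a' := by
  have ha1 := (mem_atomsL ar).1 ha
  have ha1' := (mem_atomsL ar).1 ha'
  obtain ⟨g, a0, hg1, hg2, hg3, hg4, hg5⟩ := exists_used he hl ha1.2
  obtain ⟨g', a0', hg1', hg2', hg3', hg4', hg5'⟩ := exists_used he' hl' ha1'.2
  have hf : g.map (fun y => e.getD y 0) = g'.map (fun y => e'.getD y 0) := by
    apply eq_of_pairwise_lt hg4 hg4'
    intro z
    rw [hg5, hg5', haa]
  have hlen : g.length = g'.length := by
    have := congrArg List.length hf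
    simpa using this
  have hmap : ∀ b : Atom, (∀ x ∈ b.2, x < n + g.length) →
      mapA (iot n e) (mapA (iot n g) b) = mapA (iot n (g.map (fun y => e.getD y 0))) b := by
    intro b hb
    rw [mapA_mapA]
    exact mapA_congr fun x hx => iot_comp (hb x hx)
  have hmap' : ∀ b : Atom, (∀ x ∈ b.2, x < n + g.length) →
      mapA (iot n e') (mapA (iot n g') b) = mapA (iot n (g.map (fun y => e.getD y 0))) b := by
    intro b hb
    rw [mapA_mapA, hf]
    exact mapA_congr fun x hx => iot_comp (by rw [← hlen]; exact hb x hx)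
  have ha0 : a0 = a0' := by
    have hinj := fun x (hx : x < n + (g.map (fun y => e.getD y 0)).length) y
      (hy : y < n + (g.map (fun y => e.getD y 0)).length) h => iot_inj (n := n) hg4 hx hy h
    apply mapA_inj hinj
    · simpa using hg2
    · simpa [hlen] using hg2'
    · rw [← hmap a0 hg2, ← hmap' a0' (by rw [hlen]; exact hg2'), hg3, hg3']
      exact haa
  have hgr := mem_subs_range.1 hg1
  have hgr' := mem_subs_range.1 hg1'
  have hkey := hR (cd ar n r P e) (cd_mem_subs ar) (cd ar n r P' e') (cd_mem_subs ar) g hg1 g' hg1' hlen (by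
    intro b hb
    have hbl := atomsS_lt hb
    rw [mem_cd, mem_cd, hmap b hbl, hmap' b hbl]
    have m1 : mapA (iot n g) b ∈ atomsS ar (n + r) := mapA_mem_atomsS hb fun x hx => iot_bound hgr.2 hx
    have m2 : mapA (iot n g') b ∈ atomsS ar (n + r) := mapA_mem_atomsS hb fun x hx =>
      iot_bound hgr'.2 (by rw [← hlen]; exact hx)
    simp only [m1, m2, true_and]
    apply hP
    intro z hz
    rw [mem_mapA] at hz
    obtain ⟨y, hy, rfl⟩ := hz
    rcases Nat.lt_or_ge y n with c | c
    · left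
      rw [iot_lt c]
      exact c
    · right
      rw [iot_ge c, ← hg5]
      apply getD_mem
      have := hbl y hy
      simp only [List.length_map]
      omega) a0 (by
    rw [mem_atomsL]
    refine ⟨?_, hg2⟩
    rw [← WF_mapA (f := iot n g), hg3]
    exact ha1.1)
  rw [hg3, ha0, hg3'] at hkey
  exact hkey

end

end EF39
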