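import Pool.Agent.EF39.Types
import Pool.Agent.EF39.Deco

/-!
# EF39: playing against instructions
-/

set_option autoImplicit false

namespace EF39

variable {l : ℕ} {ar : Fin l → ℕ} {M : Type} {S : ∀ i, (Fin (ar i) → M) → Prop}
variable {k : ℕ} {br : Fin k → ℕ} {T : ∀ j, (Fin (br j) → M) → Prop}

/-- `v` follows the instructions `U` on `T'` wherever this is possible -/
def Fol {l : ℕ} (ar : Fin l → ℕ) {M : Type} (S : ∀ i, (Fin (ar i) → M) → Prop) (U : Atom → Prop) (v : ℕ → M)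
    (T' : Finset ℕ) : Prop :=
  Leg ar S (mixF (Hold ar S v) U T') T' → ∀ a, WF ar a → supp a = T' → (Hold ar S v a ↔ U a)

theorem Fol_congr {U : Atom → Prop} {v v' : ℕ → M} {T' : Finset ℕ} (h : ∀ z ∈ T', v z = v' z)
    (hf : Fol ar S U v T') : Fol ar S U v' T' := by
  have h1 : ∀ a, supp a ⊆ T' → (Hold ar S v a ↔ Hold ar S v' a) := fun a hs =>
    Hold_congr fun z hz => h z (hs (mem_supp.2 hz))
  intro hL a ha hs
  rw [← h1 a hs.subset]
  apply hf _ a ha hs
  have h2 : Leg ar S (mixF (Hold ar S v) U T') T' ↔ Leg ar S (mixF (Hold ar S v') U T') T' :=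
    Leg_congr (mixF_congr fun a _ hs => h1 a hs.1)
  exact h2.2 hL

theorem playE (hN : Nice ar S) (hT : ∀ j, FODef ar S (T j)) {n : ℕ} {a0 b0 : ℕ → M}
    (ha : Set.InjOn a0 (Finset.range n)) (h : ET br T n a0 b0) (U : Atom → Prop) (N : ℕ) :
    ∃ v w : ℕ → M, (∀ i < n, v i = a0 i) ∧ (∀ i < n, w i = b0 i) ∧ Set.InjOn v (Finset.range (n + N)) ∧
      ET br T (n + N) v w ∧ ∀ T' ⊆ Finset.range (n + N), ∀ x ∈ T', n ≤ x → (∀ y ∈ T', y ≤ x) →
        (U (l, [x]) → Fol ar S U v T') ∧ (¬ U (l, [x]) → Fol ar S U w T') := by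
  induction N with
  | zero =>
    refine ⟨a0, b0, fun _ _ => rfl, fun _ _ => rfl, ha, h, ?_⟩
    intro T' hT' x hx hnx _
    have := Finset.mem_range.1 (hT' hx)
    omega
  | succ N ih =>
    obtain ⟨v, w, h1, h2, h3, h4, h5⟩ := ih
    have hsub : ∀ T' ⊆ Finset.range (n + (N + 1)), ∀ x ∈ T', (∀ y ∈ T', y ≤ x) → x < n + N →
        T' ⊆ Finset.range (n + N) := by
      intro T' hT' x hx hmax hxN y hy
      have := hmax y hy
      rw [Finset.mem_range]
      omega
    by_cases hU : U (l, [n + N])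
    · obtain ⟨v', hv1, hv2, hv3⟩ := decode hN h3 U
      obtain ⟨w', hw1, hw2⟩ := ET_forth hN hT h4 v' hv1
      refine ⟨v', w', fun i hi => (hv1 i (by omega)).trans (h1 i hi), fun i hi => (hw1 i (by omega)).trans (h2 i hi),
        hv2, hw2, ?_⟩
      intro T' hT' x hx hnx hmax
      rcases Nat.lt_or_ge x (n + N) with c | c
      · have h6 := hsub T' hT' x hx hmax c
        obtain ⟨h7, h8⟩ := h5 T' h6 x hx hnx hmax
        exact ⟨fun hc => Fol_congr (fun z hz => (hv1 z (Finset.mem_range.1 (h6 hz))).symm) (h7 hc),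
          fun hc => Fol_congr (fun z hz => (hw1 z (Finset.mem_range.1 (h6 hz))).symm) (h8 hc)⟩
      · have h6 := Finset.mem_range.1 (hT' hx)
        have h7 : x = n + N := by omega
        subst h7
        exact ⟨fun _ => hv3 T' hT' hx, fun hc => absurd hU hc⟩
    · obtain ⟨w', hv1, hv2, hv3⟩ := decode hN (ET_injOn h4 h3) U
      obtain ⟨v', hw1, hw2⟩ := ET_forth hN hT h4.symm w' hv1
      refine ⟨v', w', fun i hi => (hw1 i (by omega)).trans (h1 i hi), fun i hi => (hv1 i (by omega)).trans (h2 i hi),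
        ET_injOn hw2 hv2, hw2.symm, ?_⟩
      intro T' hT' x hx hnx hmax
      rcases Nat.lt_or_ge x (n + N) with c | c
      · have h6 := hsub T' hT' x hx hmax c
        obtain ⟨h7, h8⟩ := h5 T' h6 x hx hnx hmax
        exact ⟨fun hc => Fol_congr (fun z hz => (hw1 z (Finset.mem_range.1 (h6 hz))).symm) (h7 hc),
          fun hc => Fol_congr (fun z hz => (hv1 z (Finset.mem_range.1 (h6 hz))).symm) (h8 hc)⟩
      · have h6 := Finset.mem_range.1 (hT' hx)
        have h7 : x = n + N := by omega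
        subst h7
        exact ⟨fun hc => absurd hc hU, fun _ => hv3 T' hT' hx⟩

end EF39
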