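import Pool.Agent.EF39.CodV

/-!
# [EF39-LABR] The Ramsey theorem for finite linear orders with labelled subsets
-/

set_option autoImplicit false

namespace EF39

/-- Ramsey theorem for labelled ordered sets (all subsets labelled by elements of `Fin q`) -/
theorem label_ramsey (K w q : ℕ) (pW : Finset (Fin w) → Fin q) (κ : Type) [Finite κ] :
    ∃ (N : ℕ) (pU : Finset (Fin N) → Fin q), ∀ c : (Fin K ↪o Fin N) → κ, ∃ e : Fin w ↪o Fin N,
      (∀ S, pU (S.map e.toEmbedding) = pW S) ∧
      ∀ f f' : Fin K ↪o Fin w,
        (∀ S : Finset (Fin K), pW (S.map f.toEmbedding) = pW (S.map f'.toEmbedding)) →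
        c (f.trans e) = c (f'.trans e) := by
  classical
  -- `K`-types
  obtain ⟨n, hn⟩ := gr_typed (CX w q) (CX K q) ((Finset (Fin K) → Fin q) → Option κ)
  let V : Type := (Lex (Fin n → WithBot (Fin q)))ᵒᵈ
  have : Finite V := inferInstanceAs (Finite (Fin n → WithBot (Fin q)))
  have := Fintype.ofFinite V
  obtain ⟨N, hN⟩ : ∃ N, Fintype.card V = N := ⟨_, rfl⟩
  let eV : Fin N ≃o V := monoEquivOfFin V hN
  -- points of words
  let pt : (Fin n → WithBot (Fin q)) → Fin N := fun v => eV.symm (OrderDual.toDual (toLex v))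
  have hpt : Function.Injective pt := by
    intro a b hab
    exact eV.symm.injective hab
  let un : Fin N → (Fin n → WithBot (Fin q)) := fun z => ofLex (OrderDual.ofDual (eV z))
  have hun : ∀ v, un (pt v) = v := by
    intro v
    simp [un, pt]
  have hpt_lt : ∀ a b : Fin n → WithBot (Fin q), toLex b < toLex a → pt a < pt b := by
    intro a b hab
    exact eV.symm.strictMono hab
  let pU : Finset (Fin N) → Fin q := fun S =>
    if S = ∅ then pW ∅ else if h : ∃ y, IsLab (S.image un) y then h.choose else pW ∅
  have hpU : ∀ (S : Finset (Fin N)) (y : Fin q), S.Nonempty → IsLab (S.image un) y → pU S = y := by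
    intro S y hS hy
    have hex : ∃ y, IsLab (S.image un) y := ⟨y, hy⟩
    simp only [pU, if_neg hS.ne_empty, dif_pos hex]
    exact IsLab_unique (hS.image un) hex.choose_spec hy
  refine ⟨N, pU, fun c => ?_⟩
  -- embeddings given by rigid maps
  have hemb : ∀ {x : ℕ} (p : Finset (Fin x) → Fin q) (f : Fin n → Option (CX x q)), Rigid f →
      ∃ e : Fin x ↪o Fin N, ∀ i, e i = pt (wrd p f i) := by
    intro x p f hf
    exact ⟨OrderEmbedding.ofStrictMono (fun i => pt (wrd p f i)) (fun i j hij => hpt_lt _ _ (wrd_lt hf hij)),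
      fun i => rfl⟩
  let χ : (Fin n → Option (CX K q)) → ((Finset (Fin K) → Fin q) → Option κ) := fun f τ =>
    if h : Rigid f then some (c (hemb τ f h).choose) else none
  obtain ⟨F, hF, hχ⟩ := hn χ
  obtain ⟨e, he⟩ := hemb pW F hF
  refine ⟨e, ?_, ?_⟩
  · intro S
    rcases S.eq_empty_or_nonempty with rfl | hS
    · simp [pU]
    · apply hpU _ _ (by simpa using hS)
      have : (S.map e.toEmbedding).image un = S.image (wrd pW F) := by
        ext v
        simp only [Finset.mem_image, Finset.mem_map, RelEmbedding.coe_toEmbedding, exists_exists_and_eq_and]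
        constructor
        · rintro ⟨i, hi, rfl⟩
          exact ⟨i, hi, by rw [he, hun]⟩
        · rintro ⟨i, hi, rfl⟩
          exact ⟨i, hi, by rw [he, hun]⟩
      rw [this]
      exact wrd_isLab hF hS
  · have key : ∀ f : Fin K ↪o Fin w,
        ∃ hr : Rigid (fun x => (F x).bind (hmap pW f)),
          (hemb (fun S : Finset (Fin K) => pW (S.map f.toEmbedding)) _ hr).choose = f.trans e := by
      intro f
      have hr : Rigid (fun x => (F x).bind (hmap pW f)) := by
        obtain ⟨m, hm, hm'⟩ := hF
        obtain ⟨m2, hm2, hm2'⟩ := hmap_rigid pW f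
        refine ⟨fun d => m (m2 d), hm.comp hm2, fun d => ⟨?_, ?_⟩⟩
        · show (F (m (m2 d))).bind (hmap pW f) = some d
          rw [(hm' _).1]
          exact (hm2' d).1
        · intro x hx
          have hx' : (F x).bind (hmap pW f) = some d := hx
          rw [Option.bind_eq_some_iff] at hx'
          obtain ⟨s, hs1, hs2⟩ := hx'
          exact (hm.monotone ((hm2' d).2 s hs2)).trans ((hm' s).2 x hs1)
      refine ⟨hr, ?_⟩
      have hspec := (hemb (fun S : Finset (Fin K) => pW (S.map f.toEmbedding)) _ hr).choose_spec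
      apply DFunLike.ext
      intro t
      rw [hspec t, wrd_hmap]
      show pt (wrd pW F (f t)) = e (f t)
      rw [he]
    intro f f' hff'
    obtain ⟨hr, h1⟩ := key f
    obtain ⟨hr', h1'⟩ := key f'
    have h2 := hχ (hmap pW f) (hmap pW f') (hmap_rigid pW f) (hmap_rigid pW f')
    have h3 : (fun S : Finset (Fin K) => pW (S.map f.toEmbedding)) = fun S => pW (S.map f'.toEmbedding) :=
      funext hff'
    have h4 := congrFun h2 (fun S => pW (S.map f.toEmbedding))
    have e1 : χ (fun x => (F x).bind (hmap pW f)) (fun S => pW (S.map f.toEmbedding)) = some (c (f.trans e)) := by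
      simp only [χ, dif_pos hr]
      rw [h1]
    have e2 : χ (fun x => (F x).bind (hmap pW f')) (fun S => pW (S.map f.toEmbedding)) = some (c (f'.trans e)) := by
      simp only [h3]
      simp only [χ, dif_pos hr']
      rw [h1']
    rw [e1, e2] at h4
    exact Option.some.inj h4

end EF39
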