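import Pool.Agent.EF39.Inc
import Pool.Agent.EF39.LabR

/-!
# [EF39-PLAYR] The Ramsey theorem for finite ordered relational structures with constants
-/

set_option autoImplicit false

namespace EF39

/-- the number of non-constant arguments below `x` -/
def rk (n : ℕ) (T : Finset ℕ) (x : ℕ) : ℕ := (T.filter (fun z => n ≤ z ∧ z < x)).card

/-- pattern of an atom -/
def pat (n : ℕ) (a : Atom) : Atom := mapA (fun x => if x < n then x else n + rk n (supp a) x) a

theorem rk_lt_of_lt {n : ℕ} {T : Finset ℕ} {x y : ℕ} (hx : x ∈ T) (hn : n ≤ x) (hxy : x < y) :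
    rk n T x < rk n T y := by
  apply Finset.card_lt_card
  rw [Finset.ssubset_iff_of_subset]
  · refine ⟨x, ?_, ?_⟩
    · simp [hx, hn, hxy]
    · simp
  · intro z hz
    simp only [Finset.mem_filter] at hz ⊢
    exact ⟨hz.1, hz.2.1, hz.2.2.trans hxy⟩

theorem rk_inj {n : ℕ} {T : Finset ℕ} {x y : ℕ} (hx : x ∈ T) (hy : y ∈ T) (hn : n ≤ x) (hn' : n ≤ y)
    (h : rk n T x = rk n T y) : x = y := by
  rcases lt_trichotomy x y with h1 | h1 | h1
  · exact absurd h (rk_lt_of_lt hx hn h1).ne
  · exact h1
  · exact absurd h (rk_lt_of_lt hy hn' h1).ne'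

theorem rk_congr {n : ℕ} {T T' : Finset ℕ} (h : ∀ z, n ≤ z → (z ∈ T ↔ z ∈ T')) (x : ℕ) : rk n T x = rk n T' x := by
  unfold rk
  congr 1
  ext z
  simp only [Finset.mem_filter]
  constructor
  · rintro ⟨h1, h2, h3⟩
    exact ⟨(h z h2).1 h1, h2, h3⟩
  · rintro ⟨h1, h2, h3⟩
    exact ⟨(h z h2).2 h1, h2, h3⟩

/-- an atom is determined by its pattern and its non-constant arguments -/
theorem pat_inj {n : ℕ} {a b : Atom} (h : pat n a = pat n b) (hs : ∀ z, n ≤ z → (z ∈ a.2 ↔ z ∈ b.2)) : a = b := by
  have hs' : ∀ z, n ≤ z → (z ∈ supp a ↔ z ∈ supp b) := fun z hz => by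
    rw [mem_supp, mem_supp]
    exact hs z hz
  have h1 : a.1 = b.1 := by
    have h1' : (pat n a).1 = (pat n b).1 := by rw [h]
    exact h1'
  have h2 : a.2.map (fun x => if x < n then x else n + rk n (supp a) x) =
      b.2.map (fun x => if x < n then x else n + rk n (supp b) x) := by
    have h2' : (pat n a).2 = (pat n b).2 := by rw [h]
    exact h2'
  have hlen : a.2.length = b.2.length := by
    have := congrArg List.length h2
    simpa using this
  apply Prod.ext h1
  apply List.ext_getElem hlen
  intro i hi hi'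
  have h3 : (a.2.map (fun x => if x < n then x else n + rk n (supp a) x))[i]'(by simpa using hi) =
      (b.2.map (fun x => if x < n then x else n + rk n (supp b) x))[i]'(by simpa using hi') := by
    congr 1
  simp only [List.getElem_map] at h3
  have hai : a.2[i] ∈ supp a := by
    rw [mem_supp]
    exact List.getElem_mem hi
  have hbi : b.2[i] ∈ supp b := by
    rw [mem_supp]
    exact List.getElem_mem hi'
  split_ifs at h3 with c1 c2 c2
  · exact h3
  · omega
  · omega
  · have h4 : rk n (supp a) a.2[i] = rk n (supp a) b.2[i] := by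
      rw [rk_congr hs' (b.2[i])]
      omega
    exact rk_inj hai ((hs' _ (not_lt.1 c2)).2 hbi) (not_lt.1 c1) (not_lt.1 c2) h4

/-- patterns are invariant under increasing maps -/
theorem pat_mapA {n : ℕ} {e : List ℕ} (he : e.Pairwise (· < ·)) {a : Atom} (ha : ∀ x ∈ a.2, x < n + e.length) :
    pat n (mapA (iot n e) a) = pat n a := by
  unfold pat
  rw [mapA_mapA]
  apply mapA_congr
  intro x hx
  simp only [Function.comp_apply]
  rcases Nat.lt_or_ge x n with h1 | h1
  · simp [iot_lt h1, h1]
  · have h2 : ¬ iot n e x < n := not_lt.2 (le_iot.2 h1)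
    simp only [h2, if_false, not_lt.2 h1]
    congr 1
    unfold rk
    rw [supp_mapA]
    have h3 : ((supp a).image (iot n e)).filter (fun z => n ≤ z ∧ z < iot n e x) =
        ((supp a).filter (fun z => n ≤ z ∧ z < x)).image (iot n e) := by
      ext z
      simp only [Finset.mem_filter, Finset.mem_image]
      constructor
      · rintro ⟨⟨y, hy, rfl⟩, h4, h5⟩
        refine ⟨y, ⟨hy, le_iot.1 h4, ?_⟩, rfl⟩
        exact (iot_lt_iff he (ha y (mem_supp.1 hy)) (ha x hx)).1 h5
      · rintro ⟨y, ⟨hy, h4, h5⟩, rfl⟩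
        exact ⟨⟨y, hy, rfl⟩, le_iot.2 h4, iot_strict he h5 (ha x hx)⟩
    rw [h3, Finset.card_image_of_injOn]
    intro y hy z hz hyz
    have hy' := (Finset.mem_filter.1 hy).1
    have hz' := (Finset.mem_filter.1 hz).1
    exact iot_inj he (ha y (mem_supp.1 hy')) (ha z (mem_supp.1 hz')) hyz

/-- patterns of atoms with at most `A` arguments -/
theorem pat_bound {n A : ℕ} {a : Atom} (ha : a.2.length ≤ A) : ∀ x ∈ (pat n a).2, x < n + A := by
  intro x hx
  unfold pat mapA at hx
  rw [List.mem_map] at hx
  obtain ⟨y, hy, rfl⟩ := hx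
  split_ifs with h
  · omega
  · have h1 : rk n (supp a) y < (supp a).card := by
      apply Finset.card_lt_card
      rw [Finset.ssubset_iff_of_subset (Finset.filter_subset _ _)]
      exact ⟨y, mem_supp.2 hy, by simp⟩
    have h2 : (supp a).card ≤ a.2.length := List.toFinset_card_le _
    omega

theorem play_ramsey (n r L A w : ℕ) (W : Atom → Prop) (κ : Type) [Finite κ] :
    ∃ (N : ℕ) (U : Atom → Prop), ∀ c : List ℕ → κ, ∃ e : List ℕ, e.length = w ∧ e ∈ subs (List.range N) ∧
      (∀ a : Atom, a.1 < L → a.2.length ≤ A → (∀ x ∈ a.2, x < n + w) → (U (mapA (iot n e) a) ↔ W a)) ∧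
      ∀ f ∈ subs (List.range w), ∀ f' ∈ subs (List.range w), f.length = r → f'.length = r →
        (∀ a : Atom, a.1 < L → a.2.length ≤ A → (∀ x ∈ a.2, x < n + r) →
          (W (mapA (iot n f) a) ↔ W (mapA (iot n f') a))) →
        c (f.map (fun y => e.getD y 0)) = c (f'.map (fun y => e.getD y 0)) := by
  classical
  -- the finite set of patterns
  let P : Set Atom := {a | a.1 < L ∧ a.2.length ≤ A ∧ ∀ x ∈ a.2, x < n + A}
  have hPfin : P.Finite := by
    apply Set.Finite.subset (Set.Finite.prod (Set.finite_lt_nat L) (finite_words (n + A) A))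
    rintro ⟨i, g⟩ ⟨h1, h2, h3⟩
    exact ⟨h1, h2, h3⟩
  have : Finite P := hPfin.to_subtype
  obtain ⟨q, ⟨eΛ⟩⟩ := Finite.exists_equiv_fin (Set P)
  -- labels
  let lab : Finset (Fin w) → Set P := fun S => {p | ∃ a : Atom, a.1 < L ∧ a.2.length ≤ A ∧ (∀ x ∈ a.2, x < n + w) ∧
    (∀ x : Fin w, (n + (x : ℕ) ∈ a.2 ↔ x ∈ S)) ∧ pat n a = p.1 ∧ W a}
  obtain ⟨N, pU, hU⟩ := label_ramsey r w q (fun S => eΛ (lab S)) κ
  let sN : Atom → Finset (Fin N) := fun a => Finset.univ.filter (fun x : Fin N => n + (x : ℕ) ∈ a.2)
  let U : Atom → Prop := fun a => ∃ h : pat n a ∈ P, (⟨pat n a, h⟩ : P) ∈ eΛ.symm (pU (sN a))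
  refine ⟨N, U, fun c => ?_⟩
  obtain ⟨e, he1, he2⟩ := hU (fun g => c (List.ofFn (fun t => (g t : ℕ))))
  let el : List ℕ := List.ofFn (fun t => (e t : ℕ))
  have hel : el.length = w := by simp [el]
  have helget : ∀ t : Fin w, el.getD (t : ℕ) 0 = (e t : ℕ) := by
    intro t
    have : (t : ℕ) < el.length := by rw [hel]; exact t.2
    rw [List.getD_eq_getElem _ _ this]
    simp [el]
  have hofFn : ∀ {m k : ℕ} (g : Fin m ↪o Fin k), (List.ofFn (fun t => (g t : ℕ))).Pairwise (· < ·) ∧
      ∀ x ∈ List.ofFn (fun t => (g t : ℕ)), x < k := by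
    intro m k g
    constructor
    · rw [List.pairwise_ofFn]
      intro i j hij
      exact Fin.lt_def.1 (g.strictMono hij)
    · intro x hx
      rw [List.mem_ofFn] at hx
      obtain ⟨t, rfl⟩ := hx
      exact (g t).2
  have helP := (hofFn e).1
  have helN := (hofFn e).2
  refine ⟨el, hel, mem_subs_range.2 ⟨helP, helN⟩, ?_, ?_⟩
  · -- the copy of `W`
    intro a ha1 ha2 ha3
    let S : Finset (Fin w) := Finset.univ.filter (fun x : Fin w => n + (x : ℕ) ∈ a.2)
    have ha3' : ∀ x ∈ a.2, x < n + el.length := by rw [hel]; exact ha3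
    have hsN : sN (mapA (iot n el) a) = S.map e.toEmbedding := by
      ext x
      simp only [sN, S, Finset.mem_filter, Finset.mem_univ, true_and, Finset.mem_map,
        RelEmbedding.coe_toEmbedding, mapA, List.mem_map]
      constructor
      · rintro ⟨y, hy, hyx⟩
        have hny : n ≤ y := le_iot.1 (by rw [hyx]; omega)
        have hyw := ha3 y hy
        refine ⟨⟨y - n, by omega⟩, ?_, ?_⟩
        · have : n + (y - n) = y := by omega
          simpa [this] using hy
        · apply Fin.ext
          rw [iot_ge hny] at hyx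
          have := helget ⟨y - n, by omega⟩
          simp only at this
          omega
      · rintro ⟨t, ht, rfl⟩
        refine ⟨n + t, ht, ?_⟩
        rw [iot_ge (by omega), show n + (t : ℕ) - n = t by omega, helget]
    have hpat : pat n (mapA (iot n el) a) = pat n a := pat_mapA helP ha3'
    have hPa : pat n a ∈ P := ⟨ha1, by simpa [pat, mapA] using ha2, pat_bound ha2⟩
    show (∃ h : pat n (mapA (iot n el) a) ∈ P, (⟨pat n (mapA (iot n el) a), h⟩ : P) ∈
      eΛ.symm (pU (sN (mapA (iot n el) a)))) ↔ W a
    rw [hsN, he1]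
    simp only [hpat, Equiv.symm_apply_apply]
    constructor
    · rintro ⟨_, b, hb1, hb2, hb3, hb4, hb5, hb6⟩
      have : b = a := by
        apply pat_inj (n := n) hb5
        intro z hz
        rcases Nat.lt_or_ge z (n + w) with h1 | h1
        · have h2 := hb4 ⟨z - n, by omega⟩
          simp only [S, Finset.mem_filter, Finset.mem_univ, true_and] at h2
          have : n + (z - n) = z := by omega
          simpa [this] using h2
        · constructor
          · intro h2
            have := hb3 z h2
            omega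
          · intro h2
            have := ha3 z h2
            omega
      rw [← this]
      exact hb6
    · intro hW
      exact ⟨hPa, a, ha1, ha2, ha3, fun x => by simp [S], rfl, hW⟩
  · -- canonical colours
    intro f hf f' hf' hfr hfr' hW
    -- embeddings from lists
    have hemb : ∀ g : List ℕ, g ∈ subs (List.range w) → g.length = r →
        ∃ G : Fin r ↪o Fin w, ∀ t : Fin r, (G t : ℕ) = g.getD (t : ℕ) 0 := by
      intro g hg hgr
      rw [mem_subs_range] at hg
      refine ⟨OrderEmbedding.ofStrictMono (fun t => ⟨g.getD (t : ℕ) 0, hg.2 _ (getD_mem (by rw [hgr]; exact t.2))⟩) ?_,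
        fun t => rfl⟩
      intro s t hst
      exact getD_lt_getD hg.1 hst (by rw [hgr]; exact t.2)
    obtain ⟨G, hG⟩ := hemb f hf hfr
    obtain ⟨G', hG'⟩ := hemb f' hf' hfr'
    have hlist : ∀ (g : List ℕ) (G : Fin r ↪o Fin w), g.length = r → (∀ t : Fin r, (G t : ℕ) = g.getD (t : ℕ) 0) →
        g.map (fun y => el.getD y 0) = List.ofFn (fun t => ((G.trans e) t : ℕ)) := by
      intro g G hgr hG
      apply List.ext_getElem
      · simp [hgr]
      · intro i h1 h2
        have hi : i < g.length := by simpa using h1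
        rw [List.getElem_map, List.getElem_ofFn]
        have h3 := hG ⟨i, by omega⟩
        simp only at h3
        rw [List.getD_eq_getElem _ _ hi] at h3
        rw [← h3, helget]
        rfl
    rw [hlist f G hfr hG, hlist f' G' hfr' hG']
    apply he2
    -- the labels agree
    have hone : ∀ (f f' : List ℕ) (G G' : Fin r ↪o Fin w), f ∈ subs (List.range w) → f' ∈ subs (List.range w) →
        f.length = r → f'.length = r →
        (∀ t : Fin r, (G t : ℕ) = f.getD (t : ℕ) 0) → (∀ t : Fin r, (G' t : ℕ) = f'.getD (t : ℕ) 0) →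
        (∀ a : Atom, a.1 < L → a.2.length ≤ A → (∀ x ∈ a.2, x < n + r) →
          (W (mapA (iot n f) a) ↔ W (mapA (iot n f') a))) →
        ∀ S : Finset (Fin r), lab (S.map G.toEmbedding) ⊆ lab (S.map G'.toEmbedding) := by
      intro f f' G G' hf hf' hfr hfr' hG hG' hW S
      rw [mem_subs_range] at hf hf'
      rintro p ⟨a, ha1, ha2, ha3, ha4, ha5, ha6⟩
      -- pull back `a`
      let inv : ℕ → ℕ := fun x => if x < n then x else n + f.idxOf (x - n)
      have hinv : ∀ x ∈ a.2, inv x < n + r ∧ iot n f (inv x) = x ∧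
          (n ≤ x → ∃ t : Fin r, inv x = n + t ∧ t ∈ S) := by
        intro x hx
        rcases Nat.lt_or_ge x n with h1 | h1
        · have : inv x = x := by simp [inv, h1]
          rw [this]
          exact ⟨by omega, iot_lt h1, fun h => by omega⟩
        · have hxw := ha3 x hx
          have h2 := ha4 ⟨x - n, by omega⟩
          have h3 : n + (x - n) = x := by omega
          simp only [h3, hx, true_iff, Finset.mem_map, RelEmbedding.coe_toEmbedding] at h2
          obtain ⟨t, ht, htx⟩ := h2
          have h4 : f.getD (t : ℕ) 0 = x - n := by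
            rw [← hG t, htx]
          have h5 : (t : ℕ) < f.length := by rw [hfr]; exact t.2
          have h6 : f.idxOf (x - n) = t := by
            rw [← h4, List.getD_eq_getElem _ _ h5]
            exact List.Nodup.idxOf_getElem (hf.1.imp (fun h => h.ne)) _ h5
          have h7 : inv x = n + t := by simp [inv, not_lt.2 h1, h6]
          refine ⟨by rw [h7]; have := t.2; omega, ?_, fun _ => ⟨t, h7, ht⟩⟩
          rw [h7, iot_ge (by omega), show n + (t : ℕ) - n = t by omega, h4, h3]
      let b : Atom := mapA inv a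
      have hb1 : b.1 < L := ha1
      have hb2 : b.2.length ≤ A := by simpa [b, mapA] using ha2
      have hb3 : ∀ x ∈ b.2, x < n + r := by
        intro x hx
        simp only [b, mapA, List.mem_map] at hx
        obtain ⟨y, hy, rfl⟩ := hx
        exact (hinv y hy).1
      have hab : mapA (iot n f) b = a := by
        simp only [b]
        rw [mapA_mapA]
        exact mapA_id' fun x hx => (hinv x hx).2.1
      have hbf : ∀ x ∈ b.2, x < n + f.length := by rw [hfr]; exact hb3
      have hbf' : ∀ x ∈ b.2, x < n + f'.length := by rw [hfr']; exact hb3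
      refine ⟨mapA (iot n f') b, hb1, by simpa [mapA] using hb2, ?_, ?_, ?_, ?_⟩
      · intro x hx
        simp only [mapA, List.mem_map] at hx
        obtain ⟨y, hy, rfl⟩ := hx
        exact iot_bound hf'.2 (hbf' y hy)
      · intro x
        simp only [mapA, List.mem_map, Finset.mem_map, RelEmbedding.coe_toEmbedding]
        constructor
        · rintro ⟨y, hy, hyx⟩
          simp only [b, mapA, List.mem_map] at hy
          obtain ⟨z, hz, rfl⟩ := hy
          have hny : n ≤ inv z := le_iot.1 (by rw [hyx]; omega)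
          have hnz : n ≤ z := by
            by_contra hcon
            have : inv z = z := by simp [inv, not_le.1 hcon]
            omega
          obtain ⟨t, ht1, ht2⟩ := (hinv z hz).2.2 hnz
          refine ⟨t, ht2, ?_⟩
          apply Fin.ext
          rw [ht1, iot_ge (by omega), show n + (t : ℕ) - n = t by omega, ← hG' t] at hyx
          omega
        · rintro ⟨t, ht, htx⟩
          have h2 := ha4 (G t)
          have h3 : n + ((G t : Fin w) : ℕ) ∈ a.2 := by
            rw [h2]
            exact Finset.mem_map_of_mem _ ht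
          refine ⟨inv (n + (G t : ℕ)), ?_, ?_⟩
          · simp only [b, mapA, List.mem_map]
            exact ⟨_, h3, rfl⟩
          · obtain ⟨t', ht1, -⟩ := (hinv _ h3).2.2 (by omega)
            have h4 := (hinv _ h3).2.1
            rw [ht1, iot_ge (by omega), show n + (t' : ℕ) - n = t' by omega, ← hG t'] at h4
            have h5 : t' = t := G.injective (Fin.ext (by omega))
            rw [ht1, iot_ge (by omega), show n + (t' : ℕ) - n = t' by omega, ← hG' t', h5, htx]
      · rw [pat_mapA hf'.1 hbf', ← ha5, ← hab, pat_mapA hf.1 hbf]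
      · rw [← hW b hb1 hb2 hb3, hab]
        exact ha6
    intro S
    congr 1
    apply Set.Subset.antisymm
    · exact hone f f' G G' hf hf' hfr hfr' hG hG' hW S
    · exact hone f' f G' G hf' hf hfr' hfr hG' hG (fun a h1 h2 h3 => (hW a h1 h2 h3).symm) S

end EF39
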