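import Pool.Agent.EF39.CertTo
import Pool.Agent.EF39.PlayE
import Pool.Agent.EF39.PlayR

/-!
# EF39: tuples with the same type have a certificate
-/

set_option autoImplicit false

namespace EF39

/-! ## the concatenation of plays -/

/-- the `i`-th block of `r` moves -/
def bk (r i : ℕ) : List ℕ := (List.range r).map (fun y => i * r + y)

/-- all plays one after another -/
def Wall (n r : ℕ) (PL : List (List Atom)) (b : Atom) : Prop :=
  ∃ i < PL.length, ∃ a ∈ PL.getD i [], (∀ x ∈ a.2, x < n + r) ∧ (∃ x ∈ a.2, n ≤ x) ∧ mapA (iot n (bk r i)) a = b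

theorem bk_length (r i : ℕ) : (bk r i).length = r := by simp [bk]

theorem bk_pairwise (r i : ℕ) : (bk r i).Pairwise (· < ·) := by
  unfold bk
  rw [List.pairwise_map]
  exact List.pairwise_lt_range.imp (fun h => by omega)

theorem bk_getD {r i y : ℕ} (hy : y < r) : (bk r i).getD y 0 = i * r + y := by
  have h : y < (bk r i).length := by rw [bk_length]; exact hy
  rw [List.getD_eq_getElem _ _ h]
  simp [bk]

theorem iot_bk {n r i x : ℕ} (hn : n ≤ x) (hx : x < n + r) : iot n (bk r i) x = n + (i * r + (x - n)) := by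
  rw [iot_ge hn, bk_getD (by omega)]

theorem bk_lt {r i K : ℕ} (hi : i < K) : ∀ x ∈ bk r i, x < K * r := by
  intro x hx
  simp only [bk, List.mem_map, List.mem_range] at hx
  obtain ⟨y, hy, rfl⟩ := hx
  have : (i + 1) * r ≤ K * r := Nat.mul_le_mul_right r hi
  have h2 : (i + 1) * r = i * r + r := by ring
  omega

theorem bk_disj {r i i' y y' : ℕ} (hy : y < r) (hy' : y' < r) (h : i * r + y = i' * r + y') : i = i' := by
  rcases lt_trichotomy i i' with h1 | h1 | h1
  · have : (i + 1) * r ≤ i' * r := Nat.mul_le_mul_right r h1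
    have h2 : (i + 1) * r = i * r + r := by ring
    omega
  · exact h1
  · have : (i' + 1) * r ≤ i * r := Nat.mul_le_mul_right r h1
    have h2 : (i' + 1) * r = i' * r + r := by ring
    omega

theorem Wall_bk {n r : ℕ} {PL : List (List Atom)} {i : ℕ} (hi : i < PL.length) {a : Atom}
    (ha : ∀ x ∈ a.2, x < n + r) :
    Wall n r PL (mapA (iot n (bk r i)) a) ↔ a ∈ PL.getD i [] ∧ ∃ x ∈ a.2, n ≤ x := by
  constructor
  · rintro ⟨i', hi', a', ha'1, ha'2, ⟨x', hx'1, hx'2⟩, h⟩
    have hmem : iot n (bk r i') x' ∈ (mapA (iot n (bk r i)) a).2 := by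
      rw [← h, mem_mapA]
      exact ⟨x', hx'1, rfl⟩
    rw [mem_mapA] at hmem
    obtain ⟨x, hx, hxx⟩ := hmem
    have hnx : n ≤ x := by
      rw [← le_iot (n := n) (e := bk r i), hxx, le_iot]
      exact hx'2
    have h1 : i = i' := by
      rw [iot_bk hnx (ha x hx), iot_bk hx'2 (ha'2 x' hx'1)] at hxx
      have h2 := ha x hx
      have h3 := ha'2 x' hx'1
      exact bk_disj (r := r) (y := x - n) (y' := x' - n) (by omega) (by omega) (by omega)
    subst h1
    have h4 : a' = a := by
      apply mapA_inj (N := n + r) (f := iot n (bk r i)) _ ha'2 ha h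
      intro y hy z hz hyz
      exact iot_inj (bk_pairwise r i) (by rw [bk_length]; exact hy) (by rw [bk_length]; exact hz) hyz
    subst h4
    exact ⟨ha'1, x, hx, hnx⟩
  · rintro ⟨h1, h2⟩
    exact ⟨i, hi, a, h1, ha, h2, rfl⟩

theorem Wall_lt {n r : ℕ} {PL : List (List Atom)} {b : Atom} (h : Wall n r PL b) :
    ∀ x ∈ b.2, x < n + PL.length * r := by
  obtain ⟨i, hi, a, h1, h2, h3, rfl⟩ := h
  intro x hx
  rw [mem_mapA] at hx
  obtain ⟨y, hy, rfl⟩ := hx
  exact iot_bound (bk_lt hi) (by rw [bk_length]; exact h2 y hy)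

/-- padding by dummy moves -/
def pad (r K : ℕ) (f : List ℕ) : List ℕ := f ++ (List.range (r - f.length)).map (fun y => K * r + y)

theorem pad_length {r K : ℕ} {f : List ℕ} (h : f.length ≤ r) : (pad r K f).length = r := by
  simp [pad]
  omega

theorem pad_mem {r K : ℕ} {f : List ℕ} (hf : f.Pairwise (· < ·)) (hf' : ∀ x ∈ f, x < K * r) :
    pad r K f ∈ subs (List.range (K * r + r)) := by
  rw [mem_subs_range]
  constructor
  · unfold pad
    rw [List.pairwise_append]
    refine ⟨hf, ?_, ?_⟩
    · rw [List.pairwise_map]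
      exact List.pairwise_lt_range.imp (fun h => by omega)
    · intro x hx y hy
      simp only [List.mem_map, List.mem_range] at hy
      obtain ⟨z, _, rfl⟩ := hy
      have := hf' x hx
      omega
  · intro x hx
    simp only [pad, List.mem_append, List.mem_map, List.mem_range] at hx
    rcases hx with hx | ⟨z, hz, rfl⟩
    · have := hf' x hx
      omega
    · omega

theorem pad_getD_lt {r K : ℕ} {f : List ℕ} {y : ℕ} (hy : y < f.length) : (pad r K f).getD y 0 = f.getD y 0 := by
  have h1 : y < (pad r K f).length := by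
    simp only [pad, List.length_append]
    omega
  rw [List.getD_eq_getElem _ _ hy, List.getD_eq_getElem _ _ h1]
  simp only [pad]
  rw [List.getElem_append_left hy]

theorem pad_getD_ge {r K : ℕ} {f : List ℕ} {y : ℕ} (hf : f.length ≤ r) (hy : f.length ≤ y) (hy' : y < r) :
    K * r ≤ (pad r K f).getD y 0 := by
  have h1 : y < (pad r K f).length := by
    rw [pad_length hf]
    exact hy'
  rw [List.getD_eq_getElem _ _ h1]
  simp only [pad]
  rw [List.getElem_append_right hy]
  simp

theorem iot_pad {n r K : ℕ} {f : List ℕ} {x : ℕ} (hx : x < n + f.length) :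
    iot n (pad r K f) x = iot n f x := by
  rcases Nat.lt_or_ge x n with c | c
  · rw [iot_lt c, iot_lt c]
  · rw [iot_ge c, iot_ge c, pad_getD_lt (by omega)]

/-- atoms which hold in a padded sub-play -/
theorem Wall_pad {n r : ℕ} {PL : List (List Atom)} {i : ℕ} (hi : i < PL.length) {g : List ℕ}
    (hg : g ∈ subs (List.range r)) {a : Atom} (ha : ∀ x ∈ a.2, x < n + r) :
    Wall n r PL (mapA (iot n (pad r PL.length (g.map (fun y => (bk r i).getD y 0)))) a) ↔
      (∀ x ∈ a.2, x < n + g.length) ∧ mapA (iot n g) a ∈ PL.getD i [] ∧ ∃ x ∈ a.2, n ≤ x := by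
  have hg' := mem_subs_range.1 hg
  have hglen : g.length ≤ r := by
    have := (mem_subs.1 hg).length_le
    simpa using this
  have hmap : (∀ x ∈ a.2, x < n + g.length) →
      mapA (iot n (pad r PL.length (g.map (fun y => (bk r i).getD y 0)))) a =
        mapA (iot n (bk r i)) (mapA (iot n g) a) := by
    intro hx
    rw [mapA_mapA]
    apply mapA_congr
    intro x hxa
    rw [iot_pad (by simpa using hx x hxa), Function.comp_apply, iot_comp (hx x hxa)]
  have hiff : (∀ x ∈ a.2, x < n + g.length) →
      (Wall n r PL (mapA (iot n (pad r PL.length (g.map (fun y => (bk r i).getD y 0)))) a) ↔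
      mapA (iot n g) a ∈ PL.getD i [] ∧ ∃ x ∈ a.2, n ≤ x) := by
    intro hx
    rw [hmap hx, Wall_bk hi]
    · apply and_congr Iff.rfl
      constructor
      · rintro ⟨z, hz, hnz⟩
        rw [mem_mapA] at hz
        obtain ⟨y, hy, rfl⟩ := hz
        exact ⟨y, hy, le_iot.1 hnz⟩
      · rintro ⟨y, hy, hny⟩
        exact ⟨iot n g y, mem_mapA.2 ⟨y, hy, rfl⟩, le_iot.2 hny⟩
    · intro z hz
      rw [mem_mapA] at hz
      obtain ⟨y, hy, rfl⟩ := hz
      exact iot_bound hg'.2 (hx y hy)
  constructor
  · intro h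
    have hx : ∀ x ∈ a.2, x < n + g.length := by
      intro x hx
      by_contra hc
      have h1 := Wall_lt h (iot n (pad r PL.length (g.map (fun y => (bk r i).getD y 0))) x)
        (mem_mapA.2 ⟨x, hx, rfl⟩)
      have h2 := ha x hx
      rw [iot_ge (by omega)] at h1
      have h3 := pad_getD_ge (r := r) (K := PL.length) (f := g.map (fun y => (bk r i).getD y 0)) (y := x - n)
        (by simpa using hglen) (by simp; omega) (by omega)
      omega
    exact ⟨hx, (hiff hx).1 h⟩
  · rintro ⟨hx, h⟩
    exact (hiff hx).2 h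

section
variable {l : ℕ} {ar : Fin l → ℕ} {M : Type} {S : ∀ i, (Fin (ar i) → M) → Prop}
variable {k : ℕ} {br : Fin k → ℕ} {T : ∀ j, (Fin (br j) → M) → Prop}

theorem mem_atomsS_of_mapA {f : ℕ → ℕ} {N N' : ℕ} {a : Atom} (h : mapA f a ∈ atomsS ar N')
    (ha : ∀ x ∈ a.2, x < N) : a ∈ atomsS ar N := by
  rw [mem_atomsS] at h ⊢
  rcases h with ⟨h1, -⟩ | ⟨x, hx, h⟩
  · exact Or.inl ⟨WF_mapA.1 h1, ha⟩
  · right
    have h1 : a.1 = l := by
      have h1' : (mapA f a).1 = l := by rw [h]
      exact h1'
    have h2 : a.2.map f = [x] := by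
      have h2' : (mapA f a).2 = [x] := by rw [h]
      exact h2'
    rw [List.map_eq_singleton_iff] at h2
    obtain ⟨y, hy, -⟩ := h2
    refine ⟨y, ha y (by simp [hy]), Prod.ext h1 hy⟩

/-- tuples with the same type have a certificate -/
theorem cert_of (hN : Nice ar S) (hT : ∀ j, FODef ar S (T j)) (D : Pack ar S br T) {n : ℕ} {a0 b0 : ℕ → M}
    (ha0 : Set.InjOn a0 (Finset.range n)) (h : ET br T n a0 b0) :
    ∃ RA RB : List Atom → Atom → Prop,
      Cert ar n D.r D.la D.thl RA RB (Hold ar S a0) (Hold ar S b0) := by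
  classical
  let r := D.r
  let PL : List (List Atom) := subs (atomsS ar (n + r))
  let K := PL.length
  let W := Wall n r PL
  have : Finite {a // a ∈ atomsL ar (n + r)} := (List.finite_toSet (atomsL ar (n + r))).to_subtype
  obtain ⟨N, U, hU⟩ := play_ramsey n r (l + 1) (D.la.length + 1) (K * r + r) W
    (({a // a ∈ atomsL ar (n + r)} → Prop) × ({a // a ∈ atomsL ar (n + r)} → Prop))
  obtain ⟨v, w, hv0, hw0, hvi, hvw, hfol⟩ := playE hN hT ha0 h U N
  have hwi := ET_injOn hvw hvi
  obtain ⟨e, hel, he, heW, hec⟩ := hU (fun f => (fun a => Hold ar S v (mapA (iot n f) a.1),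
    fun a => Hold ar S w (mapA (iot n f) a.1)))
  have he' := mem_subs_range.1 he
  -- the block of a play
  let E : List Atom → List ℕ := fun P => (bk r (PL.idxOf P)).map (fun y => e.getD y 0)
  have hidx : ∀ P ∈ PL, PL.idxOf P < K := fun P hP => List.idxOf_lt_length_iff.2 hP
  have hidx' : ∀ P ∈ PL, PL.getD (PL.idxOf P) [] = P := by
    intro P hP
    rw [List.getD_eq_getElem _ _ (hidx P hP)]
    exact List.getElem_idxOf (hidx P hP)
  have hE : ∀ P ∈ PL, E P ∈ subs (List.range N) ∧ (E P).length = r := by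
    intro P hP
    refine ⟨?_, by simp [E, bk_length]⟩
    rw [mem_subs_range]
    have h1 : ∀ x ∈ bk r (PL.idxOf P), x < e.length := by
      intro x hx
      have := bk_lt (hidx P hP) x hx
      rw [hel]
      omega
    refine ⟨map_getD_pairwise he'.1 (bk_pairwise _ _) h1, ?_⟩
    intro x hx
    simp only [E, List.mem_map] at hx
    obtain ⟨y, hy, rfl⟩ := hx
    exact he'.2 _ (getD_mem (h1 y hy))
  have hiotE : ∀ P x, x < n + r → iot n (E P) x = iot n e (iot n (bk r (PL.idxOf P)) x) := by
    intro P x hx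
    rw [iot_comp (by rw [bk_length]; exact hx)]
  have hEinj : ∀ P ∈ PL, Set.InjOn (iot n (E P)) (Finset.range (n + r)) := by
    intro P hP x hx y hy hxy
    have h1 := mem_subs_range.1 (hE P hP).1
    exact iot_inj h1.1 (by rw [(hE P hP).2]; simpa using hx) (by rw [(hE P hP).2]; simpa using hy) hxy
  -- the instructions along the block
  have hUE : ∀ P ∈ PL, ∀ a ∈ atomsS ar (n + r), (∃ x ∈ a.2, n ≤ x) → (U (mapA (iot n (E P)) a) ↔ a ∈ P) := by
    intro P hP a ha hx
    have ha' := atomsS_lt ha
    have h1 : mapA (iot n (E P)) a = mapA (iot n e) (mapA (iot n (bk r (PL.idxOf P))) a) := by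
      rw [mapA_mapA]
      exact mapA_congr fun x hx => hiotE P x (ha' x hx)
    have h2 : ∀ z ∈ (mapA (iot n (bk r (PL.idxOf P))) a).2, z < n + (K * r + r) := by
      intro z hz
      rw [mem_mapA] at hz
      obtain ⟨y, hy, rfl⟩ := hz
      have := iot_bound (n := n) (bk_lt (hidx P hP)) (x := y) (by rw [bk_length]; exact ha' y hy)
      omega
    have h3 : (mapA (iot n (bk r (PL.idxOf P))) a).1 < l + 1 := by
      show a.1 < l + 1
      rw [mem_atomsS] at ha
      rcases ha with ⟨h3, -⟩ | ⟨x, -, rfl⟩
      · have := h3.1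
        omega
      · exact Nat.lt_succ_self l
    have h4 : (mapA (iot n (bk r (PL.idxOf P))) a).2.length ≤ D.la.length + 1 := by
      have h5 : (mapA (iot n (bk r (PL.idxOf P))) a).2.length = a.2.length := by simp [mapA]
      rw [h5]
      rw [mem_atomsS] at ha
      rcases ha with ⟨⟨h3, h6⟩, -⟩ | ⟨x, -, rfl⟩
      · rw [h6, arN_of_lt ar h3]
        have := D.har ⟨a.1, h3⟩
        omega
      · simp
    rw [h1, heW _ h3 h4 h2]
    show Wall n r PL _ ↔ _
    rw [Wall_bk (hidx P hP) ha', hidx' P hP]
    simp only [hx, and_true]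
  let R : (ℕ → M) → List Atom → Atom → Prop := fun u P a => Hold ar S u (mapA (iot n (E P)) a)
  have hRu : ∀ u P, (R u P) = fun a => Hold ar S (fun x => u (iot n (E P) x)) a := by
    intro u P
    funext a
    exact propext (Hold_mapA (v := u) (f := iot n (E P)))
  -- canonical colours
  have hcomp : ∀ u : ℕ → M, (∀ f ∈ subs (List.range (K * r + r)), ∀ f' ∈ subs (List.range (K * r + r)),
      f.length = r → f'.length = r → (∀ a : Atom, a.1 < l + 1 → a.2.length ≤ D.la.length + 1 →
        (∀ x ∈ a.2, x < n + r) → (W (mapA (iot n f) a) ↔ W (mapA (iot n f') a))) →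
      ∀ a ∈ atomsL ar (n + r), (Hold ar S u (mapA (iot n (f.map (fun y => e.getD y 0))) a) ↔
        Hold ar S u (mapA (iot n (f'.map (fun y => e.getD y 0))) a))) → CompR ar n r (R u) := by
    intro u hu P hP P' hP' g hg g' hg' hgg hag a ha
    have hg1 := mem_subs_range.1 hg
    have hg1' := mem_subs_range.1 hg'
    have hglen : g.length ≤ r := by
      have := (mem_subs.1 hg).length_le
      simpa using this
    have hF : ∀ P ∈ PL, ∀ g ∈ subs (List.range r),
        pad r K (g.map (fun y => (bk r (PL.idxOf P)).getD y 0)) ∈ subs (List.range (K * r + r)) := by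
      intro P hP g hg
      have hg1 := mem_subs_range.1 hg
      apply pad_mem
      · exact map_getD_pairwise (bk_pairwise _ _) hg1.1 (by rw [bk_length]; exact hg1.2)
      · intro x hx
        simp only [List.mem_map] at hx
        obtain ⟨y, hy, rfl⟩ := hx
        exact bk_lt (hidx P hP) _ (getD_mem (by rw [bk_length]; exact hg1.2 y hy))
    have h1 := hu _ (hF P hP g hg) _ (hF P' hP' g' hg') (pad_length (by simpa using hglen))
      (pad_length (by simpa [← hgg] using hglen)) (by
        intro b _ _ hb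
        show Wall n r PL _ ↔ Wall n r PL _
        rw [Wall_pad (hidx P hP) hg hb, Wall_pad (hidx P' hP') hg' hb, hidx' P hP, hidx' P' hP', ← hgg]
        apply and_congr_right
        intro hbg
        apply and_congr_left
        intro _
        by_cases hbS : b ∈ atomsS ar (n + g.length)
        · exact hag b hbS
        · constructor
          · intro hc
            exact absurd (mem_atomsS_of_mapA ((mem_subs.1 hP).subset hc) hbg) hbS
          · intro hc
            exact absurd (mem_atomsS_of_mapA ((mem_subs.1 hP').subset hc) hbg) hbS)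
    have ha1 := (mem_atomsL ar).1 ha
    have h2 := h1 a (by
      rw [mem_atomsL]
      exact ⟨ha1.1, fun x hx => (ha1.2 x hx).trans_le (by omega)⟩)
    -- back to `g`
    have h3 : ∀ P ∈ PL, ∀ g ∈ subs (List.range r), (∀ x ∈ a.2, x < n + g.length) →
        mapA (iot n ((pad r K (g.map (fun y => (bk r (PL.idxOf P)).getD y 0))).map (fun y => e.getD y 0))) a =
          mapA (iot n (E P)) (mapA (iot n g) a) := by
      intro P hP g hg hag
      have hg1 := mem_subs_range.1 hg
      have hglen : g.length ≤ r := by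
        have := (mem_subs.1 hg).length_le
        simpa using this
      rw [mapA_mapA]
      apply mapA_congr
      intro x hx
      have hxg := hag x hx
      have hlenp : (pad r K (g.map (fun y => (bk r (PL.idxOf P)).getD y 0))).length = r :=
        pad_length (by simpa using hglen)
      rw [← iot_comp (by rw [hlenp]; omega), iot_pad (by simpa using hxg), Function.comp_apply,
        hiotE P _ (iot_bound hg1.2 hxg), iot_comp hxg]
    rw [h3 P hP g hg ha1.2, h3 P' hP' g' hg' (by rw [← hgg]; exact ha1.2)] at h2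
    exact h2
  have hcv : CompR ar n r (R v) := by
    apply hcomp v
    intro f hf f' hf' hfr hfr' hW a ha
    have h1 := hec f hf f' hf' hfr hfr' hW
    exact iff_of_eq (congrFun (congrArg Prod.fst h1) ⟨a, ha⟩)
  have hcw : CompR ar n r (R w) := by
    apply hcomp w
    intro f hf f' hf' hfr hfr' hW a ha
    have h1 := hec f hf f' hf' hfr hfr' hW
    exact iff_of_eq (congrFun (congrArg Prod.snd h1) ⟨a, ha⟩)
  have hinj : ∀ u : ℕ → M, Set.InjOn u (Finset.range (n + N)) → ∀ P ∈ PL,
      Set.InjOn (fun x => u (iot n (E P) x)) (Finset.range (n + r)) := by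
    intro u hu P hP
    exact injOn_iot hu (hE P hP).1 (hE P hP).2
  have hleg : ∀ u : ℕ → M, Set.InjOn u (Finset.range (n + N)) → LegR ar n r D.la (R u) := by
    intro u hu P hP Tl hTl hlen
    have h1 := mem_subs_range.1 hTl
    rw [D.la_spec _ Tl (h1.1.imp (fun h => h.ne)) hlen, hRu]
    apply Leg_Hold
    apply (hinj u hu P hP).mono
    intro z hz
    have hz' : z ∈ Tl := by simpa using hz
    simpa using h1.2 z hz'
  have hbas : ∀ u u0 : ℕ → M, (∀ i < n, u i = u0 i) → BasR ar n r (R u) (Hold ar S u0) := by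
    intro u u0 hu P hP a ha
    have ha1 := (mem_atomsL ar).1 ha
    show Hold ar S u (mapA (iot n (E P)) a) ↔ _
    rw [mapA_id' (fun x hx => iot_lt (ha1.2 x hx))]
    exact Hold_congr fun x hx => hu x (ha1.2 x hx)
  -- instructions are followed
  have hfai : ∀ (u : ℕ → M) (sg : Bool), (∀ T' ⊆ Finset.range (n + N), ∀ x ∈ T', n ≤ x → (∀ y ∈ T', y ≤ x) →
      (U (l, [x]) ↔ sg = true) → Fol ar S U u T') → FaiR ar n r D.la (R u) sg := by
    intro u sg hu P hP Tl hTl hlen x hx hnx hmax hsg hEv a ha hsup
    have h1 := mem_subs_range.1 hTl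
    have h2 := mem_subs_range.1 (hE P hP).1
    have hxr : x < n + r := h1.2 x hx
    have hTr : Tl.toFinset ⊆ Finset.range (n + r) := by
      intro z hz
      rw [List.mem_toFinset] at hz
      exact Finset.mem_range.2 (h1.2 z hz)
    have hTinj : Set.InjOn (iot n (E P)) Tl.toFinset := (hEinj P hP).mono (by exact_mod_cast hTr)
    have hsupp : ∀ b : Atom, supp b ⊆ Tl.toFinset →
        (supp (mapA (iot n (E P)) b) = Tl.toFinset.image (iot n (E P)) ↔ supp b = Tl.toFinset) := by
      intro b hb
      rw [supp_mapA]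
      constructor
      · intro h3
        apply Finset.Subset.antisymm hb
        intro z hz
        have h4 : iot n (E P) z ∈ (supp b).image (iot n (E P)) := by
          rw [h3]
          exact Finset.mem_image_of_mem _ hz
        rw [Finset.mem_image] at h4
        obtain ⟨y, hy, hyz⟩ := h4
        rw [← hTinj (by exact_mod_cast hb hy) (by exact_mod_cast hz) hyz]
        exact hy
      · intro h3
        rw [h3]
    have hbS : ∀ b : Atom, WF ar b → supp b ⊆ Tl.toFinset → b ∈ atomsS ar (n + r) := by
      intro b hb hbs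
      rw [mem_atomsS]
      left
      refine ⟨hb, fun z hz => ?_⟩
      exact Finset.mem_range.1 (hTr (hbs (mem_supp.2 hz)))
    have hfu := hu (Tl.toFinset.image (iot n (E P))) (by
      intro z hz
      rw [Finset.mem_image] at hz
      obtain ⟨y, hy, rfl⟩ := hz
      rw [Finset.mem_range]
      apply iot_bound h2.2
      rw [(hE P hP).2]
      exact Finset.mem_range.1 (hTr hy)) (iot n (E P) x) (Finset.mem_image_of_mem _ (by simpa using hx))
      (le_iot.2 hnx) (by
      intro z hz
      rw [Finset.mem_image] at hz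
      obtain ⟨y, hy, rfl⟩ := hz
      rw [List.mem_toFinset] at hy
      rcases (hmax y hy).lt_or_eq with h3 | h3
      · exact (iot_strict h2.1 h3 (by rw [(hE P hP).2]; exact hxr)).le
      · rw [h3]) (by
      rw [← hsg, ← hUE P hP (l, [x]) (by
        rw [mem_atomsS]
        exact Or.inr ⟨x, hxr, rfl⟩) ⟨x, by simp, hnx⟩]
      rfl) (by
      rw [Leg_image hTinj]
      rw [D.la_spec _ Tl (h1.1.imp (fun h => h.ne)) hlen] at hEv
      refine (Leg_congr ?_).1 hEv
      intro b hb hbs
      rw [mixL_iff]
      unfold mixF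
      simp only [hsupp b hbs, ne_eq]
      by_cases h3 : supp b = Tl.toFinset
      · simp only [h3, true_and, not_true_eq_false, false_and, or_false]
        refine (hUE P hP b (hbS b hb hbs) ⟨x, ?_, hnx⟩).symm
        rw [← mem_supp, h3]
        simpa using hx
      · simp only [h3, false_and, not_false_eq_true, true_and, false_or]
        exact Iff.rfl)
    rw [suppEq_iff] at hsup
    have ha1 := (mem_atomsL ar).1 ha
    have h3 := hfu (mapA (iot n (E P)) a) (WF_mapA.2 ha1.1) ((hsupp a hsup.subset).2 hsup)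
    show Hold ar S u (mapA (iot n (E P)) a) ↔ a ∈ P
    rw [h3]
    apply hUE P hP a (hbS a ha1.1 hsup.subset)
    refine ⟨x, ?_, hnx⟩
    rw [← mem_supp, hsup]
    simpa using hx
  refine ⟨R v, R w, hcv, hcw, hleg v hvi, hleg w hwi, ?_, ?_, ?_, hbas v a0 hv0, hbas w b0 hw0⟩
  · apply hfai
    intro T' hT' x hx hnx hmax hsg
    exact (hfol T' hT' x hx hnx hmax).1 (hsg.2 rfl)
  · apply hfai
    intro T' hT' x hx hnx hmax hsg
    exact (hfol T' hT' x hx hnx hmax).2 (fun hc => by
      have := hsg.1 hc
      simp at this)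
  · intro P hP p hp h hh
    simp only [Pack.thl, List.mem_ofFn] at hp
    obtain ⟨j, rfl⟩ := hp
    have hj : ∀ u : ℕ → M, Set.InjOn u (Finset.range (n + N)) →
        (EvQ ar (br j) h [] (R u P) (D.th j) ↔ T j (fun t => u (iot n (E P) (h.getD t 0)))) := by
      intro u hu
      exact D.th_spec j (n + r) (fun x => u (iot n (E P) x)) (R u P) (hinj u hu P hP) (by
        intro a ha hz
        rw [hRu]) h hh []
    show EvQ ar (br j) h [] (R v P) (D.th j) ↔ EvQ ar (br j) h [] (R w P) (D.th j)
    rw [hj v hvi, hj w hwi]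
    apply ET_rel hvw j (fun t => iot n (E P) (h.getD t 0))
    intro t
    have h2 := mem_subs_range.1 (hE P hP).1
    apply iot_bound h2.2
    rw [(hE P hP).2]
    rw [mem_listsOf] at hh
    apply hh.2
    apply getD_mem
    rw [hh.1]
    exact t.2

end

end EF39
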