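import Pool.Agent.EF39.GRT

/-!
# [EF39-COD] Coding labelled ordered sets by parameter words

`CX x q`: the coordinates `(S, o)`, `S ⊆ Fin x`, `o : Option (Fin q)`, ordered by the cardinality of `S`, then
colexicographically, then by `o` (`none` first). For a labelling `p` of the subsets of `Fin x` the letter of `(S, o)` is
`p S` if `o = none` and `o` otherwise.
-/

set_option autoImplicit false

namespace EF39

/-- coordinates -/
@[ext] structure CX (x q : ℕ) where
  s : Finset (Fin x)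
  o : Option (Fin q)

/-- the number of an option -/
def onum {q : ℕ} : Option (Fin q) → ℕ
  | none => 0
  | some y => y + 1

theorem onum_injective {q : ℕ} : Function.Injective (onum (q := q)) := by
  intro a b h
  cases a <;> cases b <;> simp_all [onum]
  exact Fin.ext h

/-- the key of a coordinate -/
def CX.key {x q : ℕ} (c : CX x q) : (ℕ ×ₗ Colex (Finset (Fin x))) ×ₗ ℕ :=
  toLex (toLex (c.s.card, toColex c.s), onum c.o)

theorem CX.key_injective {x q : ℕ} : Function.Injective (CX.key (x := x) (q := q)) := by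
  rintro ⟨S, o⟩ ⟨S', o'⟩ h
  simp only [CX.key] at h
  have h1 := congrArg (fun z => (ofLex z).2) h
  have h2 := congrArg (fun z => (ofLex (ofLex z).1).2) h
  have h3 : o = o' := onum_injective (by simpa using h1)
  have h4 : S = S' := by simpa using h2
  rw [h3, h4]

noncomputable instance (x q : ℕ) : LinearOrder (CX x q) := LinearOrder.lift' CX.key CX.key_injective

instance (x q : ℕ) : Finite (CX x q) :=
  Finite.of_injective (fun c : CX x q => (c.s, c.o)) (by
    rintro ⟨S, o⟩ ⟨S', o'⟩ h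
    simpa using h)

theorem CX.lt_iff {x q : ℕ} {c d : CX x q} : c < d ↔ c.s.card < d.s.card ∨ (c.s.card = d.s.card ∧
    (toColex c.s < toColex d.s ∨ (c.s = d.s ∧ onum c.o < onum d.o))) := by
  have h : c < d ↔ CX.key c < CX.key d := Iff.rfl
  rw [h]
  simp only [CX.key, Prod.Lex.toLex_lt_toLex]
  constructor
  · rintro (h | ⟨h1, h2⟩)
    · rcases h with h | ⟨h1, h2⟩
      · exact Or.inl h
      · exact Or.inr ⟨h1, Or.inl h2⟩
    · have h3 : c.s.card = d.s.card ∧ c.s = d.s := by simpa using h1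
      exact Or.inr ⟨h3.1, Or.inr ⟨h3.2, h2⟩⟩
  · rintro (h | ⟨h1, (h2 | ⟨h2, h3⟩)⟩)
    · exact Or.inl (Or.inl h)
    · exact Or.inl (Or.inr ⟨h1, h2⟩)
    · exact Or.inr ⟨by rw [h2], h3⟩

theorem CX.le_iff {x q : ℕ} {c d : CX x q} : c ≤ d ↔ c.s.card < d.s.card ∨ (c.s.card = d.s.card ∧
    (toColex c.s < toColex d.s ∨ (c.s = d.s ∧ onum c.o ≤ onum d.o))) := by
  rw [le_iff_lt_or_eq, CX.lt_iff]
  constructor
  · rintro ((h | ⟨h1, (h2 | ⟨h2, h3⟩)⟩) | h)
    · exact Or.inl h
    · exact Or.inr ⟨h1, Or.inl h2⟩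
    · exact Or.inr ⟨h1, Or.inr ⟨h2, h3.le⟩⟩
    · subst h
      exact Or.inr ⟨rfl, Or.inr ⟨rfl, le_rfl⟩⟩
  · rintro (h | ⟨h1, (h2 | ⟨h2, h3⟩)⟩)
    · exact Or.inl (Or.inl h)
    · exact Or.inl (Or.inr ⟨h1, Or.inl h2⟩)
    · rcases h3.lt_or_eq with h4 | h4
      · exact Or.inl (Or.inr ⟨h1, Or.inr ⟨h2, h4⟩⟩)
      · right
        exact CX.ext h2 (onum_injective h4)

/-- the letter of a coordinate -/
def CX.ltr {x q : ℕ} (p : Finset (Fin x) → Fin q) (c : CX x q) : Fin q := c.o.getD (p c.s)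

/-- the word of the point `i` -/
def wrd {x q : ℕ} {C : Type} (p : Finset (Fin x) → Fin q) (f : C → Option (CX x q)) (i : Fin x) (c : C) :
    WithBot (Fin q) :=
  match f c with
  | none => ⊥
  | some s => if i ∈ s.s then ((CX.ltr p s : Fin q) : WithBot (Fin q)) else ⊥

theorem wrd_none {x q : ℕ} {C : Type} {p : Finset (Fin x) → Fin q} {f : C → Option (CX x q)} {i : Fin x} {c : C}
    (h : f c = none) : wrd p f i c = ⊥ := by
  simp [wrd, h]

theorem wrd_some {x q : ℕ} {C : Type} {p : Finset (Fin x) → Fin q} {f : C → Option (CX x q)} {i : Fin x} {c : C}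
    {s : CX x q} (h : f c = some s) :
    wrd p f i c = if i ∈ s.s then ((CX.ltr p s : Fin q) : WithBot (Fin q)) else ⊥ := by
  simp [wrd, h]

end EF39
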