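import Pool.Agent.EF39.Cod

/-!
# [EF39-CODV] Words: order, labels, subwords
-/

set_option autoImplicit false

namespace EF39

/-- the words are lexicographically decreasing: the `i`-th word is nonzero before the later ones -/
theorem wrd_lt {x q n : ℕ} {p : Finset (Fin x) → Fin q} {f : Fin n → Option (CX x q)} (hf : Rigid f)
    {i j : Fin x} (hij : i < j) : toLex (wrd p f j) < toLex (wrd p f i) := by
  obtain ⟨m, hm, hm'⟩ := hf
  refine ⟨m ⟨{i}, none⟩, ?_, ?_⟩
  · intro c hc
    -- before this place both words are zero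
    have hz : ∀ t : Fin x, (t = i ∨ t = j) → wrd p f t c = ⊥ := by
      intro t ht
      cases h : f c with
      | none => exact wrd_none h
      | some s =>
        rw [wrd_some h]
        have h1 : m s ≤ c := (hm' s).2 c h
        have h2 : s < ⟨{i}, none⟩ := by
          by_contra hcon
          exact absurd (lt_of_lt_of_le hc (hm.monotone (not_lt.1 hcon))) (not_lt.2 h1)
        rw [CX.lt_iff] at h2
        have h3 : t ∉ s.s := by
          simp only [Finset.card_singleton] at h2
          rcases h2 with h2 | ⟨h2, (h3 | ⟨_, h3⟩)⟩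
          · have : s.s = ∅ := Finset.card_eq_zero.1 (by omega)
            rw [this]
            simp
          · obtain ⟨a, ha⟩ := Finset.card_eq_one.1 h2
            rw [ha] at h3 ⊢
            have h4 : a < i := Finset.Colex.singleton_lt_singleton.1 h3
            simp only [Finset.mem_singleton]
            rcases ht with rfl | rfl
            · exact fun e => absurd h4 (by rw [e]; exact lt_irrefl _)
            · exact fun e => absurd (h4.trans hij) (by rw [e]; exact lt_irrefl _)
          · simp [onum] at h3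
        simp [h3]
    show wrd p f j c = wrd p f i c
    rw [hz j (Or.inr rfl), hz i (Or.inl rfl)]
  · show wrd p f j (m ⟨{i}, none⟩) < wrd p f i (m ⟨{i}, none⟩)
    rw [wrd_some (hm' _).1, wrd_some (hm' _).1]
    have h1 : j ∉ ({i} : Finset (Fin x)) := by
      simp only [Finset.mem_singleton]
      exact hij.ne'
    have h2 : i ∈ ({i} : Finset (Fin x)) := by simp
    simp only [h1, h2, if_true, if_false]
    exact WithBot.bot_lt_coe _

/-- `y` is the letter at the first place where all words of `V` have the same nonzero letter -/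
def IsLab {n q : ℕ} (V : Finset (Fin n → WithBot (Fin q))) (y : Fin q) : Prop :=
  ∃ c, (∀ v ∈ V, v c = (y : WithBot (Fin q))) ∧ ∀ c' < c, ¬ ∃ y' : Fin q, ∀ v ∈ V, v c' = (y' : WithBot (Fin q))

theorem IsLab_unique {n q : ℕ} {V : Finset (Fin n → WithBot (Fin q))} (hV : V.Nonempty) {y y' : Fin q}
    (h : IsLab V y) (h' : IsLab V y') : y = y' := by
  obtain ⟨c, h1, h2⟩ := h
  obtain ⟨c', h1', h2'⟩ := h'
  have hc : c = c' := by
    rcases lt_trichotomy c c' with h | h | h
    · exact absurd ⟨y, h1⟩ (h2' c h)
    · exact h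
    · exact absurd ⟨y', h1'⟩ (h2 c' h)
  subst hc
  obtain ⟨v, hv⟩ := hV
  exact WithBot.coe_injective ((h1 v hv).symm.trans (h1' v hv))

theorem wrd_isLab {x q n : ℕ} {p : Finset (Fin x) → Fin q} {f : Fin n → Option (CX x q)} (hf : Rigid f)
    {S : Finset (Fin x)} (hS : S.Nonempty) : IsLab (S.image (wrd p f)) (p S) := by
  obtain ⟨m, hm, hm'⟩ := hf
  refine ⟨m ⟨S, none⟩, ?_, ?_⟩
  · intro v hv
    obtain ⟨i, hi, rfl⟩ := Finset.mem_image.1 hv
    rw [wrd_some (hm' _).1]
    simp [hi, CX.ltr]
  · rintro c hc ⟨y, hy⟩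
    have hall : ∀ i ∈ S, wrd p f i c = (y : WithBot (Fin q)) := fun i hi => hy _ (Finset.mem_image_of_mem _ hi)
    cases h : f c with
    | none =>
      obtain ⟨i, hi⟩ := hS
      have := hall i hi
      rw [wrd_none h] at this
      exact absurd this WithBot.bot_ne_coe
    | some s =>
      have hsub : S ⊆ s.s := by
        intro i hi
        have := hall i hi
        by_contra hni
        rw [wrd_some h, if_neg hni] at this
        exact absurd this WithBot.bot_ne_coe
      have h1 : (⟨S, none⟩ : CX x q) ≤ s := by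
        rw [CX.le_iff]
        rcases (Finset.card_le_card hsub).lt_or_eq with h2 | h2
        · exact Or.inl h2
        · have : S = s.s := Finset.eq_of_subset_of_card_le hsub h2.ge
          exact Or.inr ⟨h2, Or.inr ⟨this, Nat.zero_le _⟩⟩
      exact absurd (lt_of_lt_of_le hc ((hm.monotone h1).trans ((hm' s).2 c h))) (lt_irrefl _)

open Classical in
/-- the map of coordinates belonging to the subset `f1 : Fin K ↪o Fin w` -/
noncomputable def hmap {w K q : ℕ} (p : Finset (Fin w) → Fin q) (f1 : Fin K ↪o Fin w) (c : CX w q) :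
    Option (CX K q) :=
  some ⟨Finset.univ.filter (fun t => f1 t ∈ c.s),
    if (Finset.univ.filter (fun t => f1 t ∈ c.s)).map f1.toEmbedding = c.s then c.o else some (CX.ltr p c)⟩

theorem hmap_rigid {w K q : ℕ} (p : Finset (Fin w) → Fin q) (f1 : Fin K ↪o Fin w) : Rigid (hmap p f1) := by
  classical
  have hfil : ∀ S : Finset (Fin K), Finset.univ.filter (fun t => f1 t ∈ S.map f1.toEmbedding) = S := by
    intro S
    ext t
    simp
  have hmi : ∀ S : Finset (Fin K), S.map f1.toEmbedding = S.image f1 := fun S => by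
    ext; simp
  refine ⟨fun d => ⟨d.s.map f1.toEmbedding, d.o⟩, ?_, ?_⟩
  · intro d e hde
    rw [CX.lt_iff] at hde
    show (⟨d.s.map f1.toEmbedding, d.o⟩ : CX w q) < ⟨e.s.map f1.toEmbedding, e.o⟩
    rw [CX.lt_iff]
    simp only [Finset.card_map]
    rcases hde with h | ⟨h1, (h2 | ⟨h2, h3⟩)⟩
    · exact Or.inl h
    · refine Or.inr ⟨h1, Or.inl ?_⟩
      rw [hmi, hmi]
      exact (Finset.Colex.toColex_image_lt_toColex_image f1.strictMono).2 h2
    · exact Or.inr ⟨h1, Or.inr ⟨by rw [h2], h3⟩⟩
  · rintro ⟨S, o⟩
    refine ⟨?_, ?_⟩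
    · show hmap p f1 ⟨S.map f1.toEmbedding, o⟩ = some ⟨S, o⟩
      unfold hmap
      congr 1
      apply CX.ext
      · exact hfil S
      · simp only [hfil, if_true]
    · intro c hc
      unfold hmap at hc
      have hc' := Option.some.inj hc
      have h1 : Finset.univ.filter (fun t => f1 t ∈ c.s) = S := congrArg CX.s hc'
      have h2 : (if (Finset.univ.filter (fun t => f1 t ∈ c.s)).map f1.toEmbedding = c.s then c.o
        else some (CX.ltr p c)) = o := congrArg CX.o hc'
      have hsub : S.map f1.toEmbedding ⊆ c.s := by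
        intro z hz
        rw [Finset.mem_map] at hz
        obtain ⟨t, ht, rfl⟩ := hz
        rw [← h1] at ht
        simpa using ht
      show (⟨S.map f1.toEmbedding, o⟩ : CX w q) ≤ c
      rw [CX.le_iff]
      rcases (Finset.card_le_card hsub).lt_or_eq with h3 | h3
      · exact Or.inl h3
      · have h4 : S.map f1.toEmbedding = c.s := Finset.eq_of_subset_of_card_le hsub h3.ge
        refine Or.inr ⟨h3, Or.inr ⟨h4, ?_⟩⟩
        rw [h1, if_pos h4] at h2
        rw [h2]

theorem wrd_hmap {w K q : ℕ} {C : Type} (p : Finset (Fin w) → Fin q) (f1 : Fin K ↪o Fin w)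
    (F : C → Option (CX w q)) (t : Fin K) :
    wrd (fun S => p (S.map f1.toEmbedding)) (fun x => (F x).bind (hmap p f1)) t = wrd p F (f1 t) := by
  classical
  funext c
  cases h : F c with
  | none =>
    rw [wrd_none h, wrd_none (by simp [h])]
  | some s =>
    rw [wrd_some h, wrd_some (s := ⟨Finset.univ.filter (fun t => f1 t ∈ s.s),
      if (Finset.univ.filter (fun t => f1 t ∈ s.s)).map f1.toEmbedding = s.s then s.o else some (CX.ltr p s)⟩)
      (by simp [h, hmap])]
    by_cases hmem : f1 t ∈ s.s
    · have h1 : t ∈ Finset.univ.filter (fun t => f1 t ∈ s.s) := by simpa using hmem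
      rw [if_pos h1, if_pos hmem]
      congr 1
      by_cases h2 : (Finset.univ.filter (fun t => f1 t ∈ s.s)).map f1.toEmbedding = s.s
      · simp only [h2, if_true, CX.ltr]
      · simp only [h2, if_false, CX.ltr, Option.getD_some]
    · have h1 : t ∉ Finset.univ.filter (fun t => f1 t ∈ s.s) := by simpa using hmem
      rw [if_neg h1, if_neg hmem]

end EF39
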