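import Pool.Agent.EF39.Cert

/-!
# EF39: primitive recursive checks
-/

set_option autoImplicit false

namespace EF39

section
variable {α β γ : Type} [Primcodable α] [Primcodable β] [Primcodable γ]

theorem pp_forall {L : α → List β} {p : α → β → Prop} (hL : Primrec L)
    (hp : PrimrecPred (fun x : α × β => p x.1 x.2)) : PrimrecPred (fun a => ∀ b ∈ L a, p a b) := by
  have h1 : PrimrecRel (fun (b : β) (a : α) => p a b) :=
    PrimrecPred.comp (p := fun x : α × β => p x.1 x.2) (f := fun x : β × α => (x.2, x.1)) hp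
      (Primrec.pair Primrec.snd Primrec.fst)
  exact (PrimrecRel.forall_mem_list h1).comp hL Primrec.id

theorem pp_exists {L : α → List β} {p : α → β → Prop} (hL : Primrec L)
    (hp : PrimrecPred (fun x : α × β => p x.1 x.2)) : PrimrecPred (fun a => ∃ b ∈ L a, p a b) := by
  have h1 : PrimrecRel (fun (b : β) (a : α) => p a b) :=
    PrimrecPred.comp (p := fun x : α × β => p x.1 x.2) (f := fun x : β × α => (x.2, x.1)) hp
      (Primrec.pair Primrec.snd Primrec.fst)
  exact (PrimrecRel.exists_mem_list h1).comp hL Primrec.id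

theorem pp_and {p q : α → Prop} (hp : PrimrecPred p) (hq : PrimrecPred q) : PrimrecPred (fun a => p a ∧ q a) :=
  hp.and hq

theorem pp_or {p q : α → Prop} (hp : PrimrecPred p) (hq : PrimrecPred q) : PrimrecPred (fun a => p a ∨ q a) :=
  hp.or hq

theorem pp_not {p : α → Prop} (hp : PrimrecPred p) : PrimrecPred (fun a => ¬ p a) := hp.not

theorem pp_imp {p q : α → Prop} (hp : PrimrecPred p) (hq : PrimrecPred q) : PrimrecPred (fun a => p a → q a) :=
  (hp.not.or hq).of_eq fun a => by tauto

theorem pp_iff {p q : α → Prop} (hp : PrimrecPred p) (hq : PrimrecPred q) : PrimrecPred (fun a => (p a ↔ q a)) :=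
  ((pp_imp hp hq).and (pp_imp hq hp)).of_eq fun a => by tauto

theorem pp_eq {f g : α → β} (hf : Primrec f) (hg : Primrec g) : PrimrecPred (fun a => f a = g a) :=
  Primrec.eq.comp hf hg

theorem pp_le {f g : α → ℕ} (hf : Primrec f) (hg : Primrec g) : PrimrecPred (fun a => f a ≤ g a) :=
  Primrec.nat_le.comp hf hg

theorem pp_lt {f g : α → ℕ} (hf : Primrec f) (hg : Primrec g) : PrimrecPred (fun a => f a < g a) :=
  Primrec.nat_lt.comp hf hg

theorem pp_mem {f : α → β} {L : α → List β} (hf : Primrec f) (hL : Primrec L) : PrimrecPred (fun a => f a ∈ L a) :=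
  (pp_exists hL (p := fun a b => b = f a) (pp_eq Primrec.snd (hf.comp Primrec.fst))).of_eq fun a => by simp

theorem pr_pair {f : α → β} {g : α → γ} (hf : Primrec f) (hg : Primrec g) : Primrec (fun a => (f a, g a)) :=
  Primrec.pair hf hg

theorem pr_fst {f : α → β × γ} (hf : Primrec f) : Primrec (fun a => (f a).1) := Primrec.fst.comp hf

theorem pr_snd {f : α → β × γ} (hf : Primrec f) : Primrec (fun a => (f a).2) := Primrec.snd.comp hf

theorem pr_add {f g : α → ℕ} (hf : Primrec f) (hg : Primrec g) : Primrec (fun a => f a + g a) :=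
  Primrec.nat_add.comp hf hg

theorem pr_sub {f g : α → ℕ} (hf : Primrec f) (hg : Primrec g) : Primrec (fun a => f a - g a) :=
  Primrec.nat_sub.comp hf hg

theorem pr_len {f : α → List β} (hf : Primrec f) : Primrec (fun a => (f a).length) := Primrec.list_length.comp hf

theorem pr_range {f : α → ℕ} (hf : Primrec f) : Primrec (fun a => List.range (f a)) := Primrec.list_range.comp hf

theorem pr_getD {f : α → List β} {g : α → ℕ} {d : β} (hf : Primrec f) (hg : Primrec g) :
    Primrec (fun a => (f a).getD (g a) d) := (Primrec.list_getD d).comp hf hg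

theorem pr_cons {f : α → β} {g : α → List β} (hf : Primrec f) (hg : Primrec g) :
    Primrec (fun a => f a :: g a) := Primrec.list_cons.comp hf hg

theorem pr_append {f g : α → List β} (hf : Primrec f) (hg : Primrec g) :
    Primrec (fun a => f a ++ g a) := Primrec.list_append.comp hf hg

theorem pr_map {f : α → List β} {g : α → β → γ} (hf : Primrec f) (hg : Primrec (fun x : α × β => g x.1 x.2)) :
    Primrec (fun a => (f a).map (g a)) := Primrec.list_map hf hg

theorem pr_flatMap {f : α → List β} {g : α → β → List γ} (hf : Primrec f)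
    (hg : Primrec (fun x : α × β => g x.1 x.2)) : Primrec (fun a => (f a).flatMap (g a)) :=
  Primrec.list_flatMap hf hg

open Classical in
theorem pr_ite {p : α → Prop} {f g : α → β} (hp : PrimrecPred p) (hf : Primrec f) (hg : Primrec g) :
    Primrec (fun a => if p a then f a else g a) := Primrec.ite hp hf hg

omit [Primcodable β] in
theorem subs_foldr (l : List β) : subs l = l.foldr (fun a acc => acc ++ acc.map (fun s => a :: s)) [[]] := by
  induction l with
  | nil => rfl
  | cons a l ih => simp only [subs, List.foldr_cons, ih]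

theorem pr_subs {f : α → List β} (hf : Primrec f) : Primrec (fun a => subs (f a)) := by
  have h1 : Primrec (fun a => (f a).foldr (fun b acc => acc ++ acc.map (fun s => b :: s)) [[]]) := by
    apply Primrec.list_foldr (f := f) (g := fun _ => [[]])
      (h := fun _ (p : β × List (List β)) => p.2 ++ p.2.map (fun s => p.1 :: s)) hf (Primrec.const _)
    apply pr_append (pr_snd Primrec.snd)
    apply pr_map (pr_snd Primrec.snd)
    apply pr_cons (pr_fst (pr_snd Primrec.fst)) Primrec.snd
  exact h1.of_eq fun a => (subs_foldr _).symm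

theorem pr_listsOf {f g : α → ℕ} (hf : Primrec f) (hg : Primrec g) : Primrec (fun a => listsOf (f a) (g a)) := by
  have h1 : Primrec (fun a => Nat.rec (motive := fun _ => List (List ℕ)) [[]] (fun _ ih =>
      ih.flatMap (fun l => (List.range (g a)).map (fun x => x :: l))) (f a)) := by
    apply Primrec.nat_rec' (f := f) (g := fun _ => [[]])
      (h := fun a (p : ℕ × List (List ℕ)) => p.2.flatMap (fun l => (List.range (g a)).map (fun x => x :: l)))
      hf (Primrec.const _)
    apply pr_flatMap (pr_snd Primrec.snd)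
    apply pr_map (pr_range (hg.comp (pr_fst Primrec.fst)))
    apply pr_cons Primrec.snd (pr_snd Primrec.fst)
  refine h1.of_eq fun a => ?_
  generalize f a = k
  induction k with
  | zero => rfl
  | succ k ih => simp only [listsOf, ← ih]

section
variable {l : ℕ} (ar : Fin l → ℕ)

theorem pr_arN {f : α → ℕ} (hf : Primrec f) : Primrec (fun a => arN ar (f a)) :=
  pr_getD (Primrec.const _) hf

theorem pr_atomsL {f : α → ℕ} (hf : Primrec f) : Primrec (fun a => atomsL ar (f a)) := by
  unfold atomsL
  apply pr_flatMap (Primrec.const _)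
  apply pr_map
  · apply pr_listsOf
    · exact pr_arN ar Primrec.snd
    · exact hf.comp Primrec.fst
  · exact pr_pair (pr_snd Primrec.fst) Primrec.snd

theorem pr_atomsS {f : α → ℕ} (hf : Primrec f) : Primrec (fun a => atomsS ar (f a)) := by
  unfold atomsS
  apply pr_append (pr_atomsL ar hf)
  apply pr_map (pr_range hf)
  exact pr_pair (Primrec.const _) (pr_cons Primrec.snd (Primrec.const _))

theorem pp_WF {f : α → Atom} (hf : Primrec f) : PrimrecPred (fun a => WF ar (f a)) := by
  unfold WF
  exact pp_and (pp_lt (pr_fst hf) (Primrec.const _)) (pp_eq (pr_len (pr_snd hf)) (pr_arN ar (pr_fst hf)))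

end

theorem pr_iot {n : α → ℕ} {e : α → List ℕ} {x : α → ℕ} (hn : Primrec n) (he : Primrec e) (hx : Primrec x) :
    Primrec (fun a => iot (n a) (e a) (x a)) := by
  have h1 : Primrec (fun a => if x a < n a then x a else n a + (e a).getD (x a - n a) 0) :=
    Primrec.ite (pp_lt hx hn) hx (pr_add hn (pr_getD he (pr_sub hx hn)))
  exact h1

theorem pr_mapA_iot {n : α → ℕ} {e : α → List ℕ} {a : α → Atom} (hn : Primrec n) (he : Primrec e)
    (ha : Primrec a) : Primrec (fun x => mapA (iot (n x) (e x)) (a x)) := by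
  unfold mapA
  apply pr_pair (pr_fst ha)
  apply pr_map (pr_snd ha)
  exact pr_iot (hn.comp Primrec.fst) (he.comp Primrec.fst) Primrec.snd

theorem pp_SuppEq {f : α → Atom} {T : α → List ℕ} (hf : Primrec f) (hT : Primrec T) :
    PrimrecPred (fun a => SuppEq (f a) (T a)) := by
  unfold SuppEq
  apply pp_and
  · apply pp_forall (pr_snd hf)
    exact pp_mem Primrec.snd (hT.comp Primrec.fst)
  · apply pp_forall hT
    exact pp_mem Primrec.snd (pr_snd (hf.comp Primrec.fst))

section
variable {l : ℕ} (ar : Fin l → ℕ)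

theorem pp_EvA {m : α → ℕ} {h o : α → List ℕ} {X : α → Atom → Prop} {b : α → Atom} (hm : Primrec m)
    (hh : Primrec h) (ho : Primrec o) (hX : PrimrecPred (fun x : α × Atom => X x.1 x.2)) (hb : Primrec b) :
    PrimrecPred (fun a => EvA ar (m a) (h a) (o a) (X a) (b a)) := by
  unfold EvA
  have h1 := pr_fst hb
  have h2 := pr_snd hb
  have hall : PrimrecPred (fun a => ∀ x ∈ (b a).2, x < m a) :=
    pp_forall h2 (pp_lt Primrec.snd (hm.comp Primrec.fst))
  apply pp_or
  · apply pp_and (pp_eq h1 (Primrec.const _))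
    apply pp_and (pp_eq (pr_len h2) (Primrec.const _))
    apply pp_and hall
    exact pp_eq (pr_getD hh (pr_getD h2 (Primrec.const _))) (pr_getD hh (pr_getD h2 (Primrec.const _)))
  · apply pp_or
    · apply pp_and (pp_eq h1 (Primrec.const _))
      apply pp_and (pp_eq (pr_len h2) (Primrec.const _))
      apply pp_and hall
      exact pp_lt (pr_getD ho (pr_getD hh (pr_getD h2 (Primrec.const _))))
        (pr_getD ho (pr_getD hh (pr_getD h2 (Primrec.const _))))
    · apply pp_and (pp_le (Primrec.const _) h1)
      apply pp_and (pp_WF ar (pr_pair (pr_sub h1 (Primrec.const _)) h2))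
      apply pp_and hall
      have h3 : Primrec (fun a => (a, ((b a).1 - 2, (b a).2.map (fun x => (h a).getD x 0)))) := by
        apply pr_pair Primrec.id
        apply pr_pair (pr_sub h1 (Primrec.const _))
        apply pr_map h2
        exact pr_getD (hh.comp Primrec.fst) Primrec.snd
      exact hX.comp h3

theorem pp_EvQ {m : α → ℕ} {h o : α → List ℕ} {X : α → Atom → Prop} {φ : α → QF} (hm : Primrec m)
    (hh : Primrec h) (ho : Primrec o) (hX : PrimrecPred (fun x : α × Atom => X x.1 x.2)) (hφ : Primrec φ) :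
    PrimrecPred (fun a => EvQ ar (m a) (h a) (o a) (X a) (φ a)) := by
  unfold EvQ
  apply pp_exists hφ
  apply pp_forall Primrec.snd
  apply pp_iff
  · have hf : Primrec (fun x : (α × List (Bool × Atom)) × (Bool × Atom) => x.1.1) := pr_fst Primrec.fst
    apply pp_EvA ar (hm.comp hf) (hh.comp hf) (ho.comp hf)
    · exact hX.comp (f := fun x : ((α × List (Bool × Atom)) × (Bool × Atom)) × Atom => (x.1.1.1, x.2))
        (pr_pair (hf.comp Primrec.fst) Primrec.snd)
    · exact pr_snd Primrec.snd
  · exact pp_eq (pr_fst Primrec.snd) (Primrec.const _)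

end

theorem pp_mixL {X P : α → Atom → Prop} {T : α → List ℕ} {b : α → Atom}
    (hX : PrimrecPred (fun x : α × Atom => X x.1 x.2)) (hP : PrimrecPred (fun x : α × Atom => P x.1 x.2))
    (hT : Primrec T) (hb : Primrec b) : PrimrecPred (fun a => mixL (X a) (P a) (T a) (b a)) := by
  unfold mixL
  have h1 : Primrec (fun a => (a, b a)) := pr_pair Primrec.id hb
  have h2 := pp_SuppEq hb hT
  exact pp_or (pp_and h2 (hP.comp h1)) (pp_and (pp_not h2) (hX.comp h1))

end

/-- list coding of a response function -/
def RcP (R : List (List Atom × Atom)) (P : List Atom) (a : Atom) : Prop := (P, a) ∈ R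

section
variable {l : ℕ} (ar : Fin l → ℕ) (r : ℕ) (la : List QF) (th : List (ℕ × QF))
variable {α : Type} [Primcodable α] {n : α → ℕ} {R RA RB : α → List (List Atom × Atom)} {s : α → List Atom}

theorem pp_CompR (hn : Primrec n) (hR : Primrec R) : PrimrecPred (fun x => CompR ar (n x) r (RcP (R x))) := by
  unfold CompR RcP
  apply pp_forall (pr_subs (pr_atomsS ar (pr_add hn (Primrec.const r))))
  apply pp_forall (pr_subs (pr_atomsS ar (pr_add (hn.comp Primrec.fst) (Primrec.const r))))
  apply pp_forall (Primrec.const _)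
  apply pp_forall (Primrec.const _)
  have p0 : Primrec (fun x : (((α × List Atom) × List Atom) × List ℕ) × List ℕ => x.1.1.1.1) :=
    pr_fst (pr_fst (pr_fst Primrec.fst))
  have pP : Primrec (fun x : (((α × List Atom) × List Atom) × List ℕ) × List ℕ => x.1.1.1.2) :=
    pr_snd (pr_fst (pr_fst Primrec.fst))
  have pP' : Primrec (fun x : (((α × List Atom) × List Atom) × List ℕ) × List ℕ => x.1.1.2) :=
    pr_snd (pr_fst Primrec.fst)
  have pe : Primrec (fun x : (((α × List Atom) × List Atom) × List ℕ) × List ℕ => x.1.2) := pr_snd Primrec.fst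
  have pe' : Primrec (fun x : (((α × List Atom) × List Atom) × List ℕ) × List ℕ => x.2) := Primrec.snd
  apply pp_imp (pp_eq (pr_len pe) (pr_len pe'))
  apply pp_imp
  · apply pp_forall (pr_atomsS ar (pr_add (hn.comp p0) (pr_len pe)))
    apply pp_iff
    · exact pp_mem (pr_mapA_iot ((hn.comp p0).comp Primrec.fst) (pe.comp Primrec.fst) Primrec.snd)
        (pP.comp Primrec.fst)
    · exact pp_mem (pr_mapA_iot ((hn.comp p0).comp Primrec.fst) (pe'.comp Primrec.fst) Primrec.snd)
        (pP'.comp Primrec.fst)
  · apply pp_forall (pr_atomsL ar (pr_add (hn.comp p0) (pr_len pe)))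
    apply pp_iff
    · exact pp_mem (pr_pair (pP.comp Primrec.fst)
        (pr_mapA_iot ((hn.comp p0).comp Primrec.fst) (pe.comp Primrec.fst) Primrec.snd))
        ((hR.comp p0).comp Primrec.fst)
    · exact pp_mem (pr_pair (pP'.comp Primrec.fst)
        (pr_mapA_iot ((hn.comp p0).comp Primrec.fst) (pe'.comp Primrec.fst) Primrec.snd))
        ((hR.comp p0).comp Primrec.fst)

theorem pp_LegR (hn : Primrec n) (hR : Primrec R) : PrimrecPred (fun x => LegR ar (n x) r la (RcP (R x))) := by
  unfold LegR RcP
  apply pp_forall (pr_subs (pr_atomsS ar (pr_add hn (Primrec.const r))))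
  apply pp_forall (pr_subs (pr_range (pr_add (hn.comp Primrec.fst) (Primrec.const r))))
  have p0 : Primrec (fun x : (α × List Atom) × List ℕ => x.1.1) := pr_fst Primrec.fst
  have pP : Primrec (fun x : (α × List Atom) × List ℕ => x.1.2) := pr_snd Primrec.fst
  have pT : Primrec (fun x : (α × List Atom) × List ℕ => x.2) := Primrec.snd
  apply pp_imp (pp_lt (pr_len pT) (Primrec.const _))
  apply pp_EvQ ar (pr_len pT) pT (Primrec.const _)
  · exact pp_mem (pr_pair (pP.comp Primrec.fst) Primrec.snd) ((hR.comp p0).comp Primrec.fst)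
  · exact pr_getD (Primrec.const _) (pr_len pT)

theorem pp_FaiR (sg : Bool) (hn : Primrec n) (hR : Primrec R) :
    PrimrecPred (fun x => FaiR ar (n x) r la (RcP (R x)) sg) := by
  unfold FaiR RcP
  apply pp_forall (pr_subs (pr_atomsS ar (pr_add hn (Primrec.const r))))
  apply pp_forall (pr_subs (pr_range (pr_add (hn.comp Primrec.fst) (Primrec.const r))))
  apply pp_imp (pp_lt (pr_len Primrec.snd) (Primrec.const _))
  apply pp_forall Primrec.snd
  have p0 : Primrec (fun x : ((α × List Atom) × List ℕ) × ℕ => x.1.1.1) := pr_fst (pr_fst Primrec.fst)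
  have pP : Primrec (fun x : ((α × List Atom) × List ℕ) × ℕ => x.1.1.2) := pr_snd (pr_fst Primrec.fst)
  have pT : Primrec (fun x : ((α × List Atom) × List ℕ) × ℕ => x.1.2) := pr_snd Primrec.fst
  have px : Primrec (fun x : ((α × List Atom) × List ℕ) × ℕ => x.2) := Primrec.snd
  apply pp_imp (pp_le (hn.comp p0) px)
  apply pp_imp
  · apply pp_forall pT
    exact pp_le Primrec.snd (px.comp Primrec.fst)
  apply pp_imp
  · apply pp_iff
    · exact pp_mem (pr_pair (Primrec.const _) (pr_cons px (Primrec.const _))) pP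
    · exact pp_eq (Primrec.const _) (Primrec.const _)
  apply pp_imp
  · apply pp_EvQ ar (pr_len pT) pT (Primrec.const _)
    · apply pp_mixL
      · exact pp_mem (pr_pair ((pP.comp Primrec.fst).comp Primrec.fst) Primrec.snd)
          (((hR.comp p0).comp Primrec.fst).comp Primrec.fst)
      · exact pp_mem Primrec.snd ((pP.comp Primrec.fst).comp Primrec.fst)
      · exact pT.comp Primrec.fst
      · exact Primrec.snd
    · exact pr_getD (Primrec.const _) (pr_len pT)
  · apply pp_forall (pr_atomsL ar (pr_add (hn.comp p0) (Primrec.const r)))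
    apply pp_imp (pp_SuppEq Primrec.snd (pT.comp Primrec.fst))
    apply pp_iff
    · exact pp_mem (pr_pair (pP.comp Primrec.fst) Primrec.snd) ((hR.comp p0).comp Primrec.fst)
    · exact pp_mem Primrec.snd (pP.comp Primrec.fst)

theorem pp_GamR (hn : Primrec n) (hA : Primrec RA) (hB : Primrec RB) :
    PrimrecPred (fun x => GamR ar (n x) r th (RcP (RA x)) (RcP (RB x))) := by
  unfold GamR RcP
  apply pp_forall (pr_subs (pr_atomsS ar (pr_add hn (Primrec.const r))))
  apply pp_forall (Primrec.const _)
  apply pp_forall (pr_listsOf (pr_fst Primrec.snd) (pr_add (hn.comp (pr_fst Primrec.fst)) (Primrec.const r)))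
  have p0 : Primrec (fun x : ((α × List Atom) × (ℕ × QF)) × List ℕ => x.1.1.1) := pr_fst (pr_fst Primrec.fst)
  have pP : Primrec (fun x : ((α × List Atom) × (ℕ × QF)) × List ℕ => x.1.1.2) := pr_snd (pr_fst Primrec.fst)
  have pp : Primrec (fun x : ((α × List Atom) × (ℕ × QF)) × List ℕ => x.1.2) := pr_snd Primrec.fst
  have ph : Primrec (fun x : ((α × List Atom) × (ℕ × QF)) × List ℕ => x.2) := Primrec.snd
  apply pp_iff
  · apply pp_EvQ ar (pr_fst pp) ph (Primrec.const _)
    · exact pp_mem (pr_pair (pP.comp Primrec.fst) Primrec.snd) ((hA.comp p0).comp Primrec.fst)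
    · exact pr_snd pp
  · apply pp_EvQ ar (pr_fst pp) ph (Primrec.const _)
    · exact pp_mem (pr_pair (pP.comp Primrec.fst) Primrec.snd) ((hB.comp p0).comp Primrec.fst)
    · exact pr_snd pp

theorem pp_BasR (hn : Primrec n) (hR : Primrec R) (hs : Primrec s) :
    PrimrecPred (fun x => BasR ar (n x) r (RcP (R x)) (fun a => a ∈ s x)) := by
  unfold BasR RcP
  apply pp_forall (pr_subs (pr_atomsS ar (pr_add hn (Primrec.const r))))
  apply pp_forall (pr_atomsL ar (hn.comp Primrec.fst))
  have p0 : Primrec (fun x : (α × List Atom) × Atom => x.1.1) := pr_fst Primrec.fst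
  have pP : Primrec (fun x : (α × List Atom) × Atom => x.1.2) := pr_snd Primrec.fst
  apply pp_iff
  · exact pp_mem (pr_pair pP Primrec.snd) (hR.comp p0)
  · exact pp_mem Primrec.snd (hs.comp p0)

end

end EF39
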