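import Pool.Agent.EF39.Defs

/-!
# EF39: internal definitions

All finite structures are given on an initial segment of `ℕ`: a (partial) structure is a predicate `X : Atom → Prop`;
here an atom is `(i, g)` with `i < l` a relation symbol and `g : List ℕ` its arguments (no shift by 2 as in `QF`).
The symbol number `l` is used as a unary predicate (the side on which a move is played).
-/

set_option autoImplicit false

namespace EF39

/-! ## lists -/

/-- all sublists -/
def subs {α : Type} : List α → List (List α)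
  | [] => [[]]
  | a :: t => subs t ++ (subs t).map (fun s => a :: s)

theorem mem_subs {α : Type} {s t : List α} : s ∈ subs t ↔ s.Sublist t := by
  induction t generalizing s with
  | nil => simp [subs]
  | cons a t ih =>
    simp only [subs, List.mem_append, List.mem_map, ih]
    constructor
    · rintro (h | ⟨s', h, rfl⟩)
      · exact h.cons a
      · exact h.cons_cons a
    · intro h
      cases h with
      | cons _ h => exact Or.inl h
      | cons_cons _ h => exact Or.inr ⟨_, h, rfl⟩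

/-- all lists of length `k` with entries `< N` -/
def listsOf : ℕ → ℕ → List (List ℕ)
  | 0, _ => [[]]
  | k + 1, N => (listsOf k N).flatMap (fun g => (List.range N).map (fun x => x :: g))

theorem mem_listsOf {k N : ℕ} {g : List ℕ} : g ∈ listsOf k N ↔ g.length = k ∧ ∀ x ∈ g, x < N := by
  induction k generalizing g with
  | zero => simp [listsOf, List.length_eq_zero_iff]; rintro rfl; simp
  | succ k ih =>
    simp only [listsOf, List.mem_flatMap, ih, List.mem_map, List.mem_range]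
    constructor
    · rintro ⟨g', ⟨h1, h2⟩, x, hx, rfl⟩
      simp only [List.length_cons, h1, List.mem_cons, true_and]
      rintro y (rfl | hy)
      · exact hx
      · exact h2 y hy
    · rintro ⟨h1, h2⟩
      cases g with
      | nil => simp at h1
      | cons x g' =>
        refine ⟨g', ⟨by simpa using h1, fun y hy => h2 y (by simp [hy])⟩, x, h2 x (by simp), rfl⟩

/-! ## atoms -/

/-- apply `f` to the arguments -/
def mapA (f : ℕ → ℕ) (a : Atom) : Atom := (a.1, a.2.map f)

/-- the arguments -/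
def supp (a : Atom) : Finset ℕ := a.2.toFinset

/-- the support of `a` is the set of the entries of `T` -/
def SuppEq (a : Atom) (T : List ℕ) : Prop := (∀ x ∈ a.2, x ∈ T) ∧ ∀ x ∈ T, x ∈ a.2

/-- constants `x < n` are fixed, the `y`-th move `n + y` goes to the move `n + e_y` -/
def iot (n : ℕ) (e : List ℕ) (x : ℕ) : ℕ := if x < n then x else n + e.getD (x - n) 0

section
variable {l : ℕ} (ar : Fin l → ℕ)

/-- the arity of the symbol number `i` -/
def arN (i : ℕ) : ℕ := (List.ofFn ar).getD i 0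

theorem arN_of_lt {i : ℕ} (h : i < l) : arN ar i = ar ⟨i, h⟩ := by
  simp [arN, List.getD_eq_getElem?_getD, h]

/-- well formed atoms -/
def WF (a : Atom) : Prop := a.1 < l ∧ a.2.length = arN ar a.1

/-- all well formed atoms with arguments `< N` -/
def atomsL (N : ℕ) : List Atom :=
  (List.range l).flatMap (fun i => (listsOf (arN ar i) N).map (fun g => (i, g)))

theorem mem_atomsL {N : ℕ} {a : Atom} : a ∈ atomsL ar N ↔ WF ar a ∧ ∀ x ∈ a.2, x < N := by
  simp only [atomsL, List.mem_flatMap, List.mem_range, List.mem_map, mem_listsOf, WF]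
  constructor
  · rintro ⟨i, hi, g, ⟨h1, h2⟩, rfl⟩
    exact ⟨⟨hi, h1⟩, h2⟩
  · rintro ⟨⟨h1, h2⟩, h3⟩
    exact ⟨a.1, h1, a.2, ⟨h2, h3⟩, rfl⟩

/-- atoms for plays: also the unary predicate number `l` -/
def atomsS (N : ℕ) : List Atom := atomsL ar N ++ (List.range N).map (fun x => (l, [x]))

/-! ## truth in a structure `X` at a tuple `h` of points, the order of the points being given by `o` -/

/-- truth of an atom of `QF` (symbols shifted by 2) in variables `< m` -/
def EvA (m : ℕ) (h o : List ℕ) (X : Atom → Prop) (a : Atom) : Prop :=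
  (a.1 = 0 ∧ a.2.length = 2 ∧ (∀ x ∈ a.2, x < m) ∧ h.getD (a.2.getD 0 0) 0 = h.getD (a.2.getD 1 0) 0) ∨
  (a.1 = 1 ∧ a.2.length = 2 ∧ (∀ x ∈ a.2, x < m) ∧
    o.getD (h.getD (a.2.getD 0 0) 0) 0 < o.getD (h.getD (a.2.getD 1 0) 0) 0) ∨
  (2 ≤ a.1 ∧ WF ar (a.1 - 2, a.2) ∧ (∀ x ∈ a.2, x < m) ∧ X (a.1 - 2, a.2.map (fun x => h.getD x 0)))

/-- truth of a formula -/
def EvQ (m : ℕ) (h o : List ℕ) (X : Atom → Prop) (φ : QF) : Prop :=
  ∃ c ∈ φ, ∀ b ∈ c, (EvA ar m h o X b.2 ↔ b.1 = true)

variable {M : Type} (S : ∀ i, (Fin (ar i) → M) → Prop)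

/-- the atom `a` holds in `(M; S)` at the tuple `v` -/
def Hold (v : ℕ → M) (a : Atom) : Prop :=
  ∃ h : a.1 < l, a.2.length = ar ⟨a.1, h⟩ ∧ S ⟨a.1, h⟩ (fun t => v (a.2.getD t 0))

/-- the structure `X` restricted to the finite set `T` embeds in `(M; S)` -/
def Leg (X : Atom → Prop) (T : Finset ℕ) : Prop :=
  ∃ w : ℕ → M, Set.InjOn w T ∧ ∀ a, WF ar a → supp a ⊆ T → (Hold ar S w a ↔ X a)

/-- the structure which is `P` on atoms with support exactly `T`, and `X` otherwise -/
def mixF (X P : Atom → Prop) (T : Finset ℕ) (a : Atom) : Prop := (supp a = T ∧ P a) ∨ (supp a ≠ T ∧ X a)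

/-- the same for a list -/
def mixL (X P : Atom → Prop) (T : List ℕ) (a : Atom) : Prop := (SuppEq a T ∧ P a) ∨ (¬ SuppEq a T ∧ X a)

/-- The properties of `(M; S)` which are used. -/
structure Nice : Prop where
  /-- extension property -/
  ext : ∀ (m m' : ℕ) (v : ℕ → M) (X : Atom → Prop), m ≤ m' → Set.InjOn v (Finset.range m) →
    Leg ar S X (Finset.range m') → (∀ a, WF ar a → supp a ⊆ Finset.range m → (Hold ar S v a ↔ X a)) →
    ∃ v' : ℕ → M, (∀ i < m, v' i = v i) ∧ Set.InjOn v' (Finset.range m') ∧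
      ∀ a, WF ar a → supp a ⊆ Finset.range m' → (Hold ar S v' a ↔ X a)
  /-- disjoint amalgamation -/
  dap : ∀ (T : Finset ℕ) (X : Atom → Prop), (∀ j ∈ T, Leg ar S X (T.erase j)) →
    ∃ X' : Atom → Prop, Leg ar S X' T ∧ ∀ a, WF ar a → supp a ⊂ T → (X' a ↔ X a)

end

/-! ## basic lemmas -/

section
variable {l : ℕ} {ar : Fin l → ℕ} {M : Type} {S : ∀ i, (Fin (ar i) → M) → Prop}

theorem mapA_mapA (f g : ℕ → ℕ) (a : Atom) : mapA f (mapA g a) = mapA (f ∘ g) a := by
  simp [mapA]

theorem mapA_congr {f g : ℕ → ℕ} {a : Atom} (h : ∀ x ∈ a.2, f x = g x) : mapA f a = mapA g a := by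
  simp only [mapA]
  congr 1
  exact List.map_congr_left h

theorem mapA_id' {f : ℕ → ℕ} {a : Atom} (h : ∀ x ∈ a.2, f x = x) : mapA f a = a := by
  rw [mapA_congr (g := id) h]
  simp [mapA]

theorem WF_mapA {f : ℕ → ℕ} {a : Atom} : WF ar (mapA f a) ↔ WF ar a := by
  simp [WF, mapA]

theorem supp_mapA {f : ℕ → ℕ} {a : Atom} : supp (mapA f a) = (supp a).image f := by
  ext x
  simp [supp, mapA]

theorem mem_supp {a : Atom} {x : ℕ} : x ∈ supp a ↔ x ∈ a.2 := by simp [supp]

theorem Hold.wf {v : ℕ → M} {a : Atom} (h : Hold ar S v a) : WF ar a := by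
  obtain ⟨h1, h2, -⟩ := h
  exact ⟨h1, by rw [arN_of_lt ar h1]; exact h2⟩

theorem Hold_congr {v w : ℕ → M} {a : Atom} (h : ∀ x ∈ a.2, v x = w x) : Hold ar S v a ↔ Hold ar S w a := by
  have key : ∀ {v w : ℕ → M}, (∀ x ∈ a.2, v x = w x) → Hold ar S v a → Hold ar S w a := by
    rintro v w h ⟨h1, h2, h3⟩
    refine ⟨h1, h2, ?_⟩
    convert h3 using 2 with t
    rw [eq_comm]
    apply h
    have ht : (t : ℕ) < a.2.length := by rw [h2]; exact t.2
    rw [List.getD_eq_getElem _ _ ht]
    exact List.getElem_mem ht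
  exact ⟨key h, key fun x hx => (h x hx).symm⟩

theorem Hold_mapA {v : ℕ → M} {f : ℕ → ℕ} {a : Atom} :
    Hold ar S v (mapA f a) ↔ Hold ar S (fun x => v (f x)) a := by
  have key : ∀ (h1 : a.1 < l) (h2 : a.2.length = ar ⟨a.1, h1⟩),
      (fun t : Fin (ar ⟨a.1, h1⟩) => v ((a.2.map f).getD t 0)) =
        fun t : Fin (ar ⟨a.1, h1⟩) => v (f (a.2.getD t 0)) := by
    intro h1 h2
    funext t
    have ht : (t : ℕ) < a.2.length := by rw [h2]; exact t.2
    have ht' : (t : ℕ) < (a.2.map f).length := by simpa using ht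
    rw [List.getD_eq_getElem _ _ ht, List.getD_eq_getElem _ _ ht', List.getElem_map]
  constructor
  · rintro ⟨h1, h2, h3⟩
    have h2' : a.2.length = ar ⟨a.1, h1⟩ := by
      have : (mapA f a).2.length = a.2.length := by simp [mapA]
      rw [← this]; exact h2
    refine ⟨h1, h2', ?_⟩
    show S _ (fun t : Fin (ar ⟨a.1, h1⟩) => v (f (a.2.getD t 0)))
    rw [← key h1 h2']
    exact h3
  · rintro ⟨h1, h2, h3⟩
    refine ⟨h1, by simpa [mapA] using h2, ?_⟩
    show S _ (fun t : Fin (ar ⟨a.1, h1⟩) => v ((a.2.map f).getD t 0))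
    rw [key h1 h2]
    exact h3

theorem Leg_mono {X : Atom → Prop} {T T' : Finset ℕ} (h : T ⊆ T') (hL : Leg ar S X T') : Leg ar S X T := by
  obtain ⟨w, h1, h2⟩ := hL
  exact ⟨w, h1.mono (by exact_mod_cast h), fun a ha hs => h2 a ha (hs.trans h)⟩

theorem Leg_congr {X Y : Atom → Prop} {T : Finset ℕ} (h : ∀ a, WF ar a → supp a ⊆ T → (X a ↔ Y a)) :
    Leg ar S X T ↔ Leg ar S Y T := by
  constructor
  · rintro ⟨w, h1, h2⟩
    exact ⟨w, h1, fun a ha hs => (h2 a ha hs).trans (h a ha hs)⟩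
  · rintro ⟨w, h1, h2⟩
    exact ⟨w, h1, fun a ha hs => (h2 a ha hs).trans (h a ha hs).symm⟩

theorem Leg_Hold {v : ℕ → M} {T : Finset ℕ} (h : Set.InjOn v T) : Leg ar S (Hold ar S v) T :=
  ⟨v, h, fun _ _ _ => Iff.rfl⟩

end

end EF39
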