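import Mathlib

/-!
# EF39 (MP_399079_lc): deciding first-order definability in reducts of unconstrained structures

Definitions used in the final statement.

* `lang ar`, `str ar S`: the relational language with symbols `i : Fin l` of arity `ar i` and the structure on `M`
  given by relations `S i`.
* `FODef ar S R`: the relation `R ⊆ M^n` is first-order definable (without parameters) in `(M; S)`.
* `GenOrd ar S lt`: `(M; lt, S)` is homogeneous, `lt` is a linear order, generic over `(M; S)` (every finite substructure
  of `(M; S)` occurs with every ordering of its points), and the age of `(M; S)` has disjoint `n`-amalgamation for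
  all `n`.
* `QF`: quantifier free formulas over `(M; lt, S)` in disjunctive normal form, coded by lists; `QFTrue` their meaning.
-/

set_option autoImplicit false

open FirstOrder

namespace EF39

/-- relational language with symbols `i : Fin l`, the symbol `i` having arity `ar i` -/
def lang {l : ℕ} (ar : Fin l → ℕ) : FirstOrder.Language.{0, 0} := ⟨fun _ => Empty, fun n => {i : Fin l // ar i = n}⟩

/-- the structure on `M` in which the symbol `i` is interpreted by the relation `S i` -/
@[reducible] def str {l : ℕ} (ar : Fin l → ℕ) {M : Type} (S : ∀ i, (Fin (ar i) → M) → Prop) :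
    (lang ar).Structure M where
  funMap := fun f => f.elim
  RelMap := fun r x => S r.1 (fun t => x (t.cast r.2))

/-- `R` is first-order definable without parameters in the structure `(M; S)` -/
def FODef {l : ℕ} (ar : Fin l → ℕ) {M : Type} (S : ∀ i, (Fin (ar i) → M) → Prop) {n : ℕ}
    (R : (Fin n → M) → Prop) : Prop :=
  ∃ φ : (lang ar).Formula (Fin n), ∀ v, R v ↔ @FirstOrder.Language.Formula.Realize (lang ar) M (str ar S) (Fin n) φ v

/-- The structure `(M; S)` has disjoint `n`-amalgamation for all `n`, and `(M; lt, S)` is its homogeneous expansion by a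
generic linear order. -/
structure GenOrd {l : ℕ} (ar : Fin l → ℕ) {M : Type} (S : ∀ i, (Fin (ar i) → M) → Prop)
    (lt : M → M → Prop) : Prop where
  /-- `lt` is a strict linear order -/
  order : IsStrictTotalOrder M lt
  /-- every isomorphism between finite substructures of `(M; lt, S)` extends to an automorphism -/
  homog : ∀ (N : ℕ) (a b : Fin N → M), (∀ i j, lt (a i) (a j) ↔ lt (b i) (b j)) →
    (∀ i (x : Fin (ar i) → Fin N), S i (a ∘ x) ↔ S i (b ∘ x)) →
    ∃ e : M ≃ M, (∀ x y, lt (e x) (e y) ↔ lt x y) ∧ (∀ i x, S i (e ∘ x) ↔ S i x) ∧ ∀ j, e (a j) = b j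
  /-- every finite substructure of `(M; S)` is isomorphic to one whose points are ordered by `lt` in any given way -/
  generic : ∀ (N : ℕ) (a : Fin N → M) (o : Fin N → ℕ), Function.Injective a → Function.Injective o →
    ∃ b : Fin N → M, (∀ i j, lt (b i) (b j) ↔ o i < o j) ∧ ∀ i (x : Fin (ar i) → Fin N), S i (b ∘ x) ↔ S i (a ∘ x)
  /-- disjoint `N`-amalgamation: if all restrictions of the finite structure `T` on `Fin N` to proper subsets embed in
  `(M; S)`, then so does a structure on `Fin N` with the same restrictions to proper subsets -/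
  amalg : ∀ (N : ℕ) (T : ∀ i, (Fin (ar i) → Fin N) → Prop),
    (∀ j : Fin N, ∃ a : Fin N → M, Set.InjOn a {k | k ≠ j} ∧
      ∀ i (x : Fin (ar i) → Fin N), (∀ t, x t ≠ j) → (S i (a ∘ x) ↔ T i x)) →
    ∃ a : Fin N → M, Function.Injective a ∧
      ∀ i (x : Fin (ar i) → Fin N), ¬ Function.Surjective x → (S i (a ∘ x) ↔ T i x)

/-- An atomic formula over `(M; lt, S)`: a symbol number (`0` is equality, `1` the order, `i + 2` the relation `S i`) and
the list of the variables it is applied to. -/
abbrev Atom := ℕ × List ℕ

/-- A quantifier free formula in disjunctive normal form: a list of clauses, a clause being a list of atoms with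
signs. -/
abbrev QF := List (List (Bool × Atom))

/-- the atomic formula `a` holds at the tuple `v` (atoms which are not well formed count as false) -/
def AtomTrue {l : ℕ} (ar : Fin l → ℕ) {M : Type} (S : ∀ i, (Fin (ar i) → M) → Prop) (lt : M → M → Prop)
    {n : ℕ} (v : Fin n → M) : Atom → Prop
  | (0, g) => ∃ a b : Fin n, g = [(a : ℕ), (b : ℕ)] ∧ v a = v b
  | (1, g) => ∃ a b : Fin n, g = [(a : ℕ), (b : ℕ)] ∧ lt (v a) (v b)
  | (k + 2, g) => ∃ (h : k < l) (x : Fin (ar ⟨k, h⟩) → Fin n), g = List.ofFn (fun t => (x t : ℕ)) ∧
      S ⟨k, h⟩ (v ∘ x)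

/-- the quantifier free formula `φ` holds at the tuple `v` -/
def QFTrue {l : ℕ} (ar : Fin l → ℕ) {M : Type} (S : ∀ i, (Fin (ar i) → M) → Prop) (lt : M → M → Prop)
    {n : ℕ} (φ : QF) (v : Fin n → M) : Prop :=
  ∃ c ∈ φ, ∀ b ∈ c, (AtomTrue ar S lt v b.2 ↔ b.1 = true)

end EF39
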