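import Pool.Agent.EF39.Zero

/-!
# [EF39-ENDHOM] Homogenising the part after the first parameter
-/

set_option autoImplicit false

namespace EF39

/-- shift by `j` -/
def shj (i j x : ℕ) : ℕ := if x < i then x else x + j

theorem Ok_shj {i j s k : ℕ} {f : List ℕ} (his : i ≤ s) (h : Ok s f k) : Ok (s + j) (f.map (shj i j)) (k + j) := by
  induction f generalizing s with
  | nil =>
    have : s = k := h
    subst this
    rfl
  | cons a f ih =>
    rcases h with ⟨h1, h2⟩ | ⟨h1, h2⟩
    · refine Or.inl ⟨?_, ih his h2⟩
      simp only [shj]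
      split_ifs <;> omega
    · refine Or.inr ⟨?_, ?_⟩
      · simp only [shj]
        split_ifs <;> omega
      · have := ih (his.trans (Nat.le_succ s)) h2
        rw [show s + j + 1 = s + 1 + j by ring]
        exact this

theorem Ok_tail {i k : ℕ} {u w : List ℕ} (hu : ∀ x ∈ u, x < i) (h : Ok i (u ++ i :: w) (i + (k + 1))) :
    Ok (i + 1) w (i + 1 + k) := by
  induction u with
  | nil =>
    rcases h with ⟨h, -⟩ | ⟨-, h⟩
    · omega
    · rw [show i + 1 + k = i + (k + 1) by ring]
      exact h
  | cons a u ih =>
    rcases h with ⟨-, h⟩ | ⟨h, -⟩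
    · exact ih (fun x hx => hu x (by simp [hx])) h
    · have := hu a (by simp)
      omega

theorem endhom_aux (k : ℕ) (IH : ∀ (i m : ℕ) (κ : Type) [Finite κ], GRP k i m κ) (i : ℕ) (κ : Type) [Finite κ]
    (j : ℕ) : ∀ M : ℕ,
    ∃ n, ∀ χ : List ℕ → κ, ∃ f : List ℕ, f.length = n ∧ Ok i f (i + M) ∧
      ∀ u v v' : List ℕ, (∀ x ∈ u, x < i) → u.length < j → (u ++ i :: v).length = M → v'.length = v.length →
        Ok (i + 1) v (i + 1 + k) → Ok (i + 1) v' (i + 1 + k) →
        χ (f.map (sub i (u ++ i :: v))) = χ (f.map (sub i (u ++ i :: v'))) := by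
  induction j with
  | zero =>
    intro M
    exact ⟨M, fun χ => ⟨List.range' i M, by simp, Ok_range' i M, fun u v v' _ h => by omega⟩⟩
  | succ j ih =>
    intro M
    rcases Nat.lt_or_ge j M with hjM | hjM
    swap
    · obtain ⟨n, hn⟩ := ih M
      refine ⟨n, fun χ => ?_⟩
      obtain ⟨f, h1, h2, h3⟩ := hn χ
      refine ⟨f, h1, h2, ?_⟩
      intro u v v' hu _ hM hv hv1 hv2
      refine h3 u v v' hu ?_ hM hv hv1 hv2
      simp at hM
      omega
    obtain ⟨M', rfl⟩ : ∃ M', M = j + 1 + M' := ⟨M - (j + 1), by omega⟩
    let Z := {z : List ℕ | z.length ≤ j ∧ ∀ x ∈ z, x < i}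
    have : Finite Z := (finite_words i j).to_subtype
    obtain ⟨L, hL⟩ := IH (i + 1) M' (Z → κ)
    obtain ⟨n, hn⟩ := ih (j + 1 + L)
    refine ⟨n, fun χ => ?_⟩
    obtain ⟨f', h1, h2, h3⟩ := hn χ
    obtain ⟨h, hh1, hh2, hh3⟩ := hL (fun v z => χ (f'.map (sub i (z.1 ++ i :: v))))
    let f2 : List ℕ := List.range' i (j + 1) ++ h.map (shj i j)
    have hf2l : f2.length = j + 1 + L := by simp [f2, hh1]
    have hf2 : Ok i f2 (i + (j + 1 + M')) := by
      rw [Ok_append]
      refine ⟨i + (j + 1), Ok_range' i (j + 1), ?_⟩
      have := Ok_shj (j := j) (Nat.le_succ i) hh2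
      rw [show i + 1 + j = i + (j + 1) by ring, show i + 1 + M' + j = i + (j + 1 + M') by ring] at this
      exact this
    refine ⟨f'.map (sub i f2), by simp [h1], Ok_comp h2 hf2l hf2, ?_⟩
    intro u v v' hu hj hM hv hv1 hv2
    have hM' : (u ++ i :: v').length = j + 1 + M' := by
      rw [← hM]; simp [hv]
    have hfl : ∀ x ∈ f', x < i + (j + 1 + L) := Ok_lt h2
    rw [map_sub_sub hfl hf2l, map_sub_sub hfl hf2l]
    -- the first letters of the instance
    have htake : ∀ w : List ℕ, (u ++ i :: w).length = j + 1 + M' →
        (List.range' i (j + 1)).map (sub i (u ++ i :: w)) = (u ++ i :: w).take (j + 1) := by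
      intro w hw
      apply List.ext_getElem
      · simp only [List.length_map, List.length_range', List.length_take, hw]
        omega
      · intro t ht1 ht2
        have ht3 : t < (u ++ i :: w).length := by
          rw [List.length_take] at ht2
          omega
        rw [List.getElem_map, List.getElem_take, List.getElem_range']
        have : ¬ i + 1 * t < i := by omega
        simp only [sub, this, if_false]
        rw [show i + 1 * t - i = t by omega, List.getD_eq_getElem _ _ ht3]
    rcases Nat.lt_or_ge u.length j with hlt | hge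
    · -- short prefix
      have hform : ∀ w : List ℕ, (u ++ i :: w).length = j + 1 + M' → Ok (i + 1) w (i + 1 + k) →
          ∃ w', f2.map (sub i (u ++ i :: w)) = u ++ i :: w' ∧ Ok (i + 1) w' (i + 1 + k) := by
        intro w hw hwok
        have e1 : f2.map (sub i (u ++ i :: w)) =
            u ++ i :: (w.take (j - u.length) ++ (h.map (shj i j)).map (sub i (u ++ i :: w))) := by
          simp only [f2, List.map_append]
          rw [htake w hw, List.take_append]
          have e2 : j + 1 - u.length = (j - u.length) + 1 := by omega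
          rw [List.take_of_length_le (by omega), e2, List.take_succ_cons]
          simp
        refine ⟨_, e1, ?_⟩
        apply Ok_tail (k := k) hu
        rw [← e1]
        exact Ok_comp hf2 hw (Ok_mk hu hwok)
      obtain ⟨w1, e1, o1⟩ := hform v hM hv1
      obtain ⟨w2, e2, o2⟩ := hform v' hM' hv2
      rw [e1, e2]
      have l1 : (u ++ i :: w1).length = j + 1 + L := by rw [← e1]; simp [hf2l]
      have l2 : (u ++ i :: w2).length = j + 1 + L := by rw [← e2]; simp [hf2l]
      refine h3 u w1 w2 hu hlt l1 ?_ o1 o2
      simp at l1 l2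
      omega
    · -- prefix of length `j`
      have hul : u.length = j := by omega
      have hform : ∀ w : List ℕ, (u ++ i :: w).length = j + 1 + M' →
          f2.map (sub i (u ++ i :: w)) = u ++ i :: (h.map (sub (i + 1) w)) := by
        intro w hw
        simp only [f2, List.map_append]
        rw [htake w hw]
        have e1 : (u ++ i :: w).take (j + 1) = u ++ [i] := by
          rw [List.take_append, List.take_of_length_le (by omega), show j + 1 - u.length = 1 by omega]
          simp
        rw [e1]
        have e2 : (h.map (shj i j)).map (sub i (u ++ i :: w)) = h.map (sub (i + 1) w) := by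
          rw [List.map_map]
          apply List.map_congr_left
          intro x _
          simp only [Function.comp_apply, shj, sub]
          by_cases hx : x < i
          · have : x < i + 1 := by omega
            simp [hx, this]
          · by_cases hx2 : x = i
            · subst hx2
              have : ¬ x + j < x := by omega
              simp only [lt_irrefl, if_false, this, Nat.lt_succ_self, if_true]
              rw [show x + j - x = u.length by omega]
              simp
            · have h5 : ¬ x + j < i := by omega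
              have h6 : ¬ x < i + 1 := by omega
              simp only [hx, if_false, h5, h6]
              rw [show x + j - i = u.length + ((x - (i + 1)) + 1) by omega]
              simp [List.getD_eq_getElem?_getD, List.getElem?_append_right]
        rw [e2]
        simp
      rw [hform v hM, hform v' hM']
      have hz : u ∈ Z := ⟨hul.le, hu⟩
      have lv : v.length = M' := by simp at hM; omega
      exact congrFun (hh3 v v' lv (by omega) hv1 hv2) ⟨u, hz⟩

theorem endhom (k : ℕ) (IH : ∀ (i m : ℕ) (κ : Type) [Finite κ], GRP k i m κ) (i M : ℕ) (κ : Type) [Finite κ] :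
    ∃ n, ∀ χ : List ℕ → κ, ∃ f : List ℕ, f.length = n ∧ Ok i f (i + M) ∧
      ∀ u v v' : List ℕ, (∀ x ∈ u, x < i) → (u ++ i :: v).length = M → v'.length = v.length →
        Ok (i + 1) v (i + 1 + k) → Ok (i + 1) v' (i + 1 + k) →
        χ (f.map (sub i (u ++ i :: v))) = χ (f.map (sub i (u ++ i :: v'))) := by
  obtain ⟨n, hn⟩ := endhom_aux k IH i κ M M
  refine ⟨n, fun χ => ?_⟩
  obtain ⟨f, h1, h2, h3⟩ := hn χ
  refine ⟨f, h1, h2, ?_⟩
  intro u v v' hu hM hv hv1 hv2
  refine h3 u v v' hu ?_ hM hv hv1 hv2
  simp at hM
  omega

end EF39
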