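import Pool.Agent.EF39.Comp
import Pool.Agent.EF39.CertOf

/-!
# EF39: the decision procedure
-/

set_option autoImplicit false

namespace EF39

section
variable {l : ℕ} {ar : Fin l → ℕ} {M : Type} {S : ∀ i, (Fin (ar i) → M) → Prop}
variable {k : ℕ} {br : Fin k → ℕ} {T : ∀ j, (Fin (br j) → M) → Prop}

/-! ## congruence -/

theorem EvA_congr {m N : ℕ} {h o : List ℕ} {X Y : Atom → Prop} {b : Atom} (hh : ∀ x < m, h.getD x 0 < N)
    (hXY : ∀ a ∈ atomsL ar N, (X a ↔ Y a)) : EvA ar m h o X b ↔ EvA ar m h o Y b := by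
  unfold EvA
  apply or_congr Iff.rfl
  apply or_congr Iff.rfl
  apply and_congr_right
  intro _
  apply and_congr_right
  intro h1
  apply and_congr_right
  intro h2
  apply hXY
  rw [mem_atomsL]
  constructor
  · exact (WF_mapA (f := fun x => h.getD x 0) (a := (b.1 - 2, b.2))).2 h1
  · intro z hz
    rw [List.mem_map] at hz
    obtain ⟨x, hx, rfl⟩ := hz
    exact hh x (h2 x hx)

theorem EvQ_congr {m N : ℕ} {h o : List ℕ} {X Y : Atom → Prop} {φ : QF} (hh : ∀ x < m, h.getD x 0 < N)
    (hXY : ∀ a ∈ atomsL ar N, (X a ↔ Y a)) : EvQ ar m h o X φ ↔ EvQ ar m h o Y φ := by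
  unfold EvQ
  apply exists_congr
  intro c
  apply and_congr_right
  intro _
  apply forall_congr'
  intro b
  apply imp_congr_right
  intro _
  rw [EvA_congr hh hXY]

theorem Cert_congr {n r : ℕ} {la : List QF} {th : List (ℕ × QF)} {RA RB RA' RB' : List Atom → Atom → Prop}
    {s t s' t' : Atom → Prop}
    (hA : ∀ P ∈ subs (atomsS ar (n + r)), ∀ a ∈ atomsL ar (n + r), (RA P a ↔ RA' P a))
    (hB : ∀ P ∈ subs (atomsS ar (n + r)), ∀ a ∈ atomsL ar (n + r), (RB P a ↔ RB' P a))
    (hs : ∀ a ∈ atomsL ar n, (s a ↔ s' a)) (ht : ∀ a ∈ atomsL ar n, (t a ↔ t' a))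
    (h : Cert ar n r la th RA RB s t) : Cert ar n r la th RA' RB' s' t' := by
  have hsub : ∀ e ∈ subs (List.range r), ∀ a ∈ atomsL ar (n + e.length), mapA (iot n e) a ∈ atomsL ar (n + r) := by
    intro e he a ha
    rw [mem_subs_range] at he
    exact mapA_mem_atomsL ha fun x hx => iot_bound he.2 hx
  have hTl : ∀ Tl ∈ subs (List.range (n + r)), ∀ x < Tl.length, Tl.getD x 0 < n + r := by
    intro Tl hTl x hx
    rw [mem_subs_range] at hTl
    exact hTl.2 _ (getD_mem hx)
  have hc : ∀ {R R' : List Atom → Atom → Prop}, (∀ P ∈ subs (atomsS ar (n + r)), ∀ a ∈ atomsL ar (n + r),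
      (R P a ↔ R' P a)) → CompR ar n r R → CompR ar n r R' := by
    intro R R' hR h P hP P' hP' e he e' he' hee hPP a ha
    rw [← hR P hP _ (hsub e he a ha), ← hR P' hP' _ (hsub e' he' a (by rw [← hee]; exact ha))]
    exact h P hP P' hP' e he e' he' hee hPP a ha
  have hl : ∀ {R R' : List Atom → Atom → Prop}, (∀ P ∈ subs (atomsS ar (n + r)), ∀ a ∈ atomsL ar (n + r),
      (R P a ↔ R' P a)) → LegR ar n r la R → LegR ar n r la R' := by
    intro R R' hR h P hP Tl hTl' hlen
    rw [← EvQ_congr (hTl Tl hTl') (hR P hP)]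
    exact h P hP Tl hTl' hlen
  have hf : ∀ {R R' : List Atom → Atom → Prop} {sg : Bool}, (∀ P ∈ subs (atomsS ar (n + r)),
      ∀ a ∈ atomsL ar (n + r), (R P a ↔ R' P a)) → FaiR ar n r la R sg → FaiR ar n r la R' sg := by
    intro R R' sg hR h P hP Tl hTl' hlen x hx hnx hmax hsg hEv a ha hsup
    rw [← hR P hP a ha]
    apply h P hP Tl hTl' hlen x hx hnx hmax hsg _ a ha hsup
    rw [EvQ_congr (hTl Tl hTl') (Y := mixL (R' P) (fun a => a ∈ P) Tl)]
    · exact hEv
    · intro b hb
      unfold mixL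
      rw [hR P hP b hb]
  constructor
  · exact hc hA h.cA
  · exact hc hB h.cB
  · exact hl hA h.lA
  · exact hl hB h.lB
  · exact hf hA h.fA
  · exact hf hB h.fB
  · intro P hP p hp g hg
    rw [mem_listsOf] at hg
    have hg' : ∀ x < p.1, g.getD x 0 < n + r := fun x hx => hg.2 _ (getD_mem (by rw [hg.1]; exact hx))
    rw [← EvQ_congr hg' (hA P hP), ← EvQ_congr hg' (hB P hP)]
    exact h.gm P hP p hp g (mem_listsOf.2 hg)
  · intro P hP a ha
    have ha' := (mem_atomsL ar).1 ha
    rw [← hA P hP a ((mem_atomsL ar).2 ⟨ha'.1, fun x hx => (ha'.2 x hx).trans_le (by omega)⟩), ← hs a ha]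
    exact h.bA P hP a ha
  · intro P hP a ha
    have ha' := (mem_atomsL ar).1 ha
    rw [← hB P hP a ((mem_atomsL ar).2 ⟨ha'.1, fun x hx => (ha'.2 x hx).trans_le (by omega)⟩), ← ht a ha]
    exact h.bB P hP a ha

/-! ## semantics of the quantifier free formulas -/

theorem atom_sem {lt : M → M → Prop} {n N : ℕ} {v : ℕ → M} (hv : Set.InjOn v (Finset.range N)) {π o : List ℕ}
    (hπ : ∀ x < n, π.getD x 0 < N)
    (ho : ∀ i < N, ∀ j < N, (o.getD i 0 < o.getD j 0 ↔ lt (v i) (v j))) (b : Atom) :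
    AtomTrue ar S lt (fun i : Fin n => v (π.getD i 0)) b ↔ EvA ar n π o (Hold ar S v) b := by
  obtain ⟨i, g⟩ := b
  match i with
  | 0 =>
    simp only [AtomTrue, EvA, true_and]
    constructor
    · rintro ⟨a, b, rfl, h⟩
      left
      refine ⟨rfl, ?_, ?_⟩
      · intro x hx
        simp only [List.mem_cons, List.not_mem_nil, or_false] at hx
        rcases hx with rfl | rfl
        · exact a.2
        · exact b.2
      · exact hv (by simpa using hπ a a.2) (by simpa using hπ b b.2) h
    · rintro (⟨h1, h2, h3⟩ | ⟨h1, _⟩ | ⟨h1, _⟩)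
      · match g, h1, h2, h3 with
        | [x, y], _, h2, h3 =>
          refine ⟨⟨x, h2 x (by simp)⟩, ⟨y, h2 y (by simp)⟩, rfl, ?_⟩
          exact congrArg v h3
      · exact absurd h1 (by decide)
      · exact absurd h1 (by decide)
  | 1 =>
    simp only [AtomTrue, EvA, true_and]
    constructor
    · rintro ⟨a, b, rfl, h⟩
      right
      left
      refine ⟨rfl, ?_, ?_⟩
      · intro x hx
        simp only [List.mem_cons, List.not_mem_nil, or_false] at hx
        rcases hx with rfl | rfl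
        · exact a.2
        · exact b.2
      · exact (ho _ (hπ a a.2) _ (hπ b b.2)).2 h
    · rintro (⟨h1, _⟩ | ⟨h1, h2, h3⟩ | ⟨h1, _⟩)
      · exact absurd h1 (by decide)
      · match g, h1, h2, h3 with
        | [x, y], _, h2, h3 =>
          have hx := h2 x (by simp)
          have hy := h2 y (by simp)
          refine ⟨⟨x, hx⟩, ⟨y, hy⟩, rfl, ?_⟩
          exact (ho _ (hπ x hx) _ (hπ y hy)).1 h3
      · exact absurd h1 (by decide)
  | k + 2 =>
    simp only [AtomTrue, EvA]
    have e1 : k + 2 ≠ 0 := by omega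
    have e2 : k + 2 ≠ 1 := by omega
    have e3 : 2 ≤ k + 2 := by omega
    simp only [e1, e2, e3, false_and, false_or, true_and, Nat.add_sub_cancel]
    constructor
    · rintro ⟨h, x, rfl, hS⟩
      refine ⟨WF_atm (⟨k, h⟩ : Fin l) (fun t => (x t : ℕ)), ?_, ?_⟩
      · intro z hz
        rw [List.mem_ofFn] at hz
        obtain ⟨t, rfl⟩ := hz
        exact (x t).2
      · have h1 : ((k, List.map (fun x => π.getD x 0) (List.ofFn fun t => (x t : ℕ))) : Atom) =
            atm (⟨k, h⟩ : Fin l) (fun t => π.getD (x t) 0) := by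
          unfold atm
          rw [List.map_ofFn]
          rfl
        rw [h1, Hold_atm]
        exact hS
    · rintro ⟨h1, h2, h3⟩
      obtain ⟨i, x, hx⟩ := exists_atm h1
      have hk : k = (i : ℕ) := congrArg Prod.fst hx
      have hg : g = List.ofFn x := congrArg Prod.snd hx
      subst hk
      subst hg
      have hx' : ∀ t, x t < n := fun t => h2 _ (by
        rw [List.mem_ofFn]
        exact ⟨t, rfl⟩)
      refine ⟨i.2, fun t => ⟨x t, hx' t⟩, rfl, ?_⟩
      have h4 : (((i : ℕ), List.map (fun x => π.getD x 0) (List.ofFn x)) : Atom) =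
          atm i (fun t => π.getD (x t) 0) := by
        unfold atm
        rw [List.map_ofFn]
        rfl
      rw [h4, Hold_atm] at h3
      exact h3

theorem qf_sem {lt : M → M → Prop} {n N : ℕ} {v : ℕ → M} (hv : Set.InjOn v (Finset.range N)) {π o : List ℕ}
    (hπ : ∀ x < n, π.getD x 0 < N)
    (ho : ∀ i < N, ∀ j < N, (o.getD i 0 < o.getD j 0 ↔ lt (v i) (v j))) (φ : QF) :
    QFTrue ar S lt φ (fun i : Fin n => v (π.getD i 0)) ↔ EvQ ar n π o (Hold ar S v) φ := by
  unfold QFTrue EvQ
  apply exists_congr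
  intro c
  apply and_congr_right
  intro _
  apply forall_congr'
  intro b
  apply imp_congr_right
  intro _
  rw [atom_sem hv hπ ho]

/-- the order pattern of a tuple -/
theorem exists_rank {lt : M → M → Prop} (hord : IsStrictTotalOrder M lt) {N : ℕ} {v : ℕ → M}
    (hv : Set.InjOn v (Finset.range N)) :
    ∃ o ∈ listsOf N N, (∀ i ∈ List.range N, ∀ j ∈ List.range N, o.getD i 0 = o.getD j 0 → i = j) ∧
      ∀ i < N, ∀ j < N, (o.getD i 0 < o.getD j 0 ↔ lt (v i) (v j)) := by
  classical
  let rnk : ℕ → ℕ := fun i => ((Finset.range N).filter (fun j => lt (v j) (v i))).card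
  have hrnk : ∀ i < N, ∀ j < N, lt (v i) (v j) → rnk i < rnk j := by
    intro i hi j hj hij
    apply Finset.card_lt_card
    rw [Finset.ssubset_iff_of_subset]
    · refine ⟨i, by simp [hi, hij], ?_⟩
      simp [irrefl_of lt (v i)]
    · intro z hz
      simp only [Finset.mem_filter] at hz ⊢
      exact ⟨hz.1, trans_of lt hz.2 hij⟩
  have hrnk_lt : ∀ i < N, rnk i < N := by
    intro i hi
    have h1 : rnk i < (Finset.range N).card := by
      apply Finset.card_lt_card
      rw [Finset.ssubset_iff_of_subset (Finset.filter_subset _ _)]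
      exact ⟨i, by simp [hi], by simp [irrefl_of lt (v i)]⟩
    simpa using h1
  have hget : ∀ i < N, ((List.range N).map rnk).getD i 0 = rnk i := by
    intro i hi
    rw [List.getD_eq_getElem _ _ (by simpa using hi)]
    simp
  have hiff : ∀ i < N, ∀ j < N, (rnk i < rnk j ↔ lt (v i) (v j)) := by
    intro i hi j hj
    refine ⟨fun hij => ?_, hrnk i hi j hj⟩
    rcases trichotomous_of lt (v i) (v j) with h1 | h1 | h1
    · exact h1
    · have : i = j := hv (by simp [hi]) (by simp [hj]) h1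
      subst this
      exact absurd hij (lt_irrefl _)
    · exact absurd hij (not_lt.2 (hrnk j hj i hi h1).le)
  refine ⟨(List.range N).map rnk, ?_, ?_, ?_⟩
  · rw [mem_listsOf]
    refine ⟨by simp, ?_⟩
    intro x hx
    simp only [List.mem_map, List.mem_range] at hx
    obtain ⟨i, hi, rfl⟩ := hx
    exact hrnk_lt i hi
  · intro i hi j hj hij
    rw [List.mem_range] at hi hj
    rw [hget i hi, hget j hj] at hij
    rcases trichotomous_of lt (v i) (v j) with h1 | h1 | h1
    · exact absurd hij (hrnk i hi j hj h1).ne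
    · exact hv (by simp [hi]) (by simp [hj]) h1
    · exact absurd hij (hrnk j hj i hi h1).ne'
  · intro i hi j hj
    rw [hget i hi, hget j hj]
    exact hiff i hi j hj

/-- realization of a diagram with an order pattern -/
theorem exists_real [Nonempty M] {lt : M → M → Prop} (h : GenOrd ar S lt) {N : ℕ} {s : Atom → Prop}
    (hs : Leg ar S s (Finset.range N)) {o : List ℕ}
    (ho : ∀ i ∈ List.range N, ∀ j ∈ List.range N, o.getD i 0 = o.getD j 0 → i = j) :
    ∃ v : ℕ → M, Set.InjOn v (Finset.range N) ∧ (∀ a ∈ atomsL ar N, (Hold ar S v a ↔ s a)) ∧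
      ∀ i < N, ∀ j < N, (o.getD i 0 < o.getD j 0 ↔ lt (v i) (v j)) := by
  classical
  have hord := h.order
  obtain ⟨w, hw1, hw2⟩ := hs
  let o' : Fin N → ℕ := fun i => o.getD i 0
  have ho' : Function.Injective o' := by
    intro i j hij
    exact Fin.ext (ho i (by simp) j (by simp) hij)
  obtain ⟨b, hb1, hb2⟩ := h.generic N (fun i => w i) o'
    (fun i j hij => Fin.ext (hw1 (by simp) (by simp) hij)) ho'
  have hbinj : Function.Injective b := by
    intro i j hij
    by_contra hne
    have h1 : o' i ≠ o' j := fun h2 => hne (ho' h2)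
    rcases lt_or_gt_of_ne h1 with h2 | h2
    · have := (hb1 i j).2 h2
      rw [hij] at this
      exact irrefl_of lt _ this
    · have := (hb1 j i).2 h2
      rw [hij] at this
      exact irrefl_of lt _ this
  let m0 : M := Classical.arbitrary M
  refine ⟨fun i => if hi : i < N then b ⟨i, hi⟩ else m0, ?_, ?_, ?_⟩
  · intro i hi j hj hij
    have hi' : i < N := by simpa using hi
    have hj' : j < N := by simpa using hj
    simp only [hi', hj', dif_pos] at hij
    exact congrArg Fin.val (hbinj hij)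
  · intro a ha
    rw [mem_atomsL] at ha
    obtain ⟨i, x, rfl⟩ := exists_atm ha.1
    have hx : ∀ t, x t < N := fun t => ha.2 _ (by
      rw [mem_atm]
      exact ⟨t, rfl⟩)
    have h1 := hb2 i (fun t => ⟨x t, hx t⟩)
    have h2 := hw2 (atm i x) (WF_atm _ _) (supp_subset_range.2 ha.2)
    rw [Hold_atm] at h2
    rw [Hold_atm]
    have h4 : (fun t => (fun i => if hi : i < N then b ⟨i, hi⟩ else m0) (x t)) =
        fun t => b ⟨x t, hx t⟩ := by
      funext t
      simp [hx t]
    rw [h4]
    exact h1.trans h2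
  · intro i hi j hj
    simp only [hi, hj, dif_pos]
    exact (hb1 ⟨i, hi⟩ ⟨j, hj⟩).symm

end

/-! ## the decision procedure -/

section
variable {l : ℕ} (ar : Fin l → ℕ) (r : ℕ) (la : List QF) (th : List (ℕ × QF))

/-- the list of all pairs (play, atom) -/
def mast (n : ℕ) : List (List Atom × Atom) :=
  (subs (atomsS ar (n + r))).flatMap (fun P => (atomsL ar (n + r)).map (fun a => (P, a)))

/-- the coded certificates -/
def CertC (n : ℕ) (s t : List Atom) (RA RB : List (List Atom × Atom)) : Prop :=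
  CompR ar n r (RcP RA) ∧ CompR ar n r (RcP RB) ∧ LegR ar n r la (RcP RA) ∧ LegR ar n r la (RcP RB) ∧
    FaiR ar n r la (RcP RA) true ∧ FaiR ar n r la (RcP RB) false ∧ GamR ar n r th (RcP RA) (RcP RB) ∧
    BasR ar n r (RcP RA) (fun a => a ∈ s) ∧ BasR ar n r (RcP RB) (fun a => a ∈ t)

theorem CertC_iff {n : ℕ} {s t : List Atom} {RA RB : List (List Atom × Atom)} :
    CertC ar r la th n s t RA RB ↔
      Cert ar n r la th (RcP RA) (RcP RB) (fun a => a ∈ s) (fun a => a ∈ t) := by
  constructor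
  · rintro ⟨h1, h2, h3, h4, h5, h6, h7, h8, h9⟩
    exact ⟨h1, h2, h3, h4, h5, h6, h7, h8, h9⟩
  · rintro ⟨h1, h2, h3, h4, h5, h6, h7, h8, h9⟩
    exact ⟨h1, h2, h3, h4, h5, h6, h7, h8, h9⟩

/-- there is a certificate -/
def HasC (n : ℕ) (s t : List Atom) : Prop :=
  ∃ RA ∈ subs (mast ar r n), ∃ RB ∈ subs (mast ar r n), CertC ar r la th n s t RA RB

/-- the relation defined by the formula distinguishes two tuples of the same type -/
def Undef (x : ℕ × QF) : Prop :=
  ∃ n' ∈ List.range (x.1 + 1), ∃ π ∈ listsOf x.1 n', ∃ o1 ∈ listsOf n' n', ∃ o2 ∈ listsOf n' n',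
    (∀ i ∈ List.range n', ∀ j ∈ List.range n', o1.getD i 0 = o1.getD j 0 → i = j) ∧
    (∀ i ∈ List.range n', ∀ j ∈ List.range n', o2.getD i 0 = o2.getD j 0 → i = j) ∧
    ∃ s ∈ subs (atomsL ar n'), ∃ t ∈ subs (atomsL ar n'),
      EvQ ar x.1 π o1 (fun a => a ∈ s) x.2 ∧ ¬ EvQ ar x.1 π o2 (fun a => a ∈ t) x.2 ∧ HasC ar r la th n' s t

theorem pp_HasC {α : Type} [Primcodable α] {n : α → ℕ} {s t : α → List Atom} (hn : Primrec n) (hs : Primrec s)
    (ht : Primrec t) : PrimrecPred (fun x => HasC ar r la th (n x) (s x) (t x)) := by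
  have hm : ∀ {β : Type} [Primcodable β] {g : β → ℕ}, Primrec g → Primrec (fun x => mast ar r (g x)) := by
    intro β _ g hg
    unfold mast
    apply pr_flatMap (pr_subs (pr_atomsS ar (pr_add hg (Primrec.const r))))
    apply pr_map (pr_atomsL ar (pr_add (hg.comp Primrec.fst) (Primrec.const r)))
    exact pr_pair (pr_snd Primrec.fst) Primrec.snd
  unfold HasC
  apply pp_exists (pr_subs (hm hn))
  apply pp_exists (pr_subs (hm (hn.comp Primrec.fst)))
  have p0 : Primrec (fun x : (α × List (List Atom × Atom)) × List (List Atom × Atom) => x.1.1) :=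
    pr_fst Primrec.fst
  have pA : Primrec (fun x : (α × List (List Atom × Atom)) × List (List Atom × Atom) => x.1.2) :=
    pr_snd Primrec.fst
  have pB : Primrec (fun x : (α × List (List Atom × Atom)) × List (List Atom × Atom) => x.2) := Primrec.snd
  unfold CertC
  apply pp_and (pp_CompR ar r (hn.comp p0) pA)
  apply pp_and (pp_CompR ar r (hn.comp p0) pB)
  apply pp_and (pp_LegR ar r la (hn.comp p0) pA)
  apply pp_and (pp_LegR ar r la (hn.comp p0) pB)
  apply pp_and (pp_FaiR ar r la true (hn.comp p0) pA)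
  apply pp_and (pp_FaiR ar r la false (hn.comp p0) pB)
  apply pp_and (pp_GamR ar r th (hn.comp p0) pA pB)
  apply pp_and (pp_BasR ar r (hn.comp p0) pA (hs.comp p0))
  exact pp_BasR ar r (hn.comp p0) pB (ht.comp p0)

theorem pp_Undef : PrimrecPred (Undef ar r la th) := by
  have hinj : ∀ {β : Type} [Primcodable β] {g : β → ℕ} {o : β → List ℕ}, Primrec g → Primrec o →
      PrimrecPred (fun x => ∀ i ∈ List.range (g x), ∀ j ∈ List.range (g x),
        (o x).getD i 0 = (o x).getD j 0 → i = j) := by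
    intro β _ g o hg ho
    apply pp_forall (pr_range hg)
    apply pp_forall (pr_range (hg.comp Primrec.fst))
    have q0 : Primrec (fun x : (β × ℕ) × ℕ => x.1.1) := pr_fst Primrec.fst
    have qi : Primrec (fun x : (β × ℕ) × ℕ => x.1.2) := pr_snd Primrec.fst
    have qj : Primrec (fun x : (β × ℕ) × ℕ => x.2) := Primrec.snd
    apply pp_imp
    · exact pp_eq (pr_getD (ho.comp q0) qi) (pr_getD (ho.comp q0) qj)
    · exact pp_eq qi qj
  unfold Undef
  apply pp_exists (pr_range (pr_add Primrec.fst (Primrec.const 1)))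
  apply pp_exists (pr_listsOf (pr_fst Primrec.fst) Primrec.snd)
  apply pp_exists (pr_listsOf (pr_snd Primrec.fst) (pr_snd Primrec.fst))
  apply pp_exists (pr_listsOf (pr_snd (pr_fst Primrec.fst)) (pr_snd (pr_fst Primrec.fst)))
  apply pp_and (hinj (pr_snd (pr_fst (pr_fst Primrec.fst))) (pr_snd Primrec.fst))
  apply pp_and (hinj (pr_snd (pr_fst (pr_fst Primrec.fst))) Primrec.snd)
  apply pp_exists (pr_subs (pr_atomsL ar (pr_snd (pr_fst (pr_fst Primrec.fst)))))
  apply pp_exists (pr_subs (pr_atomsL ar (pr_snd (pr_fst (pr_fst (pr_fst Primrec.fst))))))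
  have px : Primrec (fun x : ((((((ℕ × QF) × ℕ) × List ℕ) × List ℕ) × List ℕ) × List Atom) × List Atom =>
    x.1.1.1.1.1.1) := pr_fst (pr_fst (pr_fst (pr_fst (pr_fst Primrec.fst))))
  have pn : Primrec (fun x : ((((((ℕ × QF) × ℕ) × List ℕ) × List ℕ) × List ℕ) × List Atom) × List Atom =>
    x.1.1.1.1.1.2) := pr_snd (pr_fst (pr_fst (pr_fst (pr_fst Primrec.fst))))
  have pπ : Primrec (fun x : ((((((ℕ × QF) × ℕ) × List ℕ) × List ℕ) × List ℕ) × List Atom) × List Atom =>
    x.1.1.1.1.2) := pr_snd (pr_fst (pr_fst (pr_fst Primrec.fst)))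
  have po1 : Primrec (fun x : ((((((ℕ × QF) × ℕ) × List ℕ) × List ℕ) × List ℕ) × List Atom) × List Atom =>
    x.1.1.1.2) := pr_snd (pr_fst (pr_fst Primrec.fst))
  have po2 : Primrec (fun x : ((((((ℕ × QF) × ℕ) × List ℕ) × List ℕ) × List ℕ) × List Atom) × List Atom =>
    x.1.1.2) := pr_snd (pr_fst Primrec.fst)
  have ps : Primrec (fun x : ((((((ℕ × QF) × ℕ) × List ℕ) × List ℕ) × List ℕ) × List Atom) × List Atom =>
    x.1.2) := pr_snd Primrec.fst
  have pt : Primrec (fun x : ((((((ℕ × QF) × ℕ) × List ℕ) × List ℕ) × List ℕ) × List Atom) × List Atom =>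
    x.2) := Primrec.snd
  apply pp_and
  · apply pp_EvQ ar (pr_fst px) pπ po1
    · exact pp_mem Primrec.snd (ps.comp Primrec.fst)
    · exact pr_snd px
  apply pp_and
  · apply pp_not
    apply pp_EvQ ar (pr_fst px) pπ po2
    · exact pp_mem Primrec.snd (pt.comp Primrec.fst)
    · exact pr_snd px
  · exact pp_HasC ar r la th pn ps pt

end

section
variable {l : ℕ} {ar : Fin l → ℕ} {M : Type} {S : ∀ i, (Fin (ar i) → M) → Prop}
variable {k : ℕ} {br : Fin k → ℕ} {T : ∀ j, (Fin (br j) → M) → Prop}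

theorem undef_iff [Nonempty M] {lt : M → M → Prop} (h : GenOrd ar S lt) (hT : ∀ j, FODef ar S (T j))
    (D : Pack ar S br T) (n : ℕ) (φ : QF) :
    Undef ar D.r D.la D.thl (n, φ) ↔ ¬ FODef br T (fun v : Fin n → M => QFTrue ar S lt φ v) := by
  classical
  have hN := nice_of h
  rw [fodef_iff hN hT]
  push Not
  constructor
  · rintro ⟨n', -, π, hπ, o1, ho1, o2, ho2, hi1, hi2, s, hs, t, ht, hE1, hE2, RA, hRA, RB, hRB, hC⟩
    rw [CertC_iff] at hC
    rw [mem_listsOf] at hπ
    have hπ' : ∀ x < n, π.getD x 0 < n' := fun x hx => hπ.2 _ (getD_mem (by rw [hπ.1]; exact hx))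
    -- the diagrams are legal
    have hleg : ∀ (R : List Atom → Atom → Prop) (s : List Atom), LegR ar n' D.r D.la R →
        BasR ar n' D.r R (fun a => a ∈ s) → Leg ar S (fun a => a ∈ s) (Finset.range n') := by
      intro R s hL hB
      have hP := cd_mem_subs ar (n := n') (r := D.r) (P := fun _ => False) (e := [])
      apply leg_all hN D.har
      intro T' hT' hTc
      have h1 := leg_of_LegR D hL hP (A := T') (hT'.trans (by
        intro z hz
        rw [Finset.mem_range] at hz ⊢
        omega)) hTc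
      rw [Leg_congr (Y := fun a => a ∈ s)] at h1
      · exact h1
      · intro a ha hsup
        exact hB _ hP a ((mem_atomsL ar).2 ⟨ha, supp_subset_range.1 (hsup.trans hT')⟩)
    obtain ⟨v, hv1, hv2, hv3⟩ := exists_real h (hleg _ s hC.lA hC.bA) hi1
    obtain ⟨w, hw1, hw2, hw3⟩ := exists_real h (hleg _ t hC.lB hC.bB) hi2
    have hET := cert_to hN D hC hv1 hw1 hv2 hw2
    refine ⟨fun i => v (π.getD i 0), fun i => w (π.getD i 0), ET_comp hET (fun i => π.getD i 0) hπ', ?_, ?_⟩
    · rw [qf_sem hv1 hπ' hv3, EvQ_congr hπ' hv2]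
      exact hE1
    · rw [qf_sem hw1 hπ' hw3, EvQ_congr hπ' hw2]
      exact hE2
  · rintro ⟨x, y, hxy, hx, hy⟩
    obtain ⟨n', π, σ, h1, h2, h3, h4, h5, h6, h7, h8⟩ := exists_red x y n
      (fun i hi j hj => ET_eq hxy hi hj)
    have hET : ET br T n' (fun i => x (σ i)) (fun i => y (σ i)) := ET_comp hxy σ h3
    obtain ⟨o1, ho1, hi1, hq1⟩ := exists_rank h.order h7
    obtain ⟨o2, ho2, hi2, hq2⟩ := exists_rank h.order h8
    obtain ⟨RA, RB, hC⟩ := cert_of hN hT D h7 hET
    have hπl : ∀ i < n, ((List.range n).map π).getD i 0 = π i := by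
      intro i hi
      rw [List.getD_eq_getElem _ _ (by simpa using hi)]
      simp
    have hπ' : ∀ i < n, ((List.range n).map π).getD i 0 < n' := fun i hi => by
      rw [hπl i hi]
      exact h2 i hi
    have hdiag : ∀ u : ℕ → M, ∀ a ∈ atomsL ar n', (Hold ar S u a ↔
        a ∈ (atomsL ar n').filter (fun a => decide (Hold ar S u a))) := by
      intro u a ha
      simp [ha]
    have hrc : ∀ R : List Atom → Atom → Prop, ∀ P ∈ subs (atomsS ar (n' + D.r)), ∀ a ∈ atomsL ar (n' + D.r),
        (R P a ↔ RcP ((mast ar D.r n').filter (fun p => decide (R p.1 p.2))) P a) := by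
      intro R P hP a ha
      unfold RcP
      rw [List.mem_filter]
      have h9 : (P, a) ∈ mast ar D.r n' := by
        unfold mast
        rw [List.mem_flatMap]
        exact ⟨P, hP, List.mem_map.2 ⟨a, ha, rfl⟩⟩
      simp [h9]
    refine ⟨n', ?_, (List.range n).map π, ?_, o1, ho1, o2, ho2, hi1, hi2,
      (atomsL ar n').filter (fun a => decide (Hold ar S (fun i => x (σ i)) a)), mem_subs.2 List.filter_sublist,
      (atomsL ar n').filter (fun a => decide (Hold ar S (fun i => y (σ i)) a)), mem_subs.2 List.filter_sublist,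
      ?_, ?_, (mast ar D.r n').filter (fun p => decide (RA p.1 p.2)), mem_subs.2 List.filter_sublist,
      (mast ar D.r n').filter (fun p => decide (RB p.1 p.2)), mem_subs.2 List.filter_sublist, ?_⟩
    · rw [List.mem_range]
      show n' < n + 1
      omega
    · rw [mem_listsOf]
      refine ⟨by simp, ?_⟩
      intro z hz
      simp only [List.mem_map, List.mem_range] at hz
      obtain ⟨i, hi, rfl⟩ := hz
      exact h2 i hi
    · show EvQ ar n _ _ _ φ
      rw [← EvQ_congr hπ' (hdiag _), ← qf_sem h7 hπ' hq1]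
      have h9 : (fun i : Fin n => x (σ (((List.range n).map π).getD i 0))) = fun i : Fin n => x i := by
        funext i
        rw [hπl i i.2]
        exact h5 i i.2
      rw [h9]
      exact hx
    · show ¬ EvQ ar n _ _ _ φ
      rw [← EvQ_congr hπ' (hdiag _), ← qf_sem h8 hπ' hq2]
      have h9 : (fun i : Fin n => y (σ (((List.range n).map π).getD i 0))) = fun i : Fin n => y i := by
        funext i
        rw [hπl i i.2]
        exact h6 i i.2
      rw [h9]
      exact hy
    · rw [CertC_iff]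
      exact Cert_congr (hrc RA) (hrc RB) (hdiag _) (hdiag _) hC

/-- **Decidability of first-order definability in a reduct.** -/
theorem expr_decidable {l : ℕ} (ar : Fin l → ℕ) {M : Type} [Nonempty M] (S : ∀ i, (Fin (ar i) → M) → Prop)
    (lt : M → M → Prop) (h : GenOrd ar S lt) {k : ℕ} (br : Fin k → ℕ) (T : ∀ j, (Fin (br j) → M) → Prop)
    (hT : ∀ j, FODef ar S (T j)) :
    ComputablePred (fun x : ℕ × QF => FODef br T (fun v : Fin x.1 → M => QFTrue ar S lt x.2 v)) := by
  obtain ⟨D⟩ := exists_pack (br := br) (T := T) (nice_of h) hT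
  have h1 : PrimrecPred (fun x : ℕ × QF => ¬ Undef ar D.r D.la D.thl x) := pp_not (pp_Undef ar D.r D.la D.thl)
  have h2 : (fun x : ℕ × QF => ¬ Undef ar D.r D.la D.thl x) =
      fun x : ℕ × QF => FODef br T (fun v : Fin x.1 → M => QFTrue ar S lt x.2 v) := by
    funext x
    apply propext
    have := undef_iff h hT D x.1 x.2
    rw [show (x.1, x.2) = x from rfl] at this
    rw [this, not_not]
  rw [← h2]
  obtain ⟨hd, hp⟩ := h1
  exact ⟨hd, hp.to_comp⟩

end

end EF39
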