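import Pool.Agent.EF39.Blk
import Pool.Agent.EF39.EndHom

/-!
# [EF39-GR] The Graham-Rothschild theorem for parameter words
-/

set_option autoImplicit false

namespace EF39

/-- The word which has the parameters `t, t+1, ...` (at most `m` of them) at the first places marked `true`, and `0`
elsewhere. -/
def selW : List Bool → ℕ → ℕ → List ℕ
  | [], _, _ => []
  | true :: b, t, m + 1 => t :: selW b (t + 1) m
  | true :: b, t, 0 => 0 :: selW b t 0
  | false :: b, t, m => 0 :: selW b t m

theorem selW_length (b : List Bool) (t m : ℕ) : (selW b t m).length = b.length := by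
  induction b generalizing t m with
  | nil => rfl
  | cons x b ih =>
    cases x <;> cases m <;> simp [selW, ih]

theorem Ok_selW {b : List Bool} {t m : ℕ} (ht : 1 ≤ t) (hm : m ≤ b.count true) : Ok t (selW b t m) (t + m) := by
  induction b generalizing t m with
  | nil =>
    have : m = 0 := by simpa using hm
    subst this
    rfl
  | cons x b ih =>
    cases x with
    | false =>
      have hm' : m ≤ b.count true := by simpa using hm
      cases m with
      | zero => exact Or.inl ⟨ht, ih ht hm'⟩
      | succ m => exact Or.inl ⟨ht, ih ht hm'⟩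
    | true =>
      cases m with
      | zero => exact Or.inl ⟨ht, ih ht (Nat.zero_le _)⟩
      | succ m =>
        have hm' : m ≤ b.count true := by simpa using hm
        refine Or.inr ⟨rfl, ?_⟩
        rw [show t + (m + 1) = t + 1 + m by ring]
        exact ih (by omega) hm'

/-- the instances of `selW` -/
theorem selW_inst {i : ℕ} (hi : 1 ≤ i) (g : List ℕ) {b : List Bool} {t m : ℕ} {u v : List ℕ}
    (hg : g.drop t = u ++ i :: v) (hu : ∀ x ∈ u, x < i) (hm : (u ++ i :: v).length = m)
    (hc : m ≤ b.count true) :
    ∃ U V, (selW b (i + t) m).map (sub i g) = U ++ i :: V ∧ (∀ x ∈ U, x < i) ∧ b[U.length]? = some true := by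
  induction b generalizing t m u with
  | nil =>
    exfalso
    simp at hm hc
    omega
  | cons x b ih =>
    cases x with
    | false =>
      have hm' : m ≤ b.count true := by simpa using hc
      obtain ⟨U, V, h1, h2, h3⟩ := ih hg hu hm hm'
      refine ⟨0 :: U, V, ?_, ?_, by simpa using h3⟩
      · have : selW (false :: b) (i + t) m = 0 :: selW b (i + t) m := by cases m <;> rfl
        rw [this, List.map_cons, h1]
        have : sub i g 0 = 0 := by
          have : 0 < i := hi
          simp [sub, this]
        rw [this]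
        rfl
      · intro x hx
        rcases List.mem_cons.1 hx with rfl | hx
        · exact hi
        · exact h2 x hx
    | true =>
      cases m with
      | zero => simp at hm
      | succ m =>
        have hm' : m ≤ b.count true := by simpa using hc
        have hsel : selW (true :: b) (i + t) (m + 1) = (i + t) :: selW b (i + (t + 1)) m := rfl
        have hnl : ¬ i + t < i := by omega
        have hhead : sub i g (i + t) = (u ++ i :: v).getD 0 0 := by
          simp only [sub, hnl, if_false]
          rw [← hg, show i + t - i = t by omega]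
          simp [List.getD_eq_getElem?_getD]
        cases u with
        | nil =>
          refine ⟨[], (selW b (i + (t + 1)) m).map (sub i g), ?_, by simp, rfl⟩
          rw [hsel, List.map_cons, hhead]
          rfl
        | cons a u =>
          have hdrop : g.drop (t + 1) = u ++ i :: v := by
            have : g.drop (t + 1) = (g.drop t).drop 1 := by rw [List.drop_drop]
            rw [this, hg]
            rfl
          obtain ⟨U, V, h1, h2, h3⟩ := ih hdrop (fun x hx => hu x (by simp [hx])) (by simpa using hm) hm'
          refine ⟨a :: U, V, ?_, ?_, by simpa using h3⟩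
          · rw [hsel, List.map_cons, hhead, h1]
            rfl
          · intro x hx
            rcases List.mem_cons.1 hx with rfl | hx
            · exact hu x (by simp)
            · exact h2 x hx

/-- pigeonhole: `m` indices with the same colour -/
theorem pigeon (m : ℕ) (κ : Type) [Finite κ] :
    ∃ q, ∀ γ : ℕ → κ, ∃ b : List Bool, b.length = q ∧ m ≤ b.count true ∧
      ∃ c : κ, ∀ y, b[y]? = some true → γ y = c := by
  classical
  have := Fintype.ofFinite κ
  refine ⟨Fintype.card κ * m, fun γ => ?_⟩
  rcases isEmpty_or_nonempty κ with hκ | hκ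
  · exact hκ.elim (γ 0)
  obtain ⟨c, -, hc⟩ := Finset.exists_le_card_fiber_of_mul_le_card_of_maps_to
    (s := Finset.range (Fintype.card κ * m)) (t := (Finset.univ : Finset κ)) (f := γ) (n := m)
    (fun _ _ => Finset.mem_univ _) Finset.univ_nonempty (by simp)
  refine ⟨(List.range (Fintype.card κ * m)).map (fun y => decide (γ y = c)), by simp, ?_, c, ?_⟩
  · refine hc.trans (le_of_eq ?_)
    rw [List.count_eq_countP, List.countP_map, List.countP_eq_length_filter]
    rw [Finset.card_def]
    simp [Finset.filter, Finset.range, Multiset.range, Function.comp_def]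
  · intro y hy
    simp only [List.getElem?_map, Option.map_eq_some_iff] at hy
    obtain ⟨z, hz1, hz2⟩ := hy
    rw [List.getElem?_range] at hz1
    · simp at hz1 hz2
      rw [hz1]
      exact hz2
    · by_contra hlt
      rw [List.getElem?_eq_none (by simpa using hlt)] at hz1
      simp at hz1

theorem gr_step (k : ℕ) (IH : ∀ (i m : ℕ) (κ : Type) [Finite κ], GRP k i m κ) (i m : ℕ) (κ : Type) [Finite κ] :
    GRP (k + 1) i m κ := by
  classical
  rcases Nat.eq_zero_or_pos i with rfl | hi
  · obtain ⟨n, hn⟩ := endhom k IH 0 m κ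
    refine ⟨n, fun χ => ?_⟩
    obtain ⟨f, h1, h2, h3⟩ := hn χ
    refine ⟨f, h1, h2, ?_⟩
    intro g g' hg hg' hok hok'
    obtain ⟨u, v, rfl, hu, hv⟩ := Ok_split hok
    obtain ⟨u', v', rfl, hu', hv'⟩ := Ok_split hok'
    have e : u = [] := List.eq_nil_iff_forall_not_mem.2 fun x hx => absurd (hu x hx) (Nat.not_lt_zero x)
    have e' : u' = [] := List.eq_nil_iff_forall_not_mem.2 fun x hx => absurd (hu' x hx) (Nat.not_lt_zero x)
    subst e
    subst e'
    refine h3 [] v v' (by simp) hg ?_ hv hv'
    simp at hg hg'
    omega
  · obtain ⟨q, hq⟩ := pigeon m κ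
    obtain ⟨nB, hB⟩ := blk i hi q κ
    obtain ⟨n, hn⟩ := endhom k IH i nB κ
    refine ⟨n, fun χ => ?_⟩
    obtain ⟨fA, hA1, hA2, hA3⟩ := hn χ
    let Q : List ℕ → List ℕ → Prop := fun u v => (u ++ i :: v).length = nB ∧ Ok (i + 1) v (i + 1 + k)
    let χB : List ℕ → κ := fun u => if h : ∃ v, Q u v then χ (fA.map (sub i (u ++ i :: h.choose))) else χ []
    have hχB : ∀ u v, (∀ x ∈ u, x < i) → Q u v → χB u = χ (fA.map (sub i (u ++ i :: v))) := by
      intro u v hu hv
      have hex : ∃ v, Q u v := ⟨v, hv⟩
      simp only [χB, dif_pos hex]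
      have h1 := hex.choose_spec
      refine hA3 u _ v hu h1.1 ?_ h1.2 hv.2
      have h2 := h1.1
      have h3 := hv.1
      simp at h2 h3
      omega
    obtain ⟨fB, hB1, hB2, γ, hB3⟩ := hB χB
    obtain ⟨b, hb1, hb2, c, hb3⟩ := hq γ
    let fS := selW b i m
    have hS1 : fS.length = q := by rw [selW_length, hb1]
    have hS2 : Ok i fS (i + m) := Ok_selW hi hb2
    have hBS1 : (fB.map (sub i fS)).length = nB := by simp [hB1]
    have hBS2 : Ok i (fB.map (sub i fS)) (i + m) := Ok_comp hB2 hS1 hS2
    refine ⟨fA.map (sub i (fB.map (sub i fS))), by simp [hA1], Ok_comp hA2 hBS1 hBS2, ?_⟩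
    have key : ∀ g : List ℕ, g.length = m → Ok i g (i + (k + 1)) →
        χ ((fA.map (sub i (fB.map (sub i fS)))).map (sub i g)) = c := by
      intro g hg hok
      obtain ⟨u, v, rfl, hu, hv⟩ := Ok_split hok
      rw [map_sub_sub (Ok_lt hA2) hBS1, map_sub_sub (Ok_lt hB2) hS1]
      obtain ⟨U, V, e1, hU, hbU⟩ := selW_inst (i := i) hi (u ++ i :: v) (b := b) (t := 0) (m := m) (u := u) (v := v)
        rfl hu hg hb2
      have e1' : fS.map (sub i (u ++ i :: v)) = U ++ i :: V := e1
      rw [e1']
      have hUV1 : (U ++ i :: V).length = q := by rw [← e1']; simp [hS1]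
      have hUV2 : Ok i (U ++ i :: V) (i + (k + 1)) := by rw [← e1']; exact Ok_comp hS2 hg hok
      have hG1 : (fB.map (sub i (U ++ i :: V))).length = nB := by simp [hB1]
      have hG2 : Ok i (fB.map (sub i (U ++ i :: V))) (i + (k + 1)) := Ok_comp hB2 hUV1 hUV2
      obtain ⟨u2, v2, e2, hu2, hv2⟩ := Ok_split hG2
      have h1 := hB3 U V hU hUV1
      rw [e2, takeWhile_append_of_all hu2] at h1
      simp only [List.takeWhile_cons, lt_irrefl, decide_false, Bool.false_eq_true, if_false,
        List.append_nil] at h1
      rw [e2, ← hχB u2 v2 hu2 ⟨by rw [← e2]; exact hG1, hv2⟩, h1]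
      exact hb3 _ hbU
    intro g g' hg hg' hok hok'
    rw [key g hg hok, key g' hg' hok']

theorem gr (k i m : ℕ) (κ : Type) [Finite κ] : GRP k i m κ := by
  induction k generalizing i m κ with
  | zero => exact gr_zero i m κ
  | succ k ih => exact gr_step k (fun i m κ _ => ih i m κ) i m κ

end EF39
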