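import Pool.Agent.EF39.GR

/-!
# [EF39-GRT] Graham-Rothschild for rigid maps between finite linear orders
-/

set_option autoImplicit false

namespace EF39

/-- a partial map onto `D` whose values first occur in increasing order -/
def Rigid {C D : Type} [LinearOrder C] [LinearOrder D] (f : C → Option D) : Prop :=
  ∃ m : D → C, StrictMono m ∧ ∀ d, f (m d) = some d ∧ ∀ c, f c = some d → m d ≤ c

theorem Ok_iff {i k : ℕ} {w : List ℕ} :
    Ok i w k ↔ i ≤ k ∧ (∀ x ∈ w, x < k) ∧ (∀ x, i ≤ x → x < k → x ∈ w) ∧
      ∀ y a : ℕ, w[y]? = some a → i < a → ∃ y' < y, w[y']? = some (a - 1) := by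
  induction w generalizing i with
  | nil =>
    constructor
    · intro h
      have h' : i = k := h
      subst h'
      exact ⟨le_rfl, by simp, fun x h1 h2 => by omega, by simp⟩
    · rintro ⟨h1, -, h3, -⟩
      show i = k
      by_contra hne
      have := h3 i le_rfl (lt_of_le_of_ne h1 hne)
      simp at this
  | cons b w ih =>
    constructor
    · rintro (⟨hb, h⟩ | ⟨rfl, h⟩)
      · obtain ⟨h1, h2, h3, h4⟩ := ih.1 h
        refine ⟨h1, ?_, fun x hx hx' => List.mem_cons_of_mem _ (h3 x hx hx'), ?_⟩
        · intro x hx
          rcases List.mem_cons.1 hx with rfl | hx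
          · omega
          · exact h2 x hx
        · intro y a hy ha
          cases y with
          | zero =>
            simp at hy
            omega
          | succ y =>
            obtain ⟨y', hy', hy''⟩ := h4 y a (by simpa using hy) ha
            exact ⟨y' + 1, by omega, by simpa using hy''⟩
      · obtain ⟨h1, h2, h3, h4⟩ := ih.1 h
        refine ⟨by omega, ?_, ?_, ?_⟩
        · intro x hx
          rcases List.mem_cons.1 hx with rfl | hx
          · omega
          · exact h2 x hx
        · intro x hx hx'
          rcases Nat.lt_or_ge b x with h5 | h5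
          · exact List.mem_cons_of_mem _ (h3 x h5 hx')
          · have : x = b := by omega
            subst this
            simp
        · intro y a hy ha
          cases y with
          | zero =>
            simp at hy
            omega
          | succ y =>
            rcases Nat.lt_or_ge (b + 1) a with h5 | h5
            · obtain ⟨y', hy', hy''⟩ := h4 y a (by simpa using hy) h5
              exact ⟨y' + 1, by omega, by simpa using hy''⟩
            · have : a = b + 1 := by omega
              subst this
              exact ⟨0, by omega, by simp⟩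
    · rintro ⟨h1, h2, h3, h4⟩
      have hb : b ≤ i := by
        by_contra hb
        obtain ⟨y', hy', -⟩ := h4 0 b (by simp) (by omega)
        omega
      rcases Nat.lt_or_ge b i with hlt | hge
      · refine Or.inl ⟨hlt, ih.2 ⟨h1, fun x hx => h2 x (by simp [hx]), ?_, ?_⟩⟩
        · intro x hx hx'
          rcases List.mem_cons.1 (h3 x hx hx') with rfl | h
          · omega
          · exact h
        · intro y a hy ha
          obtain ⟨y', hy', hy''⟩ := h4 (y + 1) a (by simpa using hy) ha
          cases y' with
          | zero =>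
            simp at hy''
            omega
          | succ y' => exact ⟨y', by omega, by simpa using hy''⟩
      · have hbi : b = i := by omega
        subst hbi
        have hbk := h2 b (by simp)
        refine Or.inr ⟨rfl, ih.2 ⟨by omega, fun x hx => h2 x (by simp [hx]), ?_, ?_⟩⟩
        · intro x hx hx'
          rcases List.mem_cons.1 (h3 x (by omega) hx') with rfl | h
          · omega
          · exact h
        · intro y a hy ha
          obtain ⟨y', hy', hy''⟩ := h4 (y + 1) a (by simpa using hy) (by omega)
          cases y' with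
          | zero =>
            simp at hy''
            omega
          | succ y' => exact ⟨y', by omega, by simpa using hy''⟩

/-- the letter of an option -/
def lett {k : ℕ} : Option (Fin k) → ℕ
  | none => 0
  | some d => d + 1

theorem lett_injective {k : ℕ} {a b : Option (Fin k)} (h : lett a = lett b) : a = b := by
  cases a <;> cases b <;> simp_all [lett]
  exact Fin.ext h

theorem getElem?_ofFn_lett {n k : ℕ} (f : Fin n → Option (Fin k)) (y a : ℕ) :
    (List.ofFn (fun c => lett (f c)))[y]? = some a ↔ ∃ h : y < n, lett (f ⟨y, h⟩) = a := by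
  rw [List.getElem?_ofFn]
  split_ifs with h
  · simp [h]
  · simp [h]

/-- from a rigid map to a word -/
theorem Ok_of_rigid {n k : ℕ} (f : Fin n → Option (Fin k)) (hf : Rigid f) :
    Ok 1 (List.ofFn (fun c => lett (f c))) (1 + k) := by
  obtain ⟨m, hm, hm'⟩ := hf
  rw [Ok_iff]
  refine ⟨by omega, ?_, ?_, ?_⟩
  · intro x hx
    rw [List.mem_ofFn] at hx
    obtain ⟨c, rfl⟩ := hx
    cases h : f c with
    | none => simp [lett]
    | some d =>
      have := d.2
      simp only [lett]
      omega
  · intro x h1 h2
    rw [List.mem_ofFn]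
    refine ⟨m ⟨x - 1, by omega⟩, ?_⟩
    show lett (f _) = x
    rw [(hm' _).1]
    simp only [lett]
    omega
  · intro y a hy ha
    rw [getElem?_ofFn_lett] at hy
    obtain ⟨hy, hya⟩ := hy
    cases h : f ⟨y, hy⟩ with
    | none =>
      rw [h] at hya
      simp only [lett] at hya
      omega
    | some d =>
      rw [h] at hya
      simp only [lett] at hya
      have hd := d.2
      have h1 : m ⟨d - 1, by omega⟩ < m d := hm (by rw [Fin.lt_def]; simp; omega)
      have h2 := (hm' d).2 _ h
      refine ⟨m ⟨d - 1, by omega⟩, ?_, ?_⟩
      · exact (Fin.lt_def.1 h1).trans_le (Fin.le_def.1 h2)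
      · rw [getElem?_ofFn_lett]
        refine ⟨(m _).2, ?_⟩
        rw [Fin.eta, (hm' _).1]
        simp only [lett]
        omega

/-- from a word to a rigid map -/
theorem rigid_of_Ok {n k : ℕ} (f : Fin n → Option (Fin k)) (h : Ok 1 (List.ofFn (fun c => lett (f c))) (1 + k)) :
    Rigid f := by
  classical
  rw [Ok_iff] at h
  obtain ⟨-, -, h3, h4⟩ := h
  have hex : ∀ d : Fin k, (Finset.univ.filter (fun c => f c = some d)).Nonempty := by
    intro d
    have := h3 (d + 1) (by omega) (by have := d.2; omega)
    rw [List.mem_ofFn] at this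
    obtain ⟨c, hc⟩ := this
    exact ⟨c, by simp only [Finset.mem_filter, Finset.mem_univ, true_and]; exact lett_injective (by simpa [lett] using hc)⟩
  let m : Fin k → Fin n := fun d => (Finset.univ.filter (fun c => f c = some d)).min' (hex d)
  have hm1 : ∀ d, f (m d) = some d := by
    intro d
    have := Finset.min'_mem _ (hex d)
    simpa using this
  have hm2 : ∀ d c, f c = some d → m d ≤ c := by
    intro d c hc
    exact Finset.min'_le _ _ (by simpa using hc)
  refine ⟨m, ?_, fun d => ⟨hm1 d, hm2 d⟩⟩
  have hsucc : ∀ (a : ℕ) (ha : a + 1 < k), m ⟨a, by omega⟩ < m ⟨a + 1, ha⟩ := by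
    intro a ha
    obtain ⟨y', hy', hy''⟩ := h4 (m ⟨a + 1, ha⟩) (a + 2) (by
      rw [getElem?_ofFn_lett]
      refine ⟨(m _).2, ?_⟩
      rw [Fin.eta, hm1]
      rfl) (by omega)
    rw [getElem?_ofFn_lett] at hy''
    obtain ⟨hy1, hy2⟩ := hy''
    have : f ⟨y', hy1⟩ = some ⟨a, by omega⟩ := lett_injective (by rw [hy2]; simp [lett])
    have := hm2 _ _ this
    rw [Fin.le_def] at this
    rw [Fin.lt_def]
    exact lt_of_le_of_lt this hy'
  intro a b hab
  obtain ⟨a, ha⟩ := a
  obtain ⟨b, hb⟩ := b
  have hab' : a < b := hab
  obtain ⟨t, rfl⟩ : ∃ t, b = a + 1 + t := ⟨b - (a + 1), by omega⟩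
  clear hab hab'
  induction t with
  | zero => exact hsucc a hb
  | succ t ih => exact (ih (by omega)).trans (hsucc (a + 1 + t) hb)

theorem gr_typed (P D : Type) [LinearOrder P] [Finite P] [LinearOrder D] [Finite D] (κ : Type) [Finite κ] :
    ∃ n : ℕ, ∀ χ : (Fin n → Option D) → κ, ∃ F : Fin n → Option P, Rigid F ∧
      ∀ h h' : P → Option D, Rigid h → Rigid h' →
        χ (fun x => (F x).bind h) = χ (fun x => (F x).bind h') := by
  classical
  have := Fintype.ofFinite P
  have := Fintype.ofFinite D
  obtain ⟨p, hp⟩ : ∃ p, Fintype.card P = p := ⟨_, rfl⟩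
  obtain ⟨d, hd⟩ : ∃ d, Fintype.card D = d := ⟨_, rfl⟩
  let eP : Fin p ≃o P := monoEquivOfFin P hp
  let eD : Fin d ≃o D := monoEquivOfFin D hd
  obtain ⟨n, hn⟩ := gr d 1 p κ
  refine ⟨n, fun χ => ?_⟩
  -- decoding of letters
  let un : (k : ℕ) → ℕ → Option (Fin k) := fun k x => if h : 0 < x ∧ x - 1 < k then some ⟨x - 1, h.2⟩ else none
  have hun : ∀ (k : ℕ) (a : Option (Fin k)), un k (lett a) = a := by
    intro k a
    cases a with
    | none => simp [un, lett]
    | some a => simp [un, lett]
  obtain ⟨f, hf1, hf2, hf3⟩ := hn (fun w => χ (fun x : Fin n => (un d (w.getD x 0)).map eD))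
  let F0 : Fin n → Option (Fin p) := fun x => un p (f.getD x 0)
  have hfF : List.ofFn (fun c => lett (F0 c)) = f := by
    apply List.ext_getElem
    · simp [hf1]
    · intro y h1 h2
      rw [List.getElem_ofFn]
      have h3 := Ok_lt hf2 _ (List.getElem_mem h2)
      show lett (un p (f.getD y 0)) = f[y]
      rw [List.getD_eq_getElem _ _ h2]
      simp only [un]
      split_ifs with h
      · simp only [lett]
        omega
      · simp only [lett]
        omega
  have hF0 : Rigid F0 := rigid_of_Ok F0 (by rw [hfF]; exact hf2)
  refine ⟨fun x => (F0 x).map eP, ?_, ?_⟩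
  · obtain ⟨m, hm, hm'⟩ := hF0
    refine ⟨fun q => m (eP.symm q), hm.comp eP.symm.strictMono, fun q => ⟨?_, ?_⟩⟩
    · show (F0 (m (eP.symm q))).map eP = some q
      rw [(hm' _).1]
      simp
    · intro c hc
      apply (hm' _).2
      rw [Option.map_eq_some_iff] at hc
      obtain ⟨a, ha, rfl⟩ := hc
      simpa using ha
  · -- the word of `h`
    have key : ∀ h : P → Option D, Rigid h →
        ∃ g : List ℕ, g.length = p ∧ Ok 1 g (1 + d) ∧
          (fun x : Fin n => (un d ((f.map (sub 1 g)).getD x 0)).map eD) = fun x => ((F0 x).map eP).bind h := by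
      intro h hh
      let h0 : Fin p → Option (Fin d) := fun c => (h (eP c)).map eD.symm
      have hh0 : Rigid h0 := by
        obtain ⟨m, hm, hm'⟩ := hh
        refine ⟨fun q => eP.symm (m (eD q)), ?_, fun q => ⟨?_, ?_⟩⟩
        · intro a b hab
          exact eP.symm.strictMono (hm (eD.strictMono hab))
        · show (h (eP (eP.symm (m (eD q))))).map eD.symm = some q
          rw [OrderIso.apply_symm_apply, (hm' _).1]
          simp
        · intro c hc
          rw [Option.map_eq_some_iff] at hc
          obtain ⟨a, ha, ha'⟩ := hc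
          have : a = eD q := by rw [← ha']; simp
          subst this
          have := eP.symm.monotone ((hm' _).2 _ ha)
          rwa [OrderIso.symm_apply_apply] at this
      refine ⟨List.ofFn (fun c => lett (h0 c)), by simp, Ok_of_rigid h0 hh0, ?_⟩
      funext x
      have hx : (x : ℕ) < f.length := by rw [hf1]; exact x.2
      have hx' : (x : ℕ) < (f.map (sub 1 (List.ofFn (fun c => lett (h0 c))))).length := by simpa using hx
      rw [List.getD_eq_getElem _ _ hx', List.getElem_map]
      have hfx : f[(x : ℕ)] = lett (F0 x) := by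
        have : f[(x : ℕ)]? = some (lett (F0 x)) := by
          conv_lhs => rw [← hfF]
          rw [getElem?_ofFn_lett]
          exact ⟨x.2, rfl⟩
        rw [List.getElem?_eq_getElem hx] at this
        exact Option.some.inj this
      rw [hfx]
      cases h1 : F0 x with
      | none => simp [lett, sub, un]
      | some a =>
        have : sub 1 (List.ofFn (fun c => lett (h0 c))) (lett (some a)) = lett (h0 a) := by
          simp [sub, lett]
        rw [this, hun]
        simp only [h0, Option.map_map, Option.map_some, Option.bind_some]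
        have hid : (eD ∘ eD.symm : D → D) = id := by
          funext z
          simp
        rw [hid, Option.map_id]
        rfl
    intro h h' hh hh'
    obtain ⟨g, hg1, hg2, hg3⟩ := key h hh
    obtain ⟨g', hg1', hg2', hg3'⟩ := key h' hh'
    have h5 := hf3 g g' hg1 hg1' hg2 hg2'
    simp only [hg3, hg3'] at h5
    exact h5

end EF39
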