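import Pool.Agent.EF39.Word

/-!
# [EF39-HJ] The Hales-Jewett theorem for lists
-/

set_option autoImplicit false

namespace EF39

/-- Hales-Jewett for words over `{0, ..., i-1}`; `i` is the variable letter -/
theorem hj (i : ℕ) (hi : 1 ≤ i) (κ : Type) [Finite κ] :
    ∃ n, ∀ χ : List ℕ → κ, ∃ f : List ℕ, f.length = n ∧ Ok i f (i + 1) ∧
      ∀ a < i, ∀ b < i, χ (f.map (sub i [a])) = χ (f.map (sub i [b])) := by
  obtain ⟨ι, _, hι⟩ := Combinatorics.Line.exists_mono_in_high_dimension (Fin i) κ
  classical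
  let n := Fintype.card ι
  let eq : ι ≃ Fin n := Fintype.equivFin ι
  refine ⟨n, fun χ => ?_⟩
  obtain ⟨L, c, hL⟩ := hι (fun w => χ (List.ofFn (fun t : Fin n => ((w (eq.symm t) : Fin i) : ℕ))))
  let f : List ℕ := List.ofFn (fun t : Fin n => match L.idxFun (eq.symm t) with | none => i | some a => (a : ℕ))
  have hle : ∀ x ∈ f, x ≤ i := by
    intro x hx
    rw [List.mem_ofFn] at hx
    obtain ⟨t, rfl⟩ := hx
    cases h : L.idxFun (eq.symm t) with
    | none => simp
    | some a => simp [a.2.le]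
  have hmem : i ∈ f := by
    obtain ⟨t, ht⟩ := L.proper
    rw [List.mem_ofFn]
    exact ⟨eq t, by simp [ht]⟩
  have hok : ∀ w : List ℕ, (∀ x ∈ w, x ≤ i) → Ok (i + 1) w (i + 1) := fun w hw =>
    Ok_const fun x hx => Nat.lt_succ_of_le (hw x hx)
  have hok2 : ∀ w : List ℕ, (∀ x ∈ w, x ≤ i) → i ∈ w → Ok i w (i + 1) := by
    intro w
    induction w with
    | nil => simp
    | cons a w ih =>
      intro h1 h2
      by_cases ha : a = i
      · exact Or.inr ⟨ha, hok w fun x hx => h1 x (by simp [hx])⟩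
      · have : a < i := lt_of_le_of_ne (h1 a (by simp)) ha
        refine Or.inl ⟨this, ih (fun x hx => h1 x (by simp [hx])) ?_⟩
        rcases List.mem_cons.1 h2 with h | h
        · exact absurd h.symm ha
        · exact h
  refine ⟨f, by simp [f], hok2 f hle hmem, ?_⟩
  have key : ∀ a (ha : a < i), f.map (sub i [a]) = List.ofFn (fun t : Fin n => ((L ⟨a, ha⟩ (eq.symm t) : Fin i) : ℕ)) := by
    intro a ha
    simp only [f, List.map_ofFn]
    congr 1
    funext t
    simp only [Function.comp_apply]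
    cases h : L.idxFun (eq.symm t) with
    | none => simp [sub, h]
    | some b => simp [sub, h]
  intro a ha b hb
  rw [key a ha, key b hb]
  have h1 := hL ⟨a, ha⟩
  have h2 := hL ⟨b, hb⟩
  exact h1.trans h2.symm

end EF39
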