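import Pool.Agent.EF39.Core

/-!
# EF39: increasing lists
-/

set_option autoImplicit false

namespace EF39

theorem mem_subs_range {e : List ℕ} {N : ℕ} : e ∈ subs (List.range N) ↔ e.Pairwise (· < ·) ∧ ∀ x ∈ e, x < N := by
  rw [mem_subs]
  constructor
  · intro h
    exact ⟨List.Pairwise.sublist h List.pairwise_lt_range, fun x hx => by simpa using h.subset hx⟩
  · rintro ⟨h1, h2⟩
    apply List.sublist_of_subperm_of_pairwise (r := (· < ·))
    · apply List.subperm_of_subset
      · exact h1.imp (fun h => h.ne)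
      · intro x hx
        simpa using h2 x hx
    · exact h1
    · exact List.pairwise_lt_range

/-- entries of an increasing list -/
theorem getD_lt_getD {e : List ℕ} (h : e.Pairwise (· < ·)) {x y : ℕ} (hxy : x < y) (hy : y < e.length) :
    e.getD x 0 < e.getD y 0 := by
  rw [List.getD_eq_getElem _ _ hy, List.getD_eq_getElem _ _ (hxy.trans hy)]
  exact List.pairwise_iff_getElem.1 h x y (hxy.trans hy) hy hxy

theorem getD_mem {e : List ℕ} {x : ℕ} (hx : x < e.length) : e.getD x 0 ∈ e := by
  rw [List.getD_eq_getElem _ _ hx]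
  exact List.getElem_mem hx

theorem iot_lt {n : ℕ} {e : List ℕ} {x : ℕ} (hx : x < n) : iot n e x = x := by simp [iot, hx]

theorem iot_ge {n : ℕ} {e : List ℕ} {x : ℕ} (hx : n ≤ x) : iot n e x = n + e.getD (x - n) 0 := by
  simp [iot, not_lt.2 hx]

theorem le_iot {n : ℕ} {e : List ℕ} {x : ℕ} : n ≤ iot n e x ↔ n ≤ x := by
  unfold iot
  split_ifs with h
  · omega
  · omega

/-- `iot` is strictly increasing -/
theorem iot_strict {n : ℕ} {e : List ℕ} (h : e.Pairwise (· < ·)) {x y : ℕ} (hxy : x < y) (hy : y < n + e.length) :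
    iot n e x < iot n e y := by
  rcases Nat.lt_or_ge y n with h1 | h1
  · rw [iot_lt h1, iot_lt (hxy.trans h1)]
    exact hxy
  · rw [iot_ge h1]
    rcases Nat.lt_or_ge x n with h2 | h2
    · rw [iot_lt h2]
      omega
    · rw [iot_ge h2]
      have := getD_lt_getD h (x := x - n) (y := y - n) (by omega) (by omega)
      omega

theorem iot_inj {n : ℕ} {e : List ℕ} (h : e.Pairwise (· < ·)) {x y : ℕ} (hx : x < n + e.length)
    (hy : y < n + e.length) (hxy : iot n e x = iot n e y) : x = y := by
  rcases lt_trichotomy x y with h1 | h1 | h1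
  · exact absurd hxy (iot_strict h h1 hy).ne
  · exact h1
  · exact absurd hxy (iot_strict h h1 hx).ne'

theorem iot_lt_iff {n : ℕ} {e : List ℕ} (h : e.Pairwise (· < ·)) {x y : ℕ} (hx : x < n + e.length)
    (hy : y < n + e.length) : iot n e x < iot n e y ↔ x < y := by
  constructor
  · intro h1
    by_contra h2
    rcases (not_lt.1 h2).lt_or_eq with h3 | h3
    · exact absurd (iot_strict h h3 hx) (not_lt.2 h1.le)
    · subst h3
      exact lt_irrefl _ h1
  · exact fun h1 => iot_strict h h1 hy

theorem iot_bound {n N : ℕ} {e : List ℕ} (h : ∀ x ∈ e, x < N) {x : ℕ} (hx : x < n + e.length) :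
    iot n e x < n + N := by
  rcases Nat.lt_or_ge x n with h1 | h1
  · rw [iot_lt h1]
    omega
  · rw [iot_ge h1]
    have := h _ (getD_mem (e := e) (x := x - n) (by omega))
    omega

/-- composition of increasing lists -/
theorem iot_comp {n : ℕ} {e f : List ℕ} {x : ℕ} (hx : x < n + f.length) :
    iot n e (iot n f x) = iot n (f.map (fun y => e.getD y 0)) x := by
  rcases Nat.lt_or_ge x n with h1 | h1
  · rw [iot_lt h1, iot_lt h1, iot_lt h1]
  · rw [iot_ge h1 (e := f), iot_ge h1, iot_ge (by omega)]
    have h2 : x - n < f.length := by omega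
    have h3 : x - n < (f.map (fun y => e.getD y 0)).length := by simpa using h2
    rw [List.getD_eq_getElem _ _ h3, List.getElem_map, List.getD_eq_getElem _ _ h2]
    simp

theorem map_getD_pairwise {e f : List ℕ} (he : e.Pairwise (· < ·)) (hf : f.Pairwise (· < ·))
    (hfe : ∀ x ∈ f, x < e.length) : (f.map (fun y => e.getD y 0)).Pairwise (· < ·) := by
  rw [List.pairwise_map]
  refine hf.imp_of_mem ?_
  intro a b _ hb hab
  exact getD_lt_getD he hab (hfe b hb)

/-- the identity -/
theorem iot_range {n r : ℕ} {x : ℕ} (hx : x < n + r) : iot n (List.range r) x = x := by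
  rcases Nat.lt_or_ge x n with h1 | h1
  · exact iot_lt h1
  · rw [iot_ge h1]
    have h2 : x - n < (List.range r).length := by
      simp
      omega
    rw [List.getD_eq_getElem _ _ h2]
    simp
    omega

end EF39
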