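import Pool.Agent.EF39.Core

/-!
# EF39: the properties used hold for structures with disjoint `n`-amalgamation
-/

set_option autoImplicit false

namespace EF39

variable {l : ℕ} {ar : Fin l → ℕ} {M : Type} {S : ∀ i, (Fin (ar i) → M) → Prop}

/-- the atom with symbol `i` and arguments `x` -/
def atm (i : Fin l) (x : Fin (ar i) → ℕ) : Atom := ((i : ℕ), List.ofFn x)

theorem WF_atm (i : Fin l) (x : Fin (ar i) → ℕ) : WF ar (atm i x) := by
  refine ⟨i.2, ?_⟩
  show (List.ofFn x).length = arN ar i
  rw [arN_of_lt ar i.2]
  simp

theorem Hold_atm {v : ℕ → M} {i : Fin l} {x : Fin (ar i) → ℕ} :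
    Hold ar S v (atm i x) ↔ S i (fun t => v (x t)) := by
  have key : (fun t : Fin (ar i) => v ((List.ofFn x).getD t 0)) = fun t => v (x t) := by
    funext t
    rw [List.getD_eq_getElem _ _ (by simp)]
    simp
  constructor
  · rintro ⟨h1, -, h3⟩
    have h3' : S i (fun t : Fin (ar i) => v ((List.ofFn x).getD t 0)) := h3
    rw [key] at h3'
    exact h3'
  · intro h
    refine ⟨i.2, by simp [atm], ?_⟩
    show S i (fun t : Fin (ar i) => v ((List.ofFn x).getD t 0))
    rw [key]
    exact h

theorem exists_atm {a : Atom} (h : WF ar a) : ∃ (i : Fin l) (x : Fin (ar i) → ℕ), a = atm i x := by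
  obtain ⟨h1, h2⟩ := h
  rw [arN_of_lt ar h1] at h2
  refine ⟨⟨a.1, h1⟩, fun t => a.2.getD t 0, ?_⟩
  unfold atm
  refine Prod.ext rfl ?_
  apply List.ext_getElem
  · simp [h2]
  · intro i h3 h4
    simp only [List.getElem_ofFn]
    rw [List.getD_eq_getElem _ _ h3]

theorem mem_atm {i : Fin l} {x : Fin (ar i) → ℕ} {z : ℕ} : z ∈ (atm i x).2 ↔ ∃ t, x t = z := by
  simp [atm]

theorem mem_supp_atm {i : Fin l} {x : Fin (ar i) → ℕ} {z : ℕ} : z ∈ supp (atm i x) ↔ ∃ t, x t = z := by
  rw [mem_supp, mem_atm]

theorem nice_of [Nonempty M] {lt : M → M → Prop} (h : GenOrd ar S lt) : Nice ar S := by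
  classical
  have hord := h.order
  constructor
  · intro m m' v X hm hv hX hvX
    obtain ⟨w, hw1, hw2⟩ := hX
    let rnk : ℕ → ℕ := fun i => ((Finset.range m).filter (fun j => lt (v j) (v i))).card
    have hrnk : ∀ i < m, ∀ j < m, lt (v i) (v j) → rnk i < rnk j := by
      intro i hi j hj hij
      apply Finset.card_lt_card
      rw [Finset.ssubset_iff_of_subset]
      · refine ⟨i, by simp [hi, hij], ?_⟩
        simp [irrefl_of lt (v i)]
      · intro z hz
        simp only [Finset.mem_filter] at hz ⊢
        exact ⟨hz.1, trans_of lt hz.2 hij⟩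
    have hrnk_lt : ∀ i < m, rnk i < m := by
      intro i hi
      have h1 : rnk i < (Finset.range m).card := by
        apply Finset.card_lt_card
        rw [Finset.ssubset_iff_of_subset (Finset.filter_subset _ _)]
        exact ⟨i, by simp [hi], by simp [irrefl_of lt (v i)]⟩
      simpa using h1
    have hrnk_iff : ∀ i < m, ∀ j < m, (rnk i < rnk j ↔ lt (v i) (v j)) := by
      intro i hi j hj
      refine ⟨fun hij => ?_, hrnk i hi j hj⟩
      rcases trichotomous_of lt (v i) (v j) with h1 | h1 | h1
      · exact h1
      · have : i = j := hv (by simp [hi]) (by simp [hj]) h1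
        subst this
        exact absurd hij (lt_irrefl _)
      · exact absurd hij (not_lt.2 (hrnk j hj i hi h1).le)
    let o : Fin m' → ℕ := fun i => if (i : ℕ) < m then rnk i else i
    have ho : Function.Injective o := by
      intro i j hij
      simp only [o] at hij
      apply Fin.ext
      split_ifs at hij with c1 c2 c2
      · rcases trichotomous_of lt (v i) (v j) with h1 | h1 | h1
        · exact absurd hij (hrnk i c1 j c2 h1).ne
        · exact hv (by simp [c1]) (by simp [c2]) h1
        · exact absurd hij (hrnk j c2 i c1 h1).ne'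
      · have := hrnk_lt i c1
        omega
      · have := hrnk_lt j c2
        omega
      · exact hij
    obtain ⟨b, hb1, hb2⟩ := h.generic m' (fun i => w i) o
      (fun i j hij => Fin.ext (hw1 (by simp) (by simp) hij)) ho
    have hlt : ∀ i : Fin m, (i : ℕ) < m' := fun i => lt_of_lt_of_le i.2 hm
    obtain ⟨e, he1, he2, he3⟩ := h.homog m (fun i => b ⟨i, hlt i⟩) (fun i => v i) (by
      intro i j
      rw [hb1]
      simp only [o, i.2, j.2, if_true]
      exact hrnk_iff i i.2 j j.2) (by
      intro i x
      have h1 := hb2 i (fun t => ⟨x t, hlt (x t)⟩)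
      have h2 := hw2 (atm i (fun t => (x t : ℕ))) (WF_atm _ _) (by
        intro z hz
        rw [mem_supp_atm] at hz
        obtain ⟨t, rfl⟩ := hz
        simpa using hlt (x t))
      have h3 := hvX (atm i (fun t => (x t : ℕ))) (WF_atm _ _) (by
        intro z hz
        rw [mem_supp_atm] at hz
        obtain ⟨t, rfl⟩ := hz
        simp)
      rw [Hold_atm] at h2 h3
      exact h1.trans (h2.trans h3.symm))
    have hbinj : Function.Injective b := by
      intro i j hij
      by_contra hne
      have h1 : o i ≠ o j := fun h2 => hne (ho h2)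
      rcases lt_or_gt_of_ne h1 with h2 | h2
      · have := (hb1 i j).2 h2
        rw [hij] at this
        exact irrefl_of lt _ this
      · have := (hb1 j i).2 h2
        rw [hij] at this
        exact irrefl_of lt _ this
    refine ⟨fun i => if hi : i < m' then e (b ⟨i, hi⟩) else v i, ?_, ?_, ?_⟩
    · intro i hi
      have hi' : i < m' := lt_of_lt_of_le hi hm
      simp only [hi', dif_pos]
      exact he3 ⟨i, hi⟩
    · intro i hi j hj hij
      have hi' : i < m' := by simpa using hi
      have hj' : j < m' := by simpa using hj
      simp only [hi', hj', dif_pos] at hij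
      have := hbinj (e.injective hij)
      exact congrArg Fin.val this
    · intro a ha hs
      obtain ⟨i, x, rfl⟩ := exists_atm ha
      have hx : ∀ t, x t < m' := by
        intro t
        have : x t ∈ supp (atm i x) := by
          rw [mem_supp_atm]
          exact ⟨t, rfl⟩
        simpa using hs this
      have h1 := hb2 i (fun t => ⟨x t, hx t⟩)
      have h2 := hw2 (atm i x) (WF_atm _ _) hs
      have h3 := he2 i (fun t => b ⟨x t, hx t⟩)
      rw [Hold_atm] at h2
      rw [Hold_atm]
      have h4 : (fun t => (fun i => if hi : i < m' then e (b ⟨i, hi⟩) else v i) (x t)) =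
          (e ∘ fun t => b ⟨x t, hx t⟩) := by
        funext t
        simp [hx t]
      rw [h4]
      exact h3.trans (h1.trans h2)
  · intro T X hX
    let m0 : M := Classical.arbitrary M
    let N := T.card
    let t : Fin N ↪o ℕ := T.orderEmbOfFin rfl
    have htmem : ∀ k, t k ∈ T := fun k => Finset.orderEmbOfFin_mem T rfl k
    have htsurj : ∀ z ∈ T, ∃ k, t k = z := by
      intro z hz
      have : z ∈ Set.range t := by
        rw [Finset.range_orderEmbOfFin]
        exact hz
      exact this
    obtain ⟨a, ha1, ha2⟩ := h.amalg N (fun i x => X (atm i (fun s => t (x s)))) (by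
      intro j
      obtain ⟨w, hw1, hw2⟩ := hX (t j) (htmem j)
      refine ⟨fun k => w (t k), ?_, ?_⟩
      · intro k hk k' hk' hkk
        apply t.injective
        apply hw1 _ _ hkk
        · simp only [Finset.coe_erase, Set.mem_sdiff, Finset.mem_coe, Set.mem_singleton_iff]
          exact ⟨htmem k, fun hc => hk (t.injective hc)⟩
        · simp only [Finset.coe_erase, Set.mem_sdiff, Finset.mem_coe, Set.mem_singleton_iff]
          exact ⟨htmem k', fun hc => hk' (t.injective hc)⟩
      · intro i x hx
        have := hw2 (atm i (fun s => t (x s))) (WF_atm _ _) (by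
          intro z hz
          rw [mem_supp_atm] at hz
          obtain ⟨s, rfl⟩ := hz
          rw [Finset.mem_erase]
          exact ⟨fun hc => hx s (t.injective hc), htmem _⟩)
        rw [Hold_atm] at this
        exact this)
    -- the point of `M` for an element of `T`
    let w : ℕ → M := fun z => if hz : ∃ k, t k = z then a hz.choose else m0
    have hw : ∀ k, w (t k) = a k := by
      intro k
      have hz : ∃ k', t k' = t k := ⟨k, rfl⟩
      have h1 : w (t k) = a hz.choose := by simp only [w, dif_pos hz]
      rw [h1, t.injective hz.choose_spec]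
    refine ⟨Hold ar S w, Leg_Hold ?_, ?_⟩
    · intro z hz z' hz' hzz
      obtain ⟨k, rfl⟩ := htsurj z (by simpa using hz)
      obtain ⟨k', rfl⟩ := htsurj z' (by simpa using hz')
      rw [hw, hw] at hzz
      rw [ha1 hzz]
    · intro b hb hs
      obtain ⟨i, x, rfl⟩ := exists_atm hb
      have hx : ∀ s, ∃ k, t k = x s := by
        intro s
        apply htsurj
        apply hs.1
        rw [mem_supp_atm]
        exact ⟨s, rfl⟩
      choose y hy using hx
      have hy' : (fun s => t (y s)) = x := funext hy
      have hns : ¬ Function.Surjective y := by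
        intro hsu
        apply hs.2
        intro z hz
        obtain ⟨k, rfl⟩ := htsurj z hz
        obtain ⟨s, rfl⟩ := hsu k
        rw [mem_supp_atm]
        exact ⟨s, (hy s).symm⟩
      have h1 := ha2 i y hns
      rw [hy'] at h1
      rw [Hold_atm, ← h1]
      have h2 : (fun s => w (x s)) = a ∘ y := by
        funext s
        rw [← hy s, hw]
        rfl
      rw [h2]

end EF39
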