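import Pool.Agent.EF39.BF
import Pool.Agent.EF39.NiceOf

/-!
# EF39: types over the reduct
-/

set_option autoImplicit false

open FirstOrder Language

namespace EF39

variable {l : ℕ} {ar : Fin l → ℕ} {M : Type} {S : ∀ i, (Fin (ar i) → M) → Prop}
variable {k : ℕ} {br : Fin k → ℕ} {T : ∀ j, (Fin (br j) → M) → Prop}

/-- `x 0, …, x (m - 1)` and `y 0, …, y (m - 1)` satisfy the same formulas of `(M; T)` -/
def ET {k : ℕ} (br : Fin k → ℕ) {M : Type} (T : ∀ j, (Fin (br j) → M) → Prop) (m : ℕ) (x y : ℕ → M) : Prop :=
  ∀ φ : (lang br).Formula (Fin m), @Formula.Realize (lang br) M (str br T) (Fin m) φ (fun i => x i) ↔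
    @Formula.Realize (lang br) M (str br T) (Fin m) φ (fun i => y i)

theorem ET.symm {m : ℕ} {x y : ℕ → M} (h : ET br T m x y) : ET br T m y x := fun φ => (h φ).symm

theorem ET.trans {m : ℕ} {x y z : ℕ → M} (h : ET br T m x y) (h' : ET br T m y z) : ET br T m x z :=
  fun φ => (h φ).trans (h' φ)

theorem ET_congr {m : ℕ} {x y x' y' : ℕ → M} (hx : ∀ i < m, x i = x' i) (hy : ∀ i < m, y i = y' i)
    (h : ET br T m x y) : ET br T m x' y' := by
  have h1 : (fun i : Fin m => x i) = fun i : Fin m => x' i := funext fun i => hx i i.2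
  have h2 : (fun i : Fin m => y i) = fun i : Fin m => y' i := funext fun i => hy i i.2
  unfold ET
  rw [← h1, ← h2]
  exact h

theorem ET_refl (m : ℕ) (x : ℕ → M) : ET br T m x x := fun _ => Iff.rfl

theorem ET_comp {m m' : ℕ} {x y : ℕ → M} (h : ET br T m x y) (g : ℕ → ℕ) (hg : ∀ i < m', g i < m) :
    ET br T m' (fun i => x (g i)) (fun i => y (g i)) := by
  let _ := str br T
  intro φ
  have h1 := h (φ.relabel (fun i : Fin m' => (⟨g i, hg i i.2⟩ : Fin m)))
  rw [Formula.realize_relabel, Formula.realize_relabel] at h1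
  exact h1

theorem ET_rel {m : ℕ} {x y : ℕ → M} (h : ET br T m x y) (j : Fin k) (g : Fin (br j) → ℕ) (hg : ∀ i, g i < m) :
    T j (fun i => x (g i)) ↔ T j (fun i => y (g i)) := by
  let _ := str br T
  let R : (lang br).Relations (br j) := ⟨j, rfl⟩
  have h1 := h (R.formula (fun i => Term.var (⟨g i, hg i⟩ : Fin m)))
  rw [Formula.realize_rel, Formula.realize_rel] at h1
  exact h1

theorem ET_eq {m : ℕ} {x y : ℕ → M} (h : ET br T m x y) {i j : ℕ} (hi : i < m) (hj : j < m) :
    x i = x j ↔ y i = y j := by
  let _ := str br T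
  have h1 := h (Term.equal (Term.var (⟨i, hi⟩ : Fin m)) (Term.var (⟨j, hj⟩ : Fin m)))
  rw [Formula.realize_equal, Formula.realize_equal] at h1
  exact h1

theorem ET_injOn {m : ℕ} {x y : ℕ → M} (h : ET br T m x y) (hx : Set.InjOn x (Finset.range m)) :
    Set.InjOn y (Finset.range m) := by
  intro i hi j hj hij
  exact hx hi hj ((ET_eq h (by simpa using hi) (by simpa using hj)).2 hij)

theorem ET_of_bf {I : ℕ → (ℕ → M) → (ℕ → M) → Prop} (hI : BFS br T I) {N : ℕ} {v w : ℕ → M} (h : I N v w) :
    ET br T N v w := by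
  let _ := str br T
  intro φ
  have h1 := bf_idx hI φ h (fun i : Fin N => (i : ℕ)) Fin.elim0 (fun i => i.2) (fun i => i.elim0)
  rw [Formula.boundedFormula_realize_eq_realize, Formula.boundedFormula_realize_eq_realize] at h1
  exact h1

/-! ## same diagram -/

/-- same diagram over `(M; S)` -/
def SD {l : ℕ} (ar : Fin l → ℕ) {M : Type} (S : ∀ i, (Fin (ar i) → M) → Prop) (m : ℕ) (x y : ℕ → M) : Prop :=
  (∀ i < m, ∀ j < m, (x i = x j ↔ y i = y j)) ∧
    ∀ a, WF ar a → (∀ z ∈ a.2, z < m) → (Hold ar S x a ↔ Hold ar S y a)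

/-- the back and forth system of pairs of injective tuples with the same diagram -/
def IS {l : ℕ} (ar : Fin l → ℕ) {M : Type} (S : ∀ i, (Fin (ar i) → M) → Prop) (N : ℕ) (v w : ℕ → M) : Prop :=
  Set.InjOn v (Finset.range N) ∧ Set.InjOn w (Finset.range N) ∧
    ∀ a, WF ar a → (∀ z ∈ a.2, z < N) → (Hold ar S v a ↔ Hold ar S w a)

theorem IS.symm {N : ℕ} {v w : ℕ → M} (h : IS ar S N v w) : IS ar S N w v :=
  ⟨h.2.1, h.1, fun a ha hz => (h.2.2 a ha hz).symm⟩

theorem supp_subset_range {a : Atom} {N : ℕ} : supp a ⊆ Finset.range N ↔ ∀ z ∈ a.2, z < N := by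
  constructor
  · intro h z hz
    exact Finset.mem_range.1 (h (mem_supp.2 hz))
  · intro h z hz
    exact Finset.mem_range.2 (h z (mem_supp.1 hz))

theorem injOn_succ {N : ℕ} {v v' : ℕ → M} (hv : Set.InjOn v (Finset.range N)) (h1 : ∀ i < N, v' i = v i)
    (h2 : ∀ i < N, v i ≠ v' N) : Set.InjOn v' (Finset.range (N + 1)) := by
  intro i hi j hj hij
  have hi' : i < N + 1 := by simpa using hi
  have hj' : j < N + 1 := by simpa using hj
  rcases Nat.lt_or_ge i N with c1 | c1
  · rcases Nat.lt_or_ge j N with c2 | c2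
    · rw [h1 i c1, h1 j c2] at hij
      exact hv (by simpa using c1) (by simpa using c2) hij
    · have : j = N := by omega
      subst this
      rw [h1 i c1] at hij
      exact absurd hij (h2 i c1)
  · have : i = N := by omega
    subst this
    rcases Nat.lt_or_ge j i with c2 | c2
    · rw [h1 j c2] at hij
      exact absurd hij.symm (h2 j c2)
    · omega

theorem IS_forth (hN : Nice ar S) {N : ℕ} {v w : ℕ → M} (h : IS ar S N v w) (a : M) (ha : ∀ i < N, v i ≠ a) :
    ∃ v' w', (∀ i < N, v' i = v i) ∧ (∀ i < N, w' i = w i) ∧ v' N = a ∧ IS ar S (N + 1) v' w' := by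
  have h1 : ∀ i < N, Function.update v N a i = v i := fun i hi => by
    rw [Function.update_of_ne (by omega)]
  have hinj : Set.InjOn (Function.update v N a) (Finset.range (N + 1)) :=
    injOn_succ h.1 h1 (fun i hi => by rw [Function.update_self]; exact ha i hi)
  obtain ⟨w', hw1, hw2, hw3⟩ := hN.ext N (N + 1) w (Hold ar S (Function.update v N a)) (by omega) h.2.1
    (Leg_Hold hinj) (by
      intro b hb hs
      rw [supp_subset_range] at hs
      rw [← h.2.2 b hb hs]
      exact Hold_congr fun z hz => (h1 z (hs z hz)).symm)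
  refine ⟨Function.update v N a, w', h1, hw1, Function.update_self _ _ _, hinj, hw2, ?_⟩
  intro b hb hs
  exact (hw3 b hb (supp_subset_range.2 hs)).symm

/-- the pairs of tuples with the same diagram form a back and forth system -/
theorem IS_bfs (hN : Nice ar S) : BFS ar S (IS ar S) where
  injv := fun h => h.1
  injw := fun h => h.2.1
  rel := by
    intro N v w h j x hx
    have h1 := h.2.2 (atm j x) (WF_atm j x) (by
      intro z hz
      rw [mem_atm] at hz
      obtain ⟨t, rfl⟩ := hz
      exact hx t)
    rw [Hold_atm, Hold_atm] at h1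
    exact h1
  forth := fun h a ha => IS_forth hN h a ha
  back := by
    intro N v w h b hb
    obtain ⟨w', v', h1, h2, h3, h4⟩ := IS_forth hN h.symm b hb
    exact ⟨v', w', h2, h1, h3, h4.symm⟩

theorem IS_bfs' (hN : Nice ar S) (hT : ∀ j, FODef ar S (T j)) : BFS br T (IS ar S) where
  injv := fun h => h.1
  injw := fun h => h.2.1
  rel := by
    intro N v w h j x hx
    obtain ⟨φ, hφ⟩ := hT j
    rw [hφ, hφ]
    have h1 := bf_idx (IS_bfs hN) φ h x Fin.elim0 hx (fun i => i.elim0)
    let _ := str ar S
    rw [Formula.boundedFormula_realize_eq_realize, Formula.boundedFormula_realize_eq_realize] at h1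
    exact h1
  forth := (IS_bfs hN).forth
  back := (IS_bfs hN).back

/-- reduction to injective tuples -/
theorem exists_red (x y : ℕ → M) (m : ℕ) (h : ∀ i < m, ∀ j < m, (x i = x j ↔ y i = y j)) :
    ∃ (n' : ℕ) (π σ : ℕ → ℕ), n' ≤ m ∧ (∀ i < m, π i < n') ∧ (∀ j < n', σ j < m) ∧ (∀ j < n', π (σ j) = j) ∧
      (∀ i < m, x (σ (π i)) = x i) ∧ (∀ i < m, y (σ (π i)) = y i) ∧
      Set.InjOn (fun i => x (σ i)) (Finset.range n') ∧ Set.InjOn (fun i => y (σ i)) (Finset.range n') := by
  induction m with
  | zero =>
    exact ⟨0, id, id, le_refl _, by simp, by simp, by simp, by simp, by simp, by simp, by simp⟩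
  | succ m ih =>
    obtain ⟨n', π, σ, h1, h2, h3, h4, h5, h6, h7, h8⟩ := ih (fun i hi j hj => h i (by omega) j (by omega))
    by_cases hm : ∃ i < m, x i = x m
    · obtain ⟨i, hi, hxi⟩ := hm
      have hyi : y i = y m := (h i (by omega) m (by omega)).1 hxi
      have hupd : ∀ j < m, Function.update π m (π i) j = π j := fun j hj => Function.update_of_ne (by omega) _ _
      refine ⟨n', Function.update π m (π i), σ, by omega, ?_, fun j hj => (h3 j hj).trans (by omega), ?_, ?_, ?_,
        h7, h8⟩
      · intro j hj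
        rcases Nat.lt_or_ge j m with c | c
        · rw [hupd j c]
          exact h2 j c
        · have : j = m := by omega
          subst this
          rw [Function.update_self]
          exact h2 i hi
      · intro j hj
        rw [hupd _ (h3 j hj)]
        exact h4 j hj
      · intro j hj
        rcases Nat.lt_or_ge j m with c | c
        · rw [hupd j c]
          exact h5 j c
        · have : j = m := by omega
          subst this
          rw [Function.update_self, h5 i hi]
          exact hxi
      · intro j hj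
        rcases Nat.lt_or_ge j m with c | c
        · rw [hupd j c]
          exact h6 j c
        · have : j = m := by omega
          subst this
          rw [Function.update_self, h6 i hi]
          exact hyi
    · push Not at hm
      have hmy : ∀ i < m, y i ≠ y m := fun i hi hc => hm i hi ((h i (by omega) m (by omega)).2 hc)
      have hupd : ∀ j < m, Function.update π m n' j = π j := fun j hj => Function.update_of_ne (by omega) _ _
      have hsupd : ∀ j < n', Function.update σ n' m j = σ j := fun j hj => Function.update_of_ne (by omega) _ _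
      refine ⟨n' + 1, Function.update π m n', Function.update σ n' m, by omega, ?_, ?_, ?_, ?_, ?_, ?_, ?_⟩
      · intro j hj
        rcases Nat.lt_or_ge j m with c | c
        · rw [hupd j c]
          exact (h2 j c).trans (by omega)
        · have : j = m := by omega
          subst this
          rw [Function.update_self]
          omega
      · intro j hj
        rcases Nat.lt_or_ge j n' with c | c
        · rw [hsupd j c]
          exact (h3 j c).trans (by omega)
        · have : j = n' := by omega
          subst this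
          rw [Function.update_self]
          omega
      · intro j hj
        rcases Nat.lt_or_ge j n' with c | c
        · rw [hsupd j c, hupd _ (h3 j c)]
          exact h4 j c
        · have : j = n' := by omega
          subst this
          rw [Function.update_self, Function.update_self]
      · intro j hj
        rcases Nat.lt_or_ge j m with c | c
        · rw [hupd j c, hsupd _ (h2 j c)]
          exact h5 j c
        · have : j = m := by omega
          subst this
          rw [Function.update_self, Function.update_self]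
      · intro j hj
        rcases Nat.lt_or_ge j m with c | c
        · rw [hupd j c, hsupd _ (h2 j c)]
          exact h6 j c
        · have : j = m := by omega
          subst this
          rw [Function.update_self, Function.update_self]
      · apply injOn_succ h7
        · intro i hi
          simp only [hsupd i hi]
        · intro i hi
          simp only [Function.update_self]
          exact hm _ (h3 i hi)
      · apply injOn_succ h8
        · intro i hi
          simp only [hsupd i hi]
        · intro i hi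
          simp only [Function.update_self]
          exact hmy _ (h3 i hi)

theorem ET_of_SD (hN : Nice ar S) (hT : ∀ j, FODef ar S (T j)) {m : ℕ} {x y : ℕ → M} (h : SD ar S m x y) :
    ET br T m x y := by
  obtain ⟨n', π, σ, h1, h2, h3, h4, h5, h6, h7, h8⟩ := exists_red x y m h.1
  have h9 : IS ar S n' (fun i => x (σ i)) (fun i => y (σ i)) := by
    refine ⟨h7, h8, ?_⟩
    intro a ha hz
    rw [← Hold_mapA (v := x) (f := σ), ← Hold_mapA (v := y) (f := σ)]
    apply h.2 _ (WF_mapA.2 ha)
    intro z hz'
    simp only [mapA, List.mem_map] at hz'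
    obtain ⟨t, ht, rfl⟩ := hz'
    exact h3 t (hz t ht)
  have h10 := ET_comp (ET_of_bf (IS_bfs' hN hT) h9) π h2
  exact ET_congr h5 h6 h10

/-! ## finitely many diagrams -/

/-- the diagram -/
def SP {l : ℕ} (ar : Fin l → ℕ) {M : Type} (S : ∀ i, (Fin (ar i) → M) → Prop) (m : ℕ) (x : ℕ → M) :
    (Fin m → Fin m → Prop) × ({a // a ∈ atomsL ar m} → Prop) :=
  (fun i j => x i = x j, fun a => Hold ar S x a.1)

theorem SD_of_SP {m : ℕ} {x y : ℕ → M} (h : SP ar S m x = SP ar S m y) : SD ar S m x y := by
  constructor
  · intro i hi j hj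
    have h1 := congrFun (congrFun (congrArg Prod.fst h) ⟨i, hi⟩) ⟨j, hj⟩
    exact iff_of_eq h1
  · intro a ha hz
    have h1 := congrFun (congrArg Prod.snd h) ⟨a, (mem_atomsL ar).2 ⟨ha, hz⟩⟩
    exact iff_of_eq h1

theorem finite_SP (m : ℕ) : Finite ((Fin m → Fin m → Prop) × ({a // a ∈ atomsL ar m} → Prop)) := by
  have : Finite {a // a ∈ atomsL ar m} := (List.finite_toSet (atomsL ar m)).to_subtype
  infer_instance

theorem not_ET_iff {m : ℕ} {x y : ℕ → M} (h : ¬ ET br T m x y) : ∃ φ : (lang br).Formula (Fin m),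
    @Formula.Realize (lang br) M (str br T) (Fin m) φ (fun i => x i) ∧
      ¬ @Formula.Realize (lang br) M (str br T) (Fin m) φ (fun i => y i) := by
  let _ := str br T
  unfold ET at h
  push Not at h
  obtain ⟨φ, ⟨h1, h2⟩ | ⟨h1, h2⟩⟩ := h
  · exact ⟨φ, h1, h2⟩
  · refine ⟨∼φ, ?_, ?_⟩
    · rw [Formula.realize_not]
      exact h1
    · rw [Formula.realize_not]
      exact fun hc => hc h2

/-- extension of a pair of tuples with the same type -/
theorem ET_forth (hN : Nice ar S) (hT : ∀ j, FODef ar S (T j)) {m : ℕ} {x y : ℕ → M} (h : ET br T m x y)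
    (x' : ℕ → M) (hx' : ∀ i < m, x' i = x i) :
    ∃ y' : ℕ → M, (∀ i < m, y' i = y i) ∧ ET br T (m + 1) x' y' := by
  classical
  by_contra hcon
  push Not at hcon
  let _ := str br T
  have := finite_SP (ar := ar) (m + 1)
  have h1 : ∀ p : (Fin (m + 1) → Fin (m + 1) → Prop) × ({a // a ∈ atomsL ar (m + 1)} → Prop),
      ∃ φ : (lang br).Formula (Fin (m + 1)), φ.Realize (fun i : Fin (m + 1) => x' i) ∧
        ∀ y' : ℕ → M, (∀ i < m, y' i = y i) → SP ar S (m + 1) y' = p →
          ¬ φ.Realize (fun i : Fin (m + 1) => y' i) := by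
    intro p
    by_cases hp : ∃ y' : ℕ → M, (∀ i < m, y' i = y i) ∧ SP ar S (m + 1) y' = p
    · obtain ⟨y', hy1, hy2⟩ := hp
      obtain ⟨φ, hφ1, hφ2⟩ := not_ET_iff (hcon y' hy1)
      refine ⟨φ, hφ1, ?_⟩
      intro y'' _ hy4 hc
      exact hφ2 ((ET_of_SD hN hT (SD_of_SP (hy4.trans hy2.symm)) φ).1 hc)
    · exact ⟨⊤, Formula.realize_top.2 trivial, fun y' hy1 hy2 => absurd ⟨y', hy1, hy2⟩ hp⟩
  choose Φ hΦ1 hΦ2 using h1
  let Ψ : (lang br).Formula (Fin (m + 1)) := Formula.iInf Φ
  let g : Fin (m + 1) → Fin m ⊕ Unit := fun i => Fin.lastCases (Sum.inr ()) (fun i => Sum.inl i) i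
  let Ξ : (lang br).Formula (Fin m) := Formula.iExs Unit (Ψ.relabel g)
  have hg : ∀ (u : ℕ → M) (b : Unit → M), (Sum.elim (fun i : Fin m => u i) b) ∘ g =
      fun i : Fin (m + 1) => Function.update u m (b ()) i := by
    intro u b
    funext i
    simp only [Function.comp_apply, g]
    refine Fin.lastCases ?_ (fun i => ?_) i
    · simp
    · simp only [Fin.lastCases_castSucc, Sum.elim_inl, Fin.val_castSucc]
      rw [Function.update_of_ne (by have := i.2; omega)]
  have hx : Ξ.Realize (fun i : Fin m => x i) := by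
    rw [Formula.realize_iExs]
    refine ⟨fun _ => x' m, ?_⟩
    rw [Formula.realize_relabel, hg]
    have : (fun i : Fin (m + 1) => Function.update x m (x' m) i) = fun i : Fin (m + 1) => x' i := by
      funext i
      rcases Nat.lt_or_ge (i : ℕ) m with c | c
      · rw [Function.update_of_ne (by omega), hx' _ c]
      · have : (i : ℕ) = m := by have := i.2; omega
        rw [this, Function.update_self]
    rw [this, Formula.realize_iInf]
    exact hΦ1
  have hy := (h Ξ).1 hx
  rw [Formula.realize_iExs] at hy
  obtain ⟨b, hb⟩ := hy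
  rw [Formula.realize_relabel, hg, Formula.realize_iInf] at hb
  exact hΦ2 _ (Function.update y m (b ())) (fun i hi => Function.update_of_ne (by omega) _ _) rfl (hb _)

/-- first-order definability in the reduct: invariance under types -/
theorem fodef_iff [Nonempty M] (hN : Nice ar S) (hT : ∀ j, FODef ar S (T j)) {n : ℕ} (R : (Fin n → M) → Prop) :
    FODef br T R ↔ ∀ x y : ℕ → M, ET br T n x y → R (fun i => x i) → R (fun i => y i) := by
  classical
  let _ := str br T
  constructor
  · rintro ⟨φ, hφ⟩ x y hxy hx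
    rw [hφ] at hx ⊢
    exact (hxy φ).1 hx
  · intro hinv
    have := finite_SP (ar := ar) n
    let D := (Fin n → Fin n → Prop) × ({a // a ∈ atomsL ar n} → Prop)
    let G := {p : D // ∃ x : ℕ → M, SP ar S n x = p ∧ R (fun i => x i)}
    let B := {p : D // ∃ x : ℕ → M, SP ar S n x = p ∧ ¬ R (fun i => x i)}
    have : Finite D := this
    have : Finite G := Subtype.finite
    have : Finite B := Subtype.finite
    have h1 : ∀ (p : G) (q : B), ∃ φ : (lang br).Formula (Fin n),
        (∀ x : ℕ → M, SP ar S n x = p.1 → φ.Realize (fun i : Fin n => x i)) ∧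
        (∀ x : ℕ → M, SP ar S n x = q.1 → ¬ φ.Realize (fun i : Fin n => x i)) := by
      rintro ⟨p, x, hx1, hx2⟩ ⟨q, y, hy1, hy2⟩
      obtain ⟨φ, hφ1, hφ2⟩ := not_ET_iff (T := T) (br := br) (m := n) (x := x) (y := y)
        (fun hc => hy2 (hinv x y hc hx2))
      refine ⟨φ, ?_, ?_⟩
      · intro x' hx'
        exact (ET_of_SD hN hT (SD_of_SP (hx1.trans hx'.symm)) φ).1 hφ1
      · intro y' hy' hc
        exact hφ2 ((ET_of_SD hN hT (SD_of_SP (hy'.trans hy1.symm)) φ).1 hc)
    choose Φ hΦ1 hΦ2 using h1
    refine ⟨Formula.iSup (fun p : G => Formula.iInf (fun q : B => Φ p q)), ?_⟩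
    intro v
    rw [Formula.realize_iSup]
    simp only [Formula.realize_iInf]
    let m0 : M := Classical.arbitrary M
    let z : ℕ → M := fun i => if h : i < n then v ⟨i, h⟩ else m0
    have hz : (fun i : Fin n => z i) = v := by
      funext i
      simp [z]
    rw [← hz]
    constructor
    · intro hR
      exact ⟨⟨SP ar S n z, z, rfl, hR⟩, fun q => hΦ1 _ q z rfl⟩
    · rintro ⟨p, hp⟩
      by_contra hR
      exact hΦ2 p ⟨SP ar S n z, z, rfl, hR⟩ z rfl (hp _)

end EF39
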