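import Mathlib

/-!
# EF39: parameter words as lists

A word is a list of natural numbers. `Ok i w k`: reading `w` when the letters `< i` are already known, each letter is
either known or the next new one, and at the end the letters `< k` are known. So `Ok i w (i + m)` says that `w` is an
`m`-parameter word over the alphabet `{0, ..., i-1}`, the parameters being named `i, ..., i+m-1` in the order of first
occurrence. `f.map (sub i g)` is the word obtained from `f` by replacing the parameters by the letters of `g`.
-/

set_option autoImplicit false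

namespace EF39

def Ok : ℕ → List ℕ → ℕ → Prop
  | i, [], k => i = k
  | i, j :: w, k => (j < i ∧ Ok i w k) ∨ (j = i ∧ Ok (i + 1) w k)

/-- substitution -/
def sub (i : ℕ) (g : List ℕ) (j : ℕ) : ℕ := if j < i then j else g.getD (j - i) 0

theorem Ok_append {i k : ℕ} {u v : List ℕ} : Ok i (u ++ v) k ↔ ∃ j, Ok i u j ∧ Ok j v k := by
  induction u generalizing i with
  | nil => simp [Ok]
  | cons a u ih =>
    simp only [List.cons_append, Ok, ih]
    constructor
    · rintro (⟨h, j, h1, h2⟩ | ⟨h, j, h1, h2⟩)
      · exact ⟨j, Or.inl ⟨h, h1⟩, h2⟩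
      · exact ⟨j, Or.inr ⟨h, h1⟩, h2⟩
    · rintro ⟨j, (⟨h, h1⟩ | ⟨h, h1⟩), h2⟩
      · exact Or.inl ⟨h, j, h1, h2⟩
      · exact Or.inr ⟨h, j, h1, h2⟩

theorem Ok_le {i k : ℕ} {w : List ℕ} (h : Ok i w k) : i ≤ k := by
  induction w generalizing i with
  | nil => exact le_of_eq h
  | cons a w ih =>
    rcases h with ⟨_, h⟩ | ⟨_, h⟩
    · exact ih h
    · exact (Nat.le_succ i).trans (ih h)

theorem Ok_lt {i k : ℕ} {w : List ℕ} (h : Ok i w k) : ∀ x ∈ w, x < k := by
  induction w generalizing i with
  | nil => simp
  | cons a w ih =>
    intro x hx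
    rcases h with ⟨h1, h⟩ | ⟨h1, h⟩
    · rcases List.mem_cons.1 hx with rfl | hx
      · exact h1.trans_le (Ok_le h)
      · exact ih h x hx
    · rcases List.mem_cons.1 hx with rfl | hx
      · have := Ok_le h
        omega
      · exact ih h x hx

theorem Ok_const {i : ℕ} {u : List ℕ} (h : ∀ x ∈ u, x < i) : Ok i u i := by
  induction u with
  | nil => rfl
  | cons a u ih => exact Or.inl ⟨h a (by simp), ih fun x hx => h x (by simp [hx])⟩

theorem Ok_zero {i : ℕ} {u : List ℕ} (h : Ok i u i) : ∀ x ∈ u, x < i := Ok_lt h

/-- the first new letter -/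
theorem Ok_split {i k : ℕ} {g : List ℕ} (h : Ok i g (i + (k + 1))) :
    ∃ u v, g = u ++ i :: v ∧ (∀ x ∈ u, x < i) ∧ Ok (i + 1) v (i + 1 + k) := by
  induction g with
  | nil => simp [Ok] at h
  | cons a g ih =>
    rcases h with ⟨h1, h⟩ | ⟨rfl, h⟩
    · obtain ⟨u, v, rfl, hu, hv⟩ := ih h
      refine ⟨a :: u, v, rfl, ?_, hv⟩
      intro x hx
      rcases List.mem_cons.1 hx with rfl | hx
      · exact h1
      · exact hu x hx
    · exact ⟨[], g, rfl, by simp, by rw [show a + 1 + k = a + (k + 1) by ring]; exact h⟩

theorem Ok_mk {i k : ℕ} {u v : List ℕ} (hu : ∀ x ∈ u, x < i) (hv : Ok (i + 1) v (i + 1 + k)) :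
    Ok i (u ++ i :: v) (i + (k + 1)) := by
  rw [Ok_append]
  exact ⟨i, Ok_const hu, Or.inr ⟨rfl, by rw [show i + (k + 1) = i + 1 + k by ring]; exact hv⟩⟩

/-- the identity word -/
theorem Ok_range' (i m : ℕ) : Ok i (List.range' i m) (i + m) := by
  induction m generalizing i with
  | zero => simp [Ok]
  | succ m ih =>
    rw [List.range'_succ]
    exact Or.inr ⟨rfl, by rw [show i + (m + 1) = i + 1 + m by ring]; exact ih (i + 1)⟩

theorem map_sub_range' {i m : ℕ} {g : List ℕ} (h : g.length = m) : (List.range' i m).map (sub i g) = g := by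
  apply List.ext_getElem
  · simp [h]
  · intro n h1 h2
    simp [sub, h2]

/-- composition of parameter words -/
theorem Ok_comp {i m k : ℕ} {f g : List ℕ} (hf : Ok i f (i + m)) (hg : g.length = m) (h : Ok i g k) :
    Ok i (f.map (sub i g)) k := by
  have key : ∀ (f : List ℕ) (s k1 : ℕ), s ≤ m → Ok (i + s) f (i + m) → Ok i (g.take s) k1 →
      Ok k1 (f.map (sub i g)) k := by
    intro f
    induction f with
    | nil =>
      intro s k1 hs hf hk1
      have : s = m := by
        have : i + s = i + m := hf
        omega
      subst this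
      rw [← hg, List.take_length] at hk1
      -- uniqueness of the state
      have huniq : ∀ (w : List ℕ) (i a b : ℕ), Ok i w a → Ok i w b → a = b := by
        intro w
        induction w with
        | nil => intro i a b h1 h2; exact h1.symm.trans h2
        | cons x w ih =>
          intro i a b h1 h2
          rcases h1 with ⟨h1, h1'⟩ | ⟨h1, h1'⟩ <;> rcases h2 with ⟨h2, h2'⟩ | ⟨h2, h2'⟩
          · exact ih _ _ _ h1' h2'
          · omega
          · omega
          · exact ih _ _ _ h1' h2'
      exact huniq _ _ _ _ hk1 h
    | cons x f ih =>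
      intro s k1 hs hf hk1
      rcases hf with ⟨h1, hf⟩ | ⟨h1, hf⟩
      · -- old letter
        refine Or.inl ⟨?_, ih s k1 hs hf hk1⟩
        by_cases hx : x < i
        · simp only [sub, hx, if_true]
          exact hx.trans_le (Ok_le hk1)
        · simp only [sub, hx, if_false]
          have hlt : x - i < (g.take s).length := by
            rw [List.length_take, hg]
            omega
          have : g.getD (x - i) 0 = (g.take s)[x - i] := by
            rw [List.getElem_take, List.getD_eq_getElem]
          rw [this]
          exact Ok_lt hk1 _ (List.getElem_mem _)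
      · -- new letter
        have hs' : s < m := by
          have := Ok_le hf
          omega
        have hx : ¬ x < i := by omega
        have hxs : x - i = s := by omega
        have htake : g.take (s + 1) = g.take s ++ [g.getD s 0] := by
          have hlt : s < g.length := by omega
          rw [List.take_add_one, List.getD_eq_getElem _ _ hlt]
          simp [hlt]
        have hok : Ok i (g.take (s + 1)) (if g.getD s 0 < k1 then k1 else k1 + 1) ∧ g.getD s 0 ≤ k1 := by
          have hlt : s < g.length := by omega
          have hsplit : g = g.take s ++ (g.getD s 0 :: g.drop (s + 1)) := by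
            rw [List.getD_eq_getElem _ _ hlt, ← List.drop_eq_getElem_cons hlt, List.take_append_drop]
          rw [hsplit, Ok_append] at h
          obtain ⟨j, hj1, hj2⟩ := h
          have huniq : ∀ (w : List ℕ) (i a b : ℕ), Ok i w a → Ok i w b → a = b := by
            intro w
            induction w with
            | nil => intro i a b h1 h2; exact h1.symm.trans h2
            | cons x w ih =>
              intro i a b h1 h2
              rcases h1 with ⟨h1, h1'⟩ | ⟨h1, h1'⟩ <;> rcases h2 with ⟨h2, h2'⟩ | ⟨h2, h2'⟩
              · exact ih _ _ _ h1' h2'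
              · omega
              · omega
              · exact ih _ _ _ h1' h2'
          have hj : j = k1 := huniq _ _ _ _ hj1 hk1
          subst hj
          rw [htake, Ok_append]
          rcases hj2 with ⟨h3, h4⟩ | ⟨h3, h4⟩
          · rw [if_pos h3]
            exact ⟨⟨j, hj1, Or.inl ⟨h3, rfl⟩⟩, h3.le⟩
          · rw [if_neg (by omega)]
            exact ⟨⟨j, hj1, Or.inr ⟨h3, rfl⟩⟩, h3.le⟩
        have hrec := ih (s + 1) _ hs' (by rw [show i + (s + 1) = i + s + 1 by ring]; exact hf) hok.1
        have hsub : sub i g x = g.getD s 0 := by simp only [sub, hx, if_false, hxs]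
        by_cases hc : g.getD s 0 < k1
        · rw [if_pos hc] at hrec
          exact Or.inl ⟨by rw [hsub]; exact hc, hrec⟩
        · rw [if_neg hc] at hrec
          refine Or.inr ⟨?_, hrec⟩
          rw [hsub]
          omega
  exact key f 0 i (Nat.zero_le _) hf (by simp [Ok])

/-- associativity of substitution -/
theorem map_sub_sub {i m : ℕ} {f g h : List ℕ} (hf : ∀ x ∈ f, x < i + m) (hg : g.length = m) :
    (f.map (sub i g)).map (sub i h) = f.map (sub i (g.map (sub i h))) := by
  rw [List.map_map]
  apply List.map_congr_left
  intro x hx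
  have hxm := hf x hx
  by_cases h1 : x < i
  · simp [sub, h1]
  · have hlt : x - i < g.length := by omega
    have hlt' : x - i < (g.map (sub i h)).length := by simpa using hlt
    have e1 : sub i g x = g[x - i] := by
      simp only [sub, h1, if_false]
      exact List.getD_eq_getElem _ _ hlt
    have e2 : sub i (g.map (sub i h)) x = sub i h g[x - i] := by
      conv_lhs => rw [sub, if_neg h1]
      rw [List.getD_eq_getElem _ _ hlt', List.getElem_map]
    rw [Function.comp_apply, e1, e2]

end EF39
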