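import Pool.Agent.EF39.HJ

/-!
# [EF39-ZERO] Graham-Rothschild for 0-parameter words
-/

set_option autoImplicit false

namespace EF39

/-- the statement of the Graham-Rothschild theorem -/
def GRP (k i m : ℕ) (κ : Type) : Prop :=
  ∃ n, ∀ χ : List ℕ → κ, ∃ f : List ℕ, f.length = n ∧ Ok i f (i + m) ∧
    ∀ g g' : List ℕ, g.length = m → g'.length = m → Ok i g (i + k) → Ok i g' (i + k) →
      χ (f.map (sub i g)) = χ (f.map (sub i g'))

/-- shift of the parameters by one -/
def shf (i j : ℕ) : ℕ := if j < i then j else j + 1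

theorem Ok_shf {i s k : ℕ} {f : List ℕ} (his : i ≤ s) (h : Ok s f k) : Ok (s + 1) (f.map (shf i)) (k + 1) := by
  induction f generalizing s with
  | nil =>
    have : s = k := h
    subst this
    rfl
  | cons a f ih =>
    rcases h with ⟨h1, h2⟩ | ⟨h1, h2⟩
    · refine Or.inl ⟨?_, ih his h2⟩
      simp only [shf]
      split_ifs <;> omega
    · refine Or.inr ⟨?_, ih (his.trans (Nat.le_succ s)) h2⟩
      simp only [shf]
      split_ifs <;> omega

theorem map_shf_sub {i : ℕ} {f g : List ℕ} {a : ℕ} :
    (f.map (shf i)).map (sub i (a :: g)) = f.map (sub i g) := by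
  rw [List.map_map]
  apply List.map_congr_left
  intro x _
  simp only [Function.comp_apply, shf, sub]
  by_cases hx : x < i
  · simp [hx]
  · have h1 : ¬ x + 1 < i := by omega
    have h2 : x + 1 - i = (x - i) + 1 := by omega
    simp [hx, h1, h2]

/-- substitution of the line by its first coordinate -/
theorem map_sub_cons {i : ℕ} {f : List ℕ} (hf : ∀ x ∈ f, x ≤ i) {a : ℕ} {g : List ℕ} :
    f.map (sub i (a :: g)) = f.map (sub i [a]) := by
  apply List.map_congr_left
  intro x hx
  have := hf x hx
  simp only [sub]
  by_cases h : x < i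
  · simp [h]
  · have : x = i := by omega
    subst this
    simp

/-- lists with entries `< i` of length at most `n` form a finite set -/
theorem finite_words (i n : ℕ) : Set.Finite {z : List ℕ | z.length ≤ n ∧ ∀ x ∈ z, x < i} := by
  induction n with
  | zero =>
    apply Set.Finite.subset (Set.finite_singleton ([] : List ℕ))
    rintro z ⟨h, -⟩
    simpa using h
  | succ n ih =>
    apply Set.Finite.subset ((Set.finite_singleton ([] : List ℕ)).union
      ((Set.Finite.image2 (fun (a : ℕ) (z : List ℕ) => a :: z) (Set.finite_lt_nat i) ih)))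
    rintro z ⟨h1, h2⟩
    cases z with
    | nil => left; rfl
    | cons a z =>
      right
      exact ⟨a, h2 a (by simp), z, ⟨by simpa using h1, fun x hx => h2 x (by simp [hx])⟩, rfl⟩

theorem gr_zero (i m : ℕ) (κ : Type) [Finite κ] : GRP 0 i m κ := by
  rcases Nat.eq_zero_or_pos i with rfl | hi
  · -- no letters
    refine ⟨m, fun χ => ⟨List.range' 0 m, by simp, Ok_range' 0 m, ?_⟩⟩
    intro g g' hg hg' h h'
    have hn : ∀ g : List ℕ, Ok 0 g (0 + 0) → g = [] := by
      intro g hg
      cases g with
      | nil => rfl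
      | cons a g =>
        exact absurd (Ok_zero hg a (by simp)) (by omega)
    rw [hn g h, hn g' h']
  · induction m generalizing κ with
    | zero =>
      refine ⟨0, fun χ => ⟨[], rfl, rfl, ?_⟩⟩
      intro g g' hg hg' _ _
      rw [List.length_eq_zero_iff.1 hg, List.length_eq_zero_iff.1 hg']
    | succ m ih =>
      obtain ⟨n, hn⟩ := ih κ
      let Z := {z : List ℕ | z.length ≤ n ∧ ∀ x ∈ z, x < i}
      haveI : Finite Z := (finite_words i n).to_subtype
      obtain ⟨n', hn'⟩ := hj i hi (Z → κ)
      refine ⟨n' + n, fun χ => ?_⟩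
      obtain ⟨l, hl1, hl2, hl3⟩ := hn' (fun u z => χ (u ++ z.1))
      have hle : ∀ x ∈ l, x ≤ i := fun x hx => Nat.lt_succ_iff.1 (Ok_lt hl2 x hx)
      obtain ⟨f, hf1, hf2, hf3⟩ := hn (fun z => χ (l.map (sub i [0]) ++ z))
      refine ⟨l ++ f.map (shf i), by simp [hl1, hf1], ?_, ?_⟩
      · rw [Ok_append]
        refine ⟨i + 1, hl2, ?_⟩
        rw [show i + (m + 1) = i + m + 1 by ring]
        exact Ok_shf le_rfl hf2
      · have key : ∀ g : List ℕ, g.length = m + 1 → Ok i g (i + 0) →
            ∃ g1, g1.length = m ∧ Ok i g1 (i + 0) ∧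
              χ ((l ++ f.map (shf i)).map (sub i g)) = χ (l.map (sub i [0]) ++ f.map (sub i g1)) := by
          intro g hg1 hg2
          cases g with
          | nil => simp at hg1
          | cons a g =>
            have hlt := Ok_zero (i := i) hg2
            have hg' : Ok i g (i + 0) := Ok_const fun x hx => hlt x (by simp [hx])
            refine ⟨g, by simpa using hg1, hg', ?_⟩
            rw [List.map_append, map_shf_sub, map_sub_cons hle]
            have hz : (f.map (sub i g)) ∈ Z := by
              refine ⟨by simp [hf1], ?_⟩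
              have := Ok_comp hf2 (by simpa using hg1) hg'
              exact Ok_zero this
            have h1 := hl3 a (hlt a (by simp)) 0 hi
            exact congrFun h1 ⟨_, hz⟩
        intro g g' hg hg' h h'
        obtain ⟨g1, h1, h2, h3⟩ := key g hg h
        obtain ⟨g1', h1', h2', h3'⟩ := key g' hg' h'
        rw [h3, h3']
        exact hf3 g1 g1' h1 h1' h2 h2'

end EF39
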